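import Pool.Agent.N616.NV.Main
import Pool.Agent.W882.Nip3.Final

set_option autoImplicit false

/-!
# Project NV: the place of an absolute value
-/

namespace Pool.Agent.N616.NV

open Pool.Agent.W882.Nip3 Pool.Agent.N616.NH

/-- The place of a nontrivial absolute value of `K`. -/
noncomputable def plOf {K : Type} [Field K] (v : AbsoluteValue K ℝ) (hv : v.IsNontrivial) :
    Place K where
  O := ⊤
  F := v.Completion
  normedField := nnf v hv
  complete := inferInstanceAs (CompleteSpace v.Completion)
  res := (algebraMap K v.Completion).comp (⊤ : ValuationSubring K).subtype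
  isUnit_of_res_ne_zero x hx := by
    have hx0 : (x : K) ≠ 0 := by
      intro h
      apply hx
      show algebraMap K v.Completion (x : K) = 0
      rw [h, map_zero]
    exact IsUnit.of_mul_eq_one ⟨(x : K)⁻¹, trivial⟩ (Subtype.ext (mul_inv_cancel₀ hx0))
  denseRange := by
    refine (denseRange_algebraMap_completion v).mono ?_
    rintro _ ⟨a, rfl⟩
    exact ⟨⟨a, trivial⟩, rfl⟩

theorem norm_plOf {K : Type} [Field K] (v : AbsoluteValue K ℝ) (hv : v.IsNontrivial) (x : K)
    (h : x ∈ (plOf v hv).O) : ‖(plOf v hv).res ⟨x, h⟩‖ = v x :=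
  norm_algebraMap_completion v x

end Pool.Agent.N616.NV
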