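import Pool.Agent.N616.NV.Stm
import Pool.Agent.N616.NH.PL

/-!
# Project NV (helper616), BP (helper771): the place of a bad valuation ring
-/

set_option autoImplicit false

namespace Pool.Agent.N616.NV.BP_

open Polynomial Pool.Agent.W882.Nip3 Pool.Agent.N616.NH Pool.Agent.N616.NV

theorem map_disc1 {R S : Type} [CommRing R] [Nontrivial R] [CommRing S] [Nontrivial S]
    (σ : R →+* S) (d : ℕ) (g : Fin d → R) : σ (disc1 d g) = disc1 d (fun k => σ (g k)) := by
  rw [disc1, disc1, map_nrmElt]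
  congr 1
  funext k
  split_ifs with h
  · rw [map_mul, map_natCast]
  · rw [map_natCast]

theorem norm_disc1 {R S : Type} [CommRing R] [Nontrivial R] [CommRing S] [Nontrivial S]
    (σ : R →+* S) {e : ℕ} (d : ℕ) (g : Fin (e+1) → R) (h : Fin d → Fin (e+1) → R) :
    Algebra.norm S (disc1 d fun j => elt (fun k => σ (g k)) (fun k => σ (h j k))) =
      σ (Algebra.norm R (disc1 d fun j => elt g (h j))) := by
  classical
  rw [← norm_compat σ (algMap σ (e+1) g) (algMap_algebraMap σ (e+1) g) (algBasis (e+1) g)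
    (algBasis (e+1) (fun k => σ (g k))) (algMap_basis σ (e+1) g), map_disc1]
  simp only [algMap_elt]

theorem repr_nrm {S S' : Type} [CommRing S] [Nontrivial S] [CommRing S'] [Nontrivial S']
    (σ : S →+* S') {d e : ℕ} (g : Fin (e+1) → S) (y z : Fin d → Fin (e+1) → S)
    (k : Fin (e+1)) :
    (algBasis (e+1) (fun k => σ (g k))).repr (nrmElt d
      (fun j => elt (fun k => σ (g k)) (fun k => σ (y j k)))
      (fun j => elt (fun k => σ (g k)) (fun k => σ (z j k)))) k =
      σ ((algBasis (e+1) g).repr (nrmElt d (fun j => elt g (y j)) (fun j => elt g (z j))) k) := by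
  have h : nrmElt d (fun j => elt (fun k => σ (g k)) (fun k => σ (y j k)))
      (fun j => elt (fun k => σ (g k)) (fun k => σ (z j k))) =
      algMap σ (e+1) g (nrmElt d (fun j => elt g (y j)) (fun j => elt g (z j))) := by
    rw [map_nrmElt]
    simp only [algMap_elt]
  rw [h]
  exact repr_compat σ (algMap σ (e+1) g) (algMap_algebraMap σ (e+1) g) (algBasis (e+1) g)
    (algBasis (e+1) (fun k => σ (g k))) (algMap_basis σ (e+1) g) _ k

/-- the coordinates of the norm -/
noncomputable def nr {S : Type} [CommRing S] [Nontrivial S] {d e : ℕ} (g : Fin (e+1) → S)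
    (y z : Fin d → Fin (e+1) → S) (k : Fin (e+1)) : S :=
  (algBasis (e+1) g).repr (nrmElt d (fun j => elt g (y j)) (fun j => elt g (z j))) k

theorem map_nr {S S' : Type} [CommRing S] [Nontrivial S] [CommRing S'] [Nontrivial S']
    (σ : S →+* S') {d e : ℕ} (g : Fin (e+1) → S) (y z : Fin d → Fin (e+1) → S)
    (g' : Fin (e+1) → S') (y' z' : Fin d → Fin (e+1) → S') (hg : ∀ k, σ (g k) = g' k)
    (hy : ∀ j k, σ (y j k) = y' j k) (hz : ∀ j k, σ (z j k) = z' j k) (k : Fin (e+1)) :
    nr g' y' z' k = σ (nr g y z k) := by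
  have h1 : g' = fun k => σ (g k) := funext fun k => (hg k).symm
  have h2 : y' = fun j k => σ (y j k) := funext fun j => funext fun k => (hy j k).symm
  have h3 : z' = fun j k => σ (z j k) := funext fun j => funext fun k => (hz j k).symm
  subst h1 h2 h3
  exact repr_nrm σ g y z k

/-- the coordinates of the norm are polynomials -/
theorem poly_nrm {F : Type} [Field F] {d e : ℕ} (g : Fin (e+1) → F) (y : Fin d → Fin (e+1) → F)
    (k : Fin (e+1)) : ∃ q : MvPolynomial (Fin d × Fin (e+1)) F, ∀ z : Fin d → Fin (e+1) → F,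
      nr g y z k = MvPolynomial.eval (fun p : Fin d × Fin (e+1) => z p.1 p.2) q :=
  ⟨nr (fun k => MvPolynomial.C (g k)) (fun j k => MvPolynomial.C (y j k))
    (fun j k => MvPolynomial.X (j, k)) k, fun z =>
    map_nr (MvPolynomial.eval (fun p : Fin d × Fin (e+1) => z p.1 p.2)) _ _ _ g y z
      (fun _ => MvPolynomial.eval_C _) (fun _ _ => MvPolynomial.eval_C _)
      (fun j k => MvPolynomial.eval_X (j, k)) k⟩

/-- the coordinates of the norm are continuous -/
theorem continuous_nrm {F : Type} [Field F] [TopologicalSpace F] [IsTopologicalRing F] {d e : ℕ}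
    (g : Fin (e+1) → F) (y : Fin d → Fin (e+1) → F) (k : Fin (e+1)) :
    Continuous fun z : Fin d → Fin (e+1) → F =>
      (algBasis (e+1) g).repr (nrmElt d (fun j => elt g (y j)) (fun j => elt g (z j))) k := by
  show Continuous fun z : Fin d → Fin (e+1) → F => nr g y z k
  obtain ⟨q, hq⟩ := poly_nrm g y k
  simp only [hq]
  have h2 : Continuous fun z : Fin d → Fin (e+1) → F => fun p : Fin d × Fin (e+1) => z p.1 p.2 := by
    fun_prop
  exact (MvPolynomial.continuous_eval q).comp h2

end Pool.Agent.N616.NV.BP_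

namespace Pool.Agent.N616.NV

open Polynomial Pool.Agent.W882.Nip3 Pool.Agent.N616.NH Pool.Agent.N616.NV.BP_

theorem BP : S_ET → S_BP := by
  intro hET K _ O δ e d hd hbad
  obtain ⟨g, h, ξ, hg, hh, hξ, hdg, hdh, hno⟩ := hbad.ex
  obtain ⟨P, w, hPD, hsm, hun⟩ := Pool.Agent.N616.NH.PL K O δ hbad.ne hbad.lt
  refine ⟨P, hsm, ?_⟩
  intro D heD hdD hdim
  obtain ⟨hδP, hδ0⟩ := hun δ le_rfl hbad.lt.le
  have hδn : 0 < ‖P.res ⟨δ, hδP⟩‖ := norm_pos_iff.2 hδ0
  -- (1) elements of `O` have norm at most one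
  have h1 : ∀ x (hx : x ∈ O), ‖P.res ⟨x, hPD.le x hx⟩‖ ≤ 1 := by
    intro x hx
    by_contra hlt
    rw [not_le] at hlt
    obtain ⟨n, hn⟩ := pow_unbounded_of_one_lt (1 / ‖P.res ⟨δ, hδP⟩‖) hlt
    have hv : O.valuation (x ^ n * δ) ≤ O.valuation δ := by
      rw [map_mul, map_pow]
      have : O.valuation x ^ n ≤ 1 := pow_le_one₀ zero_le ((O.valuation_le_one_iff x).2 hx)
      exact mul_le_of_le_one_left' this
    obtain ⟨hm, hs⟩ := hsm _ hv
    have he : (⟨x ^ n * δ, hm⟩ : P.O) = (⟨x, hPD.le x hx⟩ : P.O) ^ n * ⟨δ, hδP⟩ := rfl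
    rw [he, map_mul, map_pow, norm_mul, norm_pow] at hs
    rw [div_lt_iff₀ hδn] at hn
    linarith
  -- (2) elements of small norm
  have h2 : ∀ y : P.O, ‖P.res y‖ < ‖P.res ⟨δ, hδP⟩‖ → O.valuation (y : K) ≤ O.valuation δ := by
    intro y hy
    by_contra hlt
    rw [not_le] at hlt
    have hy0 : (y : K) ≠ 0 := by
      intro h0
      rw [h0, map_zero] at hlt
      exact not_lt_zero hlt
    have hq : δ / (y : K) ∈ O := by
      rw [← O.valuation_le_one_iff, map_div₀]
      exact div_le_one_of_le₀ hlt.le zero_le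
    have he : (⟨δ, hδP⟩ : P.O) = ⟨δ / (y : K), hPD.le _ hq⟩ * y := by
      apply Subtype.ext
      show δ = δ / (y : K) * y
      field_simp
    rw [he, map_mul, norm_mul] at hy
    have h3 := h1 _ hq
    nlinarith [norm_nonneg (P.res y)]
  -- (3) the data over `O` and over `P.O`
  have hO : ∀ x ∈ O, x ∈ P.O := hPD.le
  let gO : Fin (e+1) → O := fun k => ⟨g k, hg k⟩
  let hhO : Fin d → Fin (e+1) → O := fun j k => ⟨h j k, hh j k⟩
  let gP : Fin (e+1) → P.O := fun k => ⟨g k, hO _ (hg k)⟩
  let hhP : Fin d → Fin (e+1) → P.O := fun j k => ⟨h j k, hO _ (hh j k)⟩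
  let ξP : Fin (e+1) → P.O := fun k => ⟨ξ k, hO _ (hξ k)⟩
  let gF : Fin (e+1) → P.F := fun k => P.res (gP k)
  let hF : Fin d → Fin (e+1) → P.F := fun j k => P.res (hhP j k)
  let ξF : Fin (e+1) → P.F := fun k => P.res (ξP k)
  have hd1 : disc1 (e+1) gF ≠ 0 := by
    have e1 : disc1 (e+1) g = O.subtype (disc1 (e+1) gO) := by
      rw [map_disc1]
      rfl
    have e2 : disc1 (e+1) g = P.O.subtype (disc1 (e+1) gP) := by
      rw [map_disc1]
      rfl
    have e3 : disc1 (e+1) gF = P.res (disc1 (e+1) gP) := by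
      rw [map_disc1]
    obtain ⟨hm, hne⟩ := hun (disc1 (e+1) g) hdg (by
      rw [O.valuation_le_one_iff, e1]
      exact (disc1 (e+1) gO).2)
    rw [e3]
    have e4 : (⟨disc1 (e+1) g, hm⟩ : P.O) = disc1 (e+1) gP := Subtype.ext e2
    rw [← e4]
    exact hne
  have hd2 : Algebra.norm P.F (disc1 d fun j => elt gF (hF j)) ≠ 0 := by
    have e1 : Algebra.norm K (disc1 d fun j => elt g (h j)) =
        O.subtype (Algebra.norm O (disc1 d fun j => elt gO (hhO j))) := by
      rw [← norm_disc1]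
      rfl
    have e2 : Algebra.norm K (disc1 d fun j => elt g (h j)) =
        P.O.subtype (Algebra.norm P.O (disc1 d fun j => elt gP (hhP j))) := by
      rw [← norm_disc1]
      rfl
    have e3 : Algebra.norm P.F (disc1 d fun j => elt gF (hF j)) =
        P.res (Algebra.norm P.O (disc1 d fun j => elt gP (hhP j))) := by
      rw [← norm_disc1]
    obtain ⟨hm, hne⟩ := hun _ hdh (by
      rw [O.valuation_le_one_iff, e1]
      exact (Algebra.norm O (disc1 d fun j => elt gO (hhO j))).2)
    rw [e3]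
    have e4 : (⟨_, hm⟩ : P.O) = Algebra.norm P.O (disc1 d fun j => elt gP (hhP j)) :=
      Subtype.ext e2
    rw [← e4]
    exact hne
  -- (4) the norm over the complete field
  obtain ⟨z, hz⟩ := hET P.F D e d hdim heD hdD hd gF (fun j => elt gF (hF j)) hd1 hd2 (elt gF ξF)
  choose u hu using fun j : Fin d => exists_elt gF ((algBasis d (fun j => elt gF (hF j))).repr z j)
  have hu2 : nrmElt d (fun j => elt gF (hF j)) (fun j => elt gF (u j)) = elt gF ξF := by
    rw [nrmElt]
    simp only [hu]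
    rw [(algBasis d (fun j => elt gF (hF j))).sum_repr, hz]
  have hopen : IsOpen {z : Fin d → Fin (e+1) → P.F | ∀ k,
      ‖(algBasis (e+1) gF).repr (nrmElt d (fun j => elt gF (hF j)) (fun j => elt gF (z j))) k -
        ξF k‖ < ‖P.res ⟨δ, hδP⟩‖} := by
    rw [Set.ofPred_forall]
    exact isOpen_iInter_of_finite fun k => isOpen_lt
      (((continuous_nrm gF hF k).sub continuous_const).norm) continuous_const
  have hdense : DenseRange (Pi.map (fun _ : Fin d => Pi.map (fun _ : Fin (e+1) => P.res))) :=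
    DenseRange.piMap fun _ => DenseRange.piMap fun _ => P.denseRange
  obtain ⟨x, hx⟩ := hdense.exists_mem_open hopen ⟨u, fun k => by
    rw [hu2, repr_elt, sub_self, norm_zero]
    exact hδn⟩
  obtain ⟨k, hk⟩ := hno (fun j k => (x j k : K))
  have e1 : (algBasis (e+1) g).repr (nrmElt d (fun j => elt g (h j))
      fun j => elt g (fun k => (x j k : K))) k = P.O.subtype ((algBasis (e+1) gP).repr
        (nrmElt d (fun j => elt gP (hhP j)) fun j => elt gP (x j)) k) := by
    rw [← repr_nrm]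
    rfl
  have e2 := hx k
  have e3 : (algBasis (e+1) gF).repr (nrmElt d (fun j => elt gF (hF j))
      fun j => elt gF (Pi.map (fun _ : Fin d => Pi.map (fun _ : Fin (e+1) => P.res)) x j)) k =
        P.res ((algBasis (e+1) gP).repr
        (nrmElt d (fun j => elt gP (hhP j)) fun j => elt gP (x j)) k) := by
    rw [← repr_nrm]
    rfl
  rw [e3] at e2
  have e4 : ‖P.res ((algBasis (e+1) gP).repr
      (nrmElt d (fun j => elt gP (hhP j)) fun j => elt gP (x j)) k - ξP k)‖ <
        ‖P.res ⟨δ, hδP⟩‖ := by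
    rw [map_sub]
    exact e2
  have e5 := h2 _ e4
  rw [e1] at hk
  exact absurd e5 (not_le.2 hk)

end Pool.Agent.N616.NV
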