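import Pool.Agent.N616.NV.Stm

set_option autoImplicit false

/-!
# NV/ET: norms of etale algebras (written by helper400)
-/

namespace Pool.Agent.N616.NV

open Polynomial Pool.Agent.W882.Nip3

namespace ET_

lemma coeff_mpoly {R : Type} [CommRing R] (d : ℕ) (g : Fin d → R) (k : ℕ) :
    (mpoly d g).coeff k = if h : k < d then g ⟨k, h⟩ else if k = d then 1 else 0 := by
  rw [mpoly, coeff_add, coeff_X_pow, finsetSum_coeff]
  simp only [coeff_C_mul_X_pow]
  by_cases h : k < d
  · rw [dif_pos h, if_neg (ne_of_lt h), zero_add, Finset.sum_eq_single (⟨k, h⟩ : Fin d)]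
    · simp
    · intro b _ hb
      rw [if_neg]
      intro h1
      exact hb (Fin.ext h1.symm)
    · intro h1
      exact absurd (Finset.mem_univ _) h1
  · rw [dif_neg h, Finset.sum_eq_zero, add_zero]
    intro x _
    rw [if_neg]
    have := x.2
    omega

/-- the element in the definition of `disc1` is the value of the derivative at the root -/
lemma disc_eq {R : Type} [CommRing R] [Nontrivial R] {d : ℕ} (hd : 0 < d) (g : Fin d → R) :
    disc1 d g = Algebra.norm R (aeval (AdjoinRoot.root (mpoly d g)) (derivative (mpoly d g))) := by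
  have hdeg : (derivative (mpoly d g)).natDegree < d := by
    have h1 := natDegree_derivative_le (mpoly d g)
    rw [mpoly_natDegree] at h1
    omega
  rw [disc1, nrmElt, aeval_eq_sum_range' hdeg, ← Fin.sum_univ_eq_sum_range
    (fun i => (derivative (mpoly d g)).coeff i • AdjoinRoot.root (mpoly d g) ^ i) d]
  congr 1
  refine Finset.sum_congr rfl fun j _ => ?_
  rw [algBasis_apply]
  congr 1
  rw [coeff_derivative, coeff_mpoly]
  by_cases h : (j:ℕ) + 1 < d
  · rw [dif_pos h, dif_pos h]
    push_cast
    ring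
  · have h2 : (j:ℕ) + 1 = d := by
      have := j.2
      omega
    rw [dif_neg h, dif_neg h, if_pos h2, one_mul]
    exact_mod_cast (congrArg (Nat.cast : ℕ → R) h2).symm

theorem isUnit_of_norm' {R A : Type} [CommRing R] [CommRing A] [Algebra R A] [Module.Finite R A]
    [Module.Free R A] (x : A) (h : IsUnit (Algebra.norm R x)) : IsUnit x := by
  rw [Algebra.norm_apply, ← LinearMap.isUnit_iff_isUnit_det] at h
  obtain ⟨u, hu⟩ := h
  have h1 : (u : Module.End R A) ((↑u⁻¹ : Module.End R A) 1) = 1 := by
    rw [← Module.End.mul_apply, Units.mul_inv]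
    rfl
  rw [hu] at h1
  have : x * ((↑u⁻¹ : Module.End R A) 1) = 1 := by simpa using h1
  exact IsUnit.of_mul_eq_one _ this

theorem fin_alg {R : Type} [CommRing R] [Nontrivial R] (d : ℕ) (c : Fin d → R) :
    Module.Finite R (Alg d c) := Module.Finite.of_basis (algBasis d c)

theorem free_alg {R : Type} [CommRing R] [Nontrivial R] (d : ℕ) (c : Fin d → R) :
    Module.Free R (Alg d c) := Module.Free.of_basis (algBasis d c)

/-- the polynomial is separable when its discriminant is not zero -/
lemma separable_of_disc {k : Type} [Field k] {d : ℕ} (hd : 0 < d) (c : Fin d → k)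
    (hc : disc1 d c ≠ 0) : (mpoly d c).Separable := by
  have := fin_alg d c
  have := free_alg d c
  rw [disc_eq hd] at hc
  have h1 : IsUnit (aeval (AdjoinRoot.root (mpoly d c)) (derivative (mpoly d c))) :=
    isUnit_of_norm' (R := k) _ (isUnit_iff_ne_zero.2 hc)
  obtain ⟨u, hu⟩ := h1.exists_left_inv
  obtain ⟨q, rfl⟩ := AdjoinRoot.mk_surjective u
  rw [AdjoinRoot.aeval_eq, ← map_mul, ← sub_eq_zero, ← map_one (AdjoinRoot.mk (mpoly d c)),
    ← map_sub, AdjoinRoot.mk_eq_zero] at hu
  obtain ⟨r, hr⟩ := hu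
  refine ⟨-r, q, ?_⟩
  linear_combination hr

lemma reduced_of_separable {k : Type} [Field k] {f : k[X]} (hf : f.Separable) :
    IsReduced (AdjoinRoot f) := by
  have h1 : (Ideal.span {f}).IsRadical := by
    rw [← isRadical_iff_span_singleton]
    exact hf.squarefree.isRadical
  exact (Ideal.isRadical_iff_quotient_reduced _).1 h1

attribute [local instance] Ideal.Quotient.field

lemma sep_quotient {k : Type} [Field k] {f : k[X]} (hf : f.Separable)
    (m : Ideal (AdjoinRoot f)) [m.IsMaximal] : Algebra.IsSeparable k (AdjoinRoot f ⧸ m) := by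
  set x : AdjoinRoot f ⧸ m := Ideal.Quotient.mk m (AdjoinRoot.root f) with hx
  have hval : ∀ p : k[X], aeval x p = Ideal.Quotient.mk m (AdjoinRoot.mk f p) := by
    intro p
    rw [← AdjoinRoot.aeval_eq]
    exact aeval_algHom_apply (Ideal.Quotient.mkₐ k m) (AdjoinRoot.root f) p
  have hx0 : aeval x f = 0 := by
    rw [hval, AdjoinRoot.mk_self, map_zero]
  have hsep : IsSeparable k x := hf.of_dvd (minpoly.dvd k x hx0)
  constructor
  intro y
  obtain ⟨a, rfl⟩ := Ideal.Quotient.mk_surjective y
  obtain ⟨p, rfl⟩ := AdjoinRoot.mk_surjective a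
  rw [← hval]
  have h1 : aeval x p ∈ Algebra.adjoin k {x} := aeval_mem_adjoin_singleton k x
  have h2 : Algebra.adjoin k {x} ≤ (separableClosure k (AdjoinRoot f ⧸ m)).toSubalgebra :=
    Algebra.adjoin_le (Set.singleton_subset_iff.2 (mem_separableClosure_iff.2 hsep))
  exact mem_separableClosure_iff.1 (h2 h1)

/-- norm of an element which acts as the identity on an ideal -/
lemma norm_of_ideal {M A : Type} [Field M] [CommRing A] [Algebra M A] [Module.Finite M A]
    (n : Ideal A) (a : A) (ha : ∀ y ∈ n, a * y = y) :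
    Algebra.norm M a = Algebra.norm M (Ideal.Quotient.mk n a) := by
  let W : Submodule M A := n.restrictScalars M
  have hW : W ≤ W.comap (Algebra.lmul M A a) := fun y hy => n.mul_mem_left a hy
  have h1 := LinearMap.det_eq_det_mul_det W (Algebra.lmul M A a) hW
  have h2 : (Algebra.lmul M A a).restrict hW = LinearMap.id := by
    ext y
    exact ha y.1 y.2
  rw [h2, LinearMap.det_id, one_mul] at h1
  rw [Algebra.norm_apply, Algebra.norm_apply, h1,
    ← LinearMap.det_conj (W.mapQ W _ hW) (Submodule.Quotient.restrictScalarsEquiv M n)]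
  congr 1
  ext x
  obtain ⟨y, rfl⟩ := Ideal.Quotient.mk_surjective x
  rfl

/-- norms over one field -/
lemma one_field {M : Type} [Field M] {D d : ℕ} (hd : 0 < d) (hdD : d ≤ D) (c : Fin d → M)
    (hc : disc1 d c ≠ 0)
    (H : ∀ (L : Type) [Field L] [Algebra M L], FiniteDimensional M L → Algebra.IsSeparable M L →
      Module.finrank M L ≤ D → Function.Surjective (Algebra.norm M : L →* M)) (ξ : M) :
    ∃ z : Alg d c, Algebra.norm M z = ξ := by
  classical
  obtain ⟨e, rfl⟩ : ∃ e, d = e + 1 := ⟨d - 1, by omega⟩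
  have hsep := separable_of_disc hd c hc
  have hfin := fin_alg (e+1) c
  have : IsReduced (Alg (e+1) c) := reduced_of_separable hsep
  have : IsArtinianRing (Alg (e+1) c) := IsArtinianRing.of_finite M _
  obtain ⟨n, hn⟩ := Ideal.exists_maximal (Alg (e+1) c)
  have hs : Algebra.IsSeparable M (Alg (e+1) c ⧸ n) := sep_quotient hsep n
  have hr : Module.finrank M (Alg (e+1) c ⧸ n) ≤ D := by
    have h1 := LinearMap.finrank_le_finrank_of_surjective
      (f := (Ideal.Quotient.mkₐ M n).toLinearMap) (Ideal.Quotient.mkₐ_surjective M n)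
    have h2 : Module.finrank M (Alg (e+1) c) = e + 1 := by
      rw [Module.finrank_eq_card_basis (algBasis (e+1) c), Fintype.card_fin]
    exact h1.trans (h2.le.trans hdD)
  obtain ⟨z, hz⟩ := H (Alg (e+1) c ⧸ n) inferInstance hs hr ξ
  obtain ⟨z0, hz0⟩ := Ideal.Quotient.mk_surjective z
  obtain ⟨a, ha⟩ := (IsArtinianRing.equivPi (Alg (e+1) c)).surjective
    (fun m => if m.asIdeal = n then (Ideal.Quotient.mk m.asIdeal z0) else 1)
  have ha' : ∀ m : MaximalSpectrum (Alg (e+1) c), Ideal.Quotient.mk m.asIdeal a =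
      if m.asIdeal = n then (Ideal.Quotient.mk m.asIdeal z0) else 1 := by
    intro m
    exact congrFun ha m
  refine ⟨a, ?_⟩
  have h1 : ∀ y ∈ n, a * y = y := by
    intro y hy
    apply (IsArtinianRing.equivPi (Alg (e+1) c)).injective
    funext m
    rw [IsArtinianRing.equivPi_apply, IsArtinianRing.equivPi_apply]
    show Ideal.Quotient.mk m.asIdeal (a * y) = Ideal.Quotient.mk m.asIdeal y
    by_cases hm : m.asIdeal = n
    · have h2 : Ideal.Quotient.mk m.asIdeal y = 0 := by
        rw [Ideal.Quotient.eq_zero_iff_mem, hm]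
        exact hy
      rw [map_mul, h2, mul_zero]
    · rw [map_mul, ha', if_neg hm, one_mul]
  rw [norm_of_ideal n a h1]
  have h3 := ha' ⟨n, hn⟩
  simp only [if_true] at h3
  rw [h3, hz0]
  exact hz

lemma map_disc {B B' : Type} [CommRing B] [Nontrivial B] [CommRing B'] [Nontrivial B']
    (σ : B →+* B') (d : ℕ) (h : Fin d → B) :
    σ (disc1 d h) = disc1 d (fun j => σ (h j)) := by
  rw [disc1, disc1, map_nrmElt]
  congr 1
  funext j
  split_ifs with h1
  · rw [map_mul, map_natCast]
  · rw [map_natCast]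

end ET_

open ET_ in
attribute [local instance] Ideal.Quotient.field in
/-- ET: norms of separable algebras over fields of dimension at most one are surjective. -/
theorem ET : S_ET := by
  classical
  intro F _ D e d hD he hd hd0 g h hg hh ξ
  have hsep := separable_of_disc (Nat.succ_pos e) g hg
  have hfin := fin_alg (e+1) g
  have hfree := free_alg (e+1) g
  have : IsReduced (Alg (e+1) g) := reduced_of_separable hsep
  have : IsArtinianRing (Alg (e+1) g) := IsArtinianRing.of_finite F _
  have hunit : IsUnit (disc1 d h) := isUnit_of_norm' (R := F) _ (isUnit_iff_ne_zero.2 hh)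
  have key : ∀ m : MaximalSpectrum (Alg (e+1) g),
      ∃ z : Alg d (fun j => Ideal.Quotient.mk m.asIdeal (h j)),
        Algebra.norm (Alg (e+1) g ⧸ m.asIdeal) z = Ideal.Quotient.mk m.asIdeal ξ := by
    intro m
    have hs : Algebra.IsSeparable F (Alg (e+1) g ⧸ m.asIdeal) := sep_quotient hsep m.asIdeal
    have hr : Module.finrank F (Alg (e+1) g ⧸ m.asIdeal) ≤ D := by
      have h1 := LinearMap.finrank_le_finrank_of_surjective
        (f := (Ideal.Quotient.mkₐ F m.asIdeal).toLinearMap) (Ideal.Quotient.mkₐ_surjective F _)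
      have h2 : Module.finrank F (Alg (e+1) g) = e + 1 := by
        rw [Module.finrank_eq_card_basis (algBasis (e+1) g), Fintype.card_fin]
      exact h1.trans (h2.le.trans he)
    refine one_field hd0 hd _ ?_ (fun L _ _ hL1 hL2 hL3 =>
      hD (Alg (e+1) g ⧸ m.asIdeal) inferInstance hs hr L hL1 hL2 hL3) _
    rw [← map_disc]
    exact (hunit.map (Ideal.Quotient.mk m.asIdeal)).ne_zero
  choose w hw using key
  have hW : ∀ k : Fin d, ∃ W : Alg (e+1) g, ∀ m : MaximalSpectrum (Alg (e+1) g),
      Ideal.Quotient.mk m.asIdeal W = (algBasis d _).repr (w m) k := by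
    intro k
    obtain ⟨a, ha⟩ := (IsArtinianRing.equivPi (Alg (e+1) g)).surjective
      (fun m => (algBasis d _).repr (w m) k)
    exact ⟨a, fun m => congrFun ha m⟩
  choose W hW' using hW
  refine ⟨∑ k, W k • algBasis d h k, ?_⟩
  apply (IsArtinianRing.equivPi (Alg (e+1) g)).injective
  funext m
  rw [IsArtinianRing.equivPi_apply, IsArtinianRing.equivPi_apply]
  show Ideal.Quotient.mk m.asIdeal (nrmElt d h W) = Ideal.Quotient.mk m.asIdeal ξ
  rw [map_nrmElt, ← hw m, nrmElt]
  simp only [hW']
  rw [(algBasis d _).sum_repr]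

end Pool.Agent.N616.NV
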