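import Pool.Agent.N616.NV.Stm
import Pool.Agent.R492.DV.F1

set_option autoImplicit false

/-!
# Project NV, task FO (helper306): a first-order property of valuation rings
-/

namespace Pool.Agent.N616.NV.FO_

open FirstOrder FirstOrder.Language FirstOrder.Ring Polynomial
open Pool.Agent.R492.DV Pool.Agent.W882.Nip3 Pool.Agent.N616.NV
open Pool.Agent.R492.DV.F1 (LL)

/-! ### First-order predicates -/

/-- The predicate `Φ` is given by a formula, for all fields with a subset. -/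
def FOP {α : Type} (Φ : ∀ (K : Type) [Field K], Set K → (α → K) → Prop) : Prop :=
  ∃ φ : LL.Formula α, ∀ (K : Type) [Field K] [CompatibleRing K] (Q : Set K) (v : α → K),
    (letI := ul (fun _ : Fin 1 => Q); φ.Realize v) ↔ Φ K Q v

theorem FOP.mem {α : Type} (q : FreeCommRing α) (t : ∀ (K : Type) [Field K], (α → K) → K)
    (h : ∀ (K : Type) [Field K] (v : α → K), FreeCommRing.lift v q = t K v) :
    FOP fun K _ Q v => t K v ∈ Q := by
  refine ⟨Relations.formula₁ (L := LL) (Sum.inr (URel.P 0))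
    (LHom.sumInl.onTerm (termOfFreeCommRing q)), fun K _ _ Q v => ?_⟩
  let _ := ul (fun _ : Fin 1 => Q)
  refine (Formula.realize_rel₁ (L := LL)).trans ?_
  show Term.realize v (LHom.sumInl.onTerm (termOfFreeCommRing q)) ∈ Q ↔ _
  rw [LHom.realize_onTerm, realize_termOfFreeCommRing, h]

theorem FOP.eq {α : Type} (q q' : FreeCommRing α) (t t' : ∀ (K : Type) [Field K], (α → K) → K)
    (h : ∀ (K : Type) [Field K] (v : α → K), FreeCommRing.lift v q = t K v)
    (h' : ∀ (K : Type) [Field K] (v : α → K), FreeCommRing.lift v q' = t' K v) :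
    FOP fun K _ (_ : Set K) v => t K v = t' K v := by
  refine ⟨Term.equal (LHom.sumInl.onTerm (termOfFreeCommRing q))
    (LHom.sumInl.onTerm (termOfFreeCommRing q')), fun K _ _ Q v => ?_⟩
  let _ := ul (fun _ : Fin 1 => Q)
  show Formula.Realize _ v ↔ _
  rw [Formula.realize_equal, LHom.realize_onTerm, LHom.realize_onTerm, realize_termOfFreeCommRing,
    realize_termOfFreeCommRing, h, h']

variable {α : Type} {Φ Ψ : ∀ (K : Type) [Field K], Set K → (α → K) → Prop}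

theorem FOP.not (h : FOP Φ) : FOP fun K _ Q v => ¬ Φ K Q v := by
  obtain ⟨φ, hφ⟩ := h
  refine ⟨φ.not, fun K _ _ Q v => ?_⟩
  let _ := ul (fun _ : Fin 1 => Q)
  show Formula.Realize _ v ↔ _
  rw [Formula.realize_not]
  exact not_congr (hφ K Q v)

theorem FOP.and (h : FOP Φ) (h' : FOP Ψ) : FOP fun K _ Q v => Φ K Q v ∧ Ψ K Q v := by
  obtain ⟨φ, hφ⟩ := h
  obtain ⟨ψ, hψ⟩ := h'
  refine ⟨φ ⊓ ψ, fun K _ _ Q v => ?_⟩
  let _ := ul (fun _ : Fin 1 => Q)
  show Formula.Realize _ v ↔ _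
  rw [Formula.realize_inf]
  exact and_congr (hφ K Q v) (hψ K Q v)

theorem FOP.or (h : FOP Φ) (h' : FOP Ψ) : FOP fun K _ Q v => Φ K Q v ∨ Ψ K Q v := by
  obtain ⟨φ, hφ⟩ := h
  obtain ⟨ψ, hψ⟩ := h'
  refine ⟨φ ⊔ ψ, fun K _ _ Q v => ?_⟩
  let _ := ul (fun _ : Fin 1 => Q)
  show Formula.Realize _ v ↔ _
  rw [Formula.realize_sup]
  exact or_congr (hφ K Q v) (hψ K Q v)

theorem FOP.imp (h : FOP Φ) (h' : FOP Ψ) : FOP fun K _ Q v => Φ K Q v → Ψ K Q v := by
  obtain ⟨φ, hφ⟩ := h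
  obtain ⟨ψ, hψ⟩ := h'
  refine ⟨φ.imp ψ, fun K _ _ Q v => ?_⟩
  let _ := ul (fun _ : Fin 1 => Q)
  show Formula.Realize _ v ↔ _
  rw [Formula.realize_imp]
  exact imp_congr (hφ K Q v) (hψ K Q v)

theorem FOP.all {ι : Type} [Finite ι] {Θ : ι → ∀ (K : Type) [Field K], Set K → (α → K) → Prop}
    (h : ∀ i, FOP (Θ i)) : FOP fun K _ Q v => ∀ i, Θ i K Q v := by
  choose φ hφ using h
  refine ⟨Formula.iInf φ, fun K _ _ Q v => ?_⟩
  let _ := ul (fun _ : Fin 1 => Q)
  show Formula.Realize _ v ↔ _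
  rw [Formula.realize_iInf]
  exact forall_congr' fun i => hφ i K Q v

theorem FOP.exi {ι : Type} [Finite ι] {Θ : ι → ∀ (K : Type) [Field K], Set K → (α → K) → Prop}
    (h : ∀ i, FOP (Θ i)) : FOP fun K _ Q v => ∃ i, Θ i K Q v := by
  choose φ hφ using h
  refine ⟨Formula.iSup φ, fun K _ _ Q v => ?_⟩
  let _ := ul (fun _ : Fin 1 => Q)
  show Formula.Realize _ v ↔ _
  rw [Formula.realize_iSup]
  exact exists_congr fun i => hφ i K Q v

theorem FOP.exs {β : Type} [Finite β] {Θ : ∀ (K : Type) [Field K], Set K → (α ⊕ β → K) → Prop}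
    (h : FOP Θ) : FOP fun K _ Q v => ∃ w : β → K, Θ K Q (Sum.elim v w) := by
  obtain ⟨φ, hφ⟩ := h
  refine ⟨Formula.iExs β φ, fun K _ _ Q v => ?_⟩
  let _ := ul (fun _ : Fin 1 => Q)
  show Formula.Realize _ v ↔ _
  rw [Formula.realize_iExs]
  exact exists_congr fun w => hφ K Q _

theorem FOP.alls {β : Type} [Finite β] {Θ : ∀ (K : Type) [Field K], Set K → (α ⊕ β → K) → Prop}
    (h : FOP Θ) : FOP fun K _ Q v => ∀ w : β → K, Θ K Q (Sum.elim v w) := by
  obtain ⟨φ, hφ⟩ := h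
  refine ⟨Formula.iAlls β φ, fun K _ _ Q v => ?_⟩
  let _ := ul (fun _ : Fin 1 => Q)
  show Formula.Realize _ v ↔ _
  rw [Formula.realize_iAlls]
  exact forall_congr' fun w => hφ K Q _

/-- Transfer. -/
theorem FOP.transfer {Φ : ∀ (K : Type) [Field K], Set K → (Empty → K) → Prop} (h : FOP Φ)
    {K K' : Type} [Field K] [CompatibleRing K] [Field K'] [CompatibleRing K'] {P : Set K}
    {Q : Set K'}
    (hS : Same FirstOrder.Language.ring (fun _ : Fin 1 => P) (fun _ : Fin 1 => Q))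
    (hP : Φ K P default) : Φ K' Q default := by
  obtain ⟨φ, hφ⟩ := h
  have h := (@elementarilyEquivalent_iff _ K K' (@sumStructure _ _ K _ (ul fun _ : Fin 1 => P))
    (@sumStructure _ _ K' _ (ul fun _ : Fin 1 => Q))).1 hS φ
  exact (hφ K' Q default).1 (h.1 ((hφ K P default).2 hP))

/-! ### The terms -/

section terms

variable {S S' : Type} [CommRing S] [Nontrivial S] [CommRing S'] [Nontrivial S']

theorem map_disc1 (σ : S →+* S') (d : ℕ) (g : Fin d → S) :
    σ (disc1 d g) = disc1 d (fun k => σ (g k)) := by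
  unfold disc1
  rw [map_nrmElt]
  congr 1
  funext k
  split_ifs
  · rw [map_mul, map_natCast]
  · rw [map_natCast]

/-- The norm of the second discriminant. -/
noncomputable def N2 (e d : ℕ) (g : Fin (e+1) → S) (h : Fin d → Fin (e+1) → S) : S :=
  Algebra.norm S (disc1 d fun j => elt g (h j))

/-- The coordinates of a norm. -/
noncomputable def N3 (e d : ℕ) (g : Fin (e+1) → S) (h z : Fin d → Fin (e+1) → S)
    (k : Fin (e+1)) : S :=
  (algBasis (e+1) g).repr (nrmElt d (fun j => elt g (h j)) fun j => elt g (z j)) k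

theorem map_N2 (σ : S →+* S') (e d : ℕ) (g : Fin (e+1) → S) (h : Fin d → Fin (e+1) → S) :
    σ (N2 e d g h) = N2 e d (fun k => σ (g k)) (fun j k => σ (h j k)) := by
  classical
  unfold N2
  rw [← norm_compat σ (algMap σ (e+1) g) (algMap_algebraMap σ (e+1) g) (algBasis (e+1) g)
    (algBasis (e+1) (fun k => σ (g k))) (algMap_basis σ (e+1) g), map_disc1]
  simp only [algMap_elt]

theorem map_N3 (σ : S →+* S') (e d : ℕ) (g : Fin (e+1) → S) (h z : Fin d → Fin (e+1) → S)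
    (k : Fin (e+1)) :
    σ (N3 e d g h z k) = N3 e d (fun k => σ (g k)) (fun j k => σ (h j k))
      (fun j k => σ (z j k)) k := by
  unfold N3
  rw [← repr_compat σ (algMap σ (e+1) g) (algMap_algebraMap σ (e+1) g) (algBasis (e+1) g)
    (algBasis (e+1) (fun k => σ (g k))) (algMap_basis σ (e+1) g), map_nrmElt]
  simp only [algMap_elt]

end terms

/-! ### The property -/

/-- The body of the property, for given values of the variables. -/
structure Body {K : Type} [Field K] (Q : Set K) (e d : ℕ) (δ c₁ c₂ : K) (g : Fin (e+1) → K)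
    (h : Fin d → Fin (e+1) → K) (ξ : Fin (e+1) → K) : Prop where
  ne : ¬ δ = 0
  one : δ ∈ Q
  sq : δ * δ ∈ Q
  nin : ¬ (1 : K) ∈ Q
  hg : ∀ k, δ * g k ∈ Q
  hh : ∀ j k, δ * h j k ∈ Q
  hx : ∀ k, δ * ξ k ∈ Q
  hc₁ : δ = disc1 (e+1) g * c₁
  hc₁' : δ * c₁ ∈ Q
  hc₂ : δ = N2 e d g h * c₂
  hc₂' : δ * c₂ ∈ Q
  add : ∀ x y : K, δ * x ∈ Q → δ * y ∈ Q → δ * (x + y) ∈ Q
  neg : ∀ x : K, δ * x ∈ Q → δ * -x ∈ Q
  mul : ∀ x y : K, δ * x ∈ Q → δ * y ∈ Q → δ * (x * y) ∈ Q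
  total : ∀ x y : K, x * y = 1 → δ * x ∈ Q ∨ δ * y ∈ Q
  nrm : ∀ z : Fin d → Fin (e+1) → K, ∃ k, ¬ N3 e d g h z k - ξ k ∈ Q

/-- The parameters. -/
abbrev Vr (e d : ℕ) : Type := Fin (e+1) ⊕ (Fin d × Fin (e+1)) ⊕ Fin (e+1) ⊕ Fin 3

/-- The property `Body` for an assignment of the parameters. -/
def BodyV (e d : ℕ) (K : Type) [Field K] (Q : Set K) (v : Vr e d → K) : Prop :=
  Body Q e d (v (Sum.inr (Sum.inr (Sum.inr 0)))) (v (Sum.inr (Sum.inr (Sum.inr 1))))
    (v (Sum.inr (Sum.inr (Sum.inr 2)))) (fun k => v (Sum.inl k))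
    (fun j k => v (Sum.inr (Sum.inl (j, k)))) (fun k => v (Sum.inr (Sum.inr (Sum.inl k))))

theorem FOP.congr {α : Type} {Φ Ψ : ∀ (K : Type) [Field K], Set K → (α → K) → Prop} (h : FOP Φ)
    (h' : ∀ (K : Type) [Field K] (Q : Set K) (v : α → K), Φ K Q v ↔ Ψ K Q v) : FOP Ψ := by
  obtain ⟨φ, hφ⟩ := h
  exact ⟨φ, fun K _ _ Q v => (hφ K Q v).trans (h' K Q v)⟩

section idx

variable (e d : ℕ)

/-- index -/
abbrev iD : Empty ⊕ Vr e d := Sum.inr (Sum.inr (Sum.inr (Sum.inr 0)))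

/-- index -/
abbrev i1 : Empty ⊕ Vr e d := Sum.inr (Sum.inr (Sum.inr (Sum.inr 1)))

/-- index -/
abbrev i2 : Empty ⊕ Vr e d := Sum.inr (Sum.inr (Sum.inr (Sum.inr 2)))

/-- index -/
abbrev iG (k : Fin (e+1)) : Empty ⊕ Vr e d := Sum.inr (Sum.inl k)

/-- index -/
abbrev iH (j : Fin d) (k : Fin (e+1)) : Empty ⊕ Vr e d := Sum.inr (Sum.inr (Sum.inl (j, k)))

/-- index -/
abbrev iX (k : Fin (e+1)) : Empty ⊕ Vr e d := Sum.inr (Sum.inr (Sum.inr (Sum.inl k)))

end idx

open FreeCommRing (of lift_of)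

theorem fop_add (e d : ℕ) : FOP (α := Empty ⊕ Vr e d) fun K _ Q v => ∀ x y : K,
    v (iD e d) * x ∈ Q → v (iD e d) * y ∈ Q → v (iD e d) * (x + y) ∈ Q := by
  have h := FOP.alls (β := Fin 2) (FOP.imp
    (FOP.mem (of (Sum.inl (iD e d)) * of (Sum.inr 0))
      (fun K _ v => v (Sum.inl (iD e d)) * v (Sum.inr 0)) (by intro K _ v; simp))
    (FOP.imp (FOP.mem (of (Sum.inl (iD e d)) * of (Sum.inr 1))
      (fun K _ v => v (Sum.inl (iD e d)) * v (Sum.inr 1)) (by intro K _ v; simp))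
    (FOP.mem (of (Sum.inl (iD e d)) * (of (Sum.inr 0) + of (Sum.inr 1)))
      (fun K _ v => v (Sum.inl (iD e d)) * (v (Sum.inr 0) + v (Sum.inr 1)))
      (by intro K _ v; simp))))
  refine h.congr fun K _ Q v => ⟨fun h x y => h ![x, y], fun h w => h (w 0) (w 1)⟩

theorem fop_neg (e d : ℕ) : FOP (α := Empty ⊕ Vr e d) fun K _ Q v => ∀ x : K,
    v (iD e d) * x ∈ Q → v (iD e d) * -x ∈ Q := by
  have h := FOP.alls (β := Fin 1) (FOP.imp
    (FOP.mem (of (Sum.inl (iD e d)) * of (Sum.inr 0))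
      (fun K _ v => v (Sum.inl (iD e d)) * v (Sum.inr 0)) (by intro K _ v; simp))
    (FOP.mem (of (Sum.inl (iD e d)) * -(of (Sum.inr 0)))
      (fun K _ v => v (Sum.inl (iD e d)) * -v (Sum.inr 0))
      (by intro K _ v; simp)))
  refine h.congr fun K _ Q v => ⟨fun h x => h ![x], fun h w => h (w 0)⟩

theorem fop_mul (e d : ℕ) : FOP (α := Empty ⊕ Vr e d) fun K _ Q v => ∀ x y : K,
    v (iD e d) * x ∈ Q → v (iD e d) * y ∈ Q → v (iD e d) * (x * y) ∈ Q := by
  have h := FOP.alls (β := Fin 2) (FOP.imp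
    (FOP.mem (of (Sum.inl (iD e d)) * of (Sum.inr 0))
      (fun K _ v => v (Sum.inl (iD e d)) * v (Sum.inr 0)) (by intro K _ v; simp))
    (FOP.imp (FOP.mem (of (Sum.inl (iD e d)) * of (Sum.inr 1))
      (fun K _ v => v (Sum.inl (iD e d)) * v (Sum.inr 1)) (by intro K _ v; simp))
    (FOP.mem (of (Sum.inl (iD e d)) * (of (Sum.inr 0) * of (Sum.inr 1)))
      (fun K _ v => v (Sum.inl (iD e d)) * (v (Sum.inr 0) * v (Sum.inr 1)))
      (by intro K _ v; simp))))
  refine h.congr fun K _ Q v => ⟨fun h x y => h ![x, y], fun h w => h (w 0) (w 1)⟩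

theorem fop_total (e d : ℕ) : FOP (α := Empty ⊕ Vr e d) fun K _ Q v => ∀ x y : K,
    x * y = 1 → v (iD e d) * x ∈ Q ∨ v (iD e d) * y ∈ Q := by
  have h := FOP.alls (β := Fin 2) (FOP.imp
    (FOP.eq (of (Sum.inr 0) * of (Sum.inr 1)) 1
      (fun K _ (v : (Empty ⊕ Vr e d) ⊕ Fin 2 → K) => v (Sum.inr 0) * v (Sum.inr 1))
      (fun K _ _ => 1) (by intro K _ v; simp) (by intro K _ v; simp))
    (FOP.or (FOP.mem (of (Sum.inl (iD e d)) * of (Sum.inr 0))
      (fun K _ v => v (Sum.inl (iD e d)) * v (Sum.inr 0)) (by intro K _ v; simp))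
    (FOP.mem (of (Sum.inl (iD e d)) * of (Sum.inr 1))
      (fun K _ v => v (Sum.inl (iD e d)) * v (Sum.inr 1))
      (by intro K _ v; simp))))
  refine h.congr fun K _ Q v => ⟨fun h x y => h ![x, y], fun h w => h (w 0) (w 1)⟩

theorem fop_nrm (e d : ℕ) : FOP (α := Empty ⊕ Vr e d) fun K _ Q v =>
    ∀ z : Fin d → Fin (e+1) → K, ∃ k, ¬ N3 e d (fun k => v (iG e d k)) (fun j k => v (iH e d j k))
      z k - v (iX e d k) ∈ Q := by
  have h := FOP.alls (β := Fin d × Fin (e+1)) (FOP.exi (ι := Fin (e+1)) fun k => FOP.not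
    (FOP.mem (N3 e d (fun k => of (Sum.inl (iG e d k))) (fun j k => of (Sum.inl (iH e d j k)))
      (fun j k => of (Sum.inr (j, k))) k - of (Sum.inl (iX e d k)))
      (fun K _ v => N3 e d (fun k => v (Sum.inl (iG e d k))) (fun j k => v (Sum.inl (iH e d j k)))
      (fun j k => v (Sum.inr (j, k))) k - v (Sum.inl (iX e d k)))
      (by intro K _ v; rw [map_sub, map_N3]; simp only [lift_of])))
  refine h.congr fun K _ Q v => ⟨fun h z => h fun p => z p.1 p.2, fun h w => h fun j k => w (j, k)⟩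

theorem fop_body (e d : ℕ) : FOP (α := Empty ⊕ Vr e d) fun K _ Q v =>
    BodyV e d K Q (fun a => v (Sum.inr a)) := by
  have h := (((FOP.eq (of (iD e d)) 0 (fun K _ v => v (iD e d)) (fun K _ _ => 0)
      (by intro K _ v; simp) (by intro K _ v; simp)).not).and
    ((FOP.mem (of (iD e d)) (fun K _ v => v (iD e d)) (by intro K _ v; simp)).and
    ((FOP.mem (of (iD e d) * of (iD e d)) (fun K _ v => v (iD e d) * v (iD e d))
      (by intro K _ v; simp)).and
    (((FOP.mem 1 (fun K _ (_ : Empty ⊕ Vr e d → K) => 1) (by intro K _ v; simp)).not).and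
    ((FOP.all (ι := Fin (e+1)) fun k => FOP.mem (of (iD e d) * of (iG e d k))
      (fun K _ v => v (iD e d) * v (iG e d k)) (by intro K _ v; simp)).and
    ((FOP.all (ι := Fin d) fun j => FOP.all (ι := Fin (e+1)) fun k =>
      FOP.mem (of (iD e d) * of (iH e d j k))
      (fun K _ v => v (iD e d) * v (iH e d j k)) (by intro K _ v; simp)).and
    ((FOP.all (ι := Fin (e+1)) fun k => FOP.mem (of (iD e d) * of (iX e d k))
      (fun K _ v => v (iD e d) * v (iX e d k)) (by intro K _ v; simp)).and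
    ((FOP.eq (of (iD e d)) (disc1 (e+1) (fun k => of (iG e d k)) * of (i1 e d))
      (fun K _ v => v (iD e d)) (fun K _ v => disc1 (e+1) (fun k => v (iG e d k)) * v (i1 e d))
      (by intro K _ v; simp)
      (by intro K _ v; rw [map_mul, map_disc1]; simp only [lift_of])).and
    ((FOP.mem (of (iD e d) * of (i1 e d)) (fun K _ v => v (iD e d) * v (i1 e d))
      (by intro K _ v; simp)).and
    ((FOP.eq (of (iD e d)) (N2 e d (fun k => of (iG e d k)) (fun j k => of (iH e d j k)) *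
        of (i2 e d))
      (fun K _ v => v (iD e d)) (fun K _ v => N2 e d (fun k => v (iG e d k))
        (fun j k => v (iH e d j k)) * v (i2 e d))
      (by intro K _ v; simp)
      (by intro K _ v; rw [map_mul, map_N2]; simp only [lift_of])).and
    ((FOP.mem (of (iD e d) * of (i2 e d)) (fun K _ v => v (iD e d) * v (i2 e d))
      (by intro K _ v; simp)).and
    ((fop_add e d).and ((fop_neg e d).and ((fop_mul e d).and ((fop_total e d).and
      (fop_nrm e d))))))))))))))))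
  refine h.congr fun K _ Q v => ⟨?_, ?_⟩
  · rintro ⟨h1, h2, h3, h4, h5, h6, h7, h8, h9, h10, h11, h12, h13, h14, h15, h16⟩
    exact ⟨h1, h2, h3, h4, h5, h6, h7, h8, h9, h10, h11, h12, h13, h14, h15, h16⟩
  · intro h
    exact ⟨h.ne, h.one, h.sq, h.nin, h.hg, h.hh, h.hx, h.hc₁, h.hc₁', h.hc₂, h.hc₂', h.add, h.neg,
      h.mul, h.total, h.nrm⟩

theorem fop_main (e d : ℕ) : FOP (α := Empty) fun K _ Q _ => ∃ v : Vr e d → K,
    BodyV e d K Q v :=
  (FOP.exs (fop_body e d)).congr fun _ _ _ _ => Iff.rfl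

/-! ### Valuation rings -/

section val

variable {K : Type} [Field K]

theorem body_of {O : ValuationSubring K} {δ : K} {e d : ℕ} (h : BadAt O δ e d) :
    ∃ v : Vr e d → K, BodyV e d K {x : K | O.valuation x ≤ O.valuation δ} v := by
  obtain ⟨hne, hlt, g, hh, ξ, hg1, hh1, hξ1, hd1, hd2, hz⟩ := h
  have hv0 : O.valuation δ ≠ 0 := (Valuation.ne_zero_iff _).2 hne
  have hmem : ∀ x : K, O.valuation (δ * x) ≤ O.valuation δ ↔ x ∈ O := by
    intro x
    rw [← O.valuation_le_one_iff, map_mul]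
    constructor
    · intro h1
      have h2 : (O.valuation δ)⁻¹ * (O.valuation δ * O.valuation x) ≤
          (O.valuation δ)⁻¹ * O.valuation δ := mul_le_mul' le_rfl h1
      rwa [← mul_assoc, inv_mul_cancel₀ hv0, one_mul] at h2
    · intro h1
      calc O.valuation δ * O.valuation x ≤ O.valuation δ * 1 := mul_le_mul' le_rfl h1
        _ = _ := mul_one _
  have hdiv : ∀ D : K, O.valuation δ ≤ O.valuation D → δ = D * (D⁻¹ * δ) ∧ D⁻¹ * δ ∈ O := by
    intro D hD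
    have hD0 : D ≠ 0 := by
      rintro rfl
      rw [map_zero] at hD
      exact hv0 (le_antisymm hD zero_le)
    have hvD : O.valuation D ≠ 0 := (Valuation.ne_zero_iff _).2 hD0
    refine ⟨by rw [← mul_assoc, mul_inv_cancel₀ hD0, one_mul], ?_⟩
    rw [← O.valuation_le_one_iff, map_mul, map_inv₀]
    calc (O.valuation D)⁻¹ * O.valuation δ ≤ (O.valuation D)⁻¹ * O.valuation D :=
          mul_le_mul' le_rfl hD
      _ = 1 := inv_mul_cancel₀ hvD
  have hd2' : O.valuation δ ≤ O.valuation (N2 e d g hh) := hd2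
  refine ⟨Sum.elim g (Sum.elim (fun p => hh p.1 p.2) (Sum.elim ξ
    ![δ, (disc1 (e+1) g)⁻¹ * δ, (N2 e d g hh)⁻¹ * δ])), ?_⟩
  refine ⟨hne, (show O.valuation δ ≤ O.valuation δ from le_rfl), ?_, ?_, fun k => (hmem _).2 (hg1 k), fun j k => (hmem _).2 (hh1 j k),
    fun k => (hmem _).2 (hξ1 k), (hdiv _ hd1).1, (hmem _).2 (hdiv _ hd1).2, (hdiv _ hd2').1,
    (hmem _).2 (hdiv _ hd2').2, ?_, ?_, ?_, ?_, ?_⟩
  · exact (hmem _).2 ((O.valuation_le_one_iff _).1 hlt.le)
  · intro h1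
    have h2 : O.valuation 1 ≤ O.valuation δ := h1
    rw [map_one] at h2
    exact absurd hlt (not_lt.2 h2)
  · intro x y hx hy
    exact (hmem _).2 (O.add_mem _ _ ((hmem x).1 hx) ((hmem y).1 hy))
  · intro x hx
    exact (hmem _).2 (O.neg_mem _ ((hmem x).1 hx))
  · intro x y hx hy
    exact (hmem _).2 (O.mul_mem _ _ ((hmem x).1 hx) ((hmem y).1 hy))
  · intro x y hxy
    have hy : y = x⁻¹ := eq_inv_of_mul_eq_one_right hxy
    rcases O.mem_or_inv_mem x with h1 | h1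
    · exact Or.inl ((hmem x).2 h1)
    · exact Or.inr ((hmem y).2 (hy ▸ h1))
  · intro z
    obtain ⟨k, hk⟩ := hz z
    exact ⟨k, fun h1 => absurd hk (not_lt.2 h1)⟩

/-- The valuation ring. -/
def vs {Q : Set K} {e d : ℕ} {δ c₁ c₂ : K} {g : Fin (e+1) → K} {h : Fin d → Fin (e+1) → K}
    {ξ : Fin (e+1) → K} (H : Body Q e d δ c₁ c₂ g h ξ) : ValuationSubring K where
  carrier := {x | δ * x ∈ Q}
  mul_mem' hx hy := H.mul _ _ hx hy
  one_mem' := by
    show δ * 1 ∈ Q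
    rw [mul_one]
    exact H.one
  add_mem' hx hy := H.add _ _ hx hy
  zero_mem' := by
    show δ * 0 ∈ Q
    have h1 : δ * 1 ∈ Q := by rw [mul_one]; exact H.one
    have := H.add 1 (-1) h1 (H.neg 1 h1)
    rwa [add_neg_cancel] at this
  neg_mem' hx := H.neg _ hx
  mem_or_inv_mem' x := by
    by_cases hx0 : x = 0
    · left
      rw [hx0]
      show δ * 0 ∈ Q
      have h1 : δ * 1 ∈ Q := by rw [mul_one]; exact H.one
      have := H.add 1 (-1) h1 (H.neg 1 h1)
      rwa [add_neg_cancel] at this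
    · exact H.total x x⁻¹ (mul_inv_cancel₀ hx0)

theorem mem_Q {Q : Set K} {e d : ℕ} {δ c₁ c₂ : K} {g : Fin (e+1) → K} {h : Fin d → Fin (e+1) → K}
    {ξ : Fin (e+1) → K} (H : Body Q e d δ c₁ c₂ g h ξ) (x : K) :
    x ∈ Q ↔ (vs H).valuation x ≤ (vs H).valuation δ := by
  have hv0 : (vs H).valuation δ ≠ 0 := (Valuation.ne_zero_iff _).2 H.ne
  have h1 : x ∈ Q ↔ δ⁻¹ * x ∈ vs H := by
    show x ∈ Q ↔ δ * (δ⁻¹ * x) ∈ Q
    rw [← mul_assoc, mul_inv_cancel₀ H.ne, one_mul]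
  rw [h1, ← (vs H).valuation_le_one_iff, map_mul, map_inv₀]
  constructor
  · intro h2
    have h3 : (vs H).valuation δ * (((vs H).valuation δ)⁻¹ * (vs H).valuation x) ≤
        (vs H).valuation δ * 1 := mul_le_mul' le_rfl h2
    rwa [← mul_assoc, mul_inv_cancel₀ hv0, one_mul, mul_one] at h3
  · intro h2
    calc ((vs H).valuation δ)⁻¹ * (vs H).valuation x ≤
        ((vs H).valuation δ)⁻¹ * (vs H).valuation δ := mul_le_mul' le_rfl h2
      _ = 1 := inv_mul_cancel₀ hv0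

theorem badAt_of {Q : Set K} {e d : ℕ} {δ c₁ c₂ : K} {g : Fin (e+1) → K}
    {h : Fin d → Fin (e+1) → K} {ξ : Fin (e+1) → K} (H : Body Q e d δ c₁ c₂ g h ξ) :
    BadAt (vs H) δ e d := by
  have hdiv : ∀ D c : K, δ = D * c → δ * c ∈ Q → (vs H).valuation δ ≤ (vs H).valuation D := by
    intro D c h1 h2
    have h3 : (vs H).valuation c ≤ 1 := ((vs H).valuation_le_one_iff c).2 h2
    calc (vs H).valuation δ = (vs H).valuation D * (vs H).valuation c := by rw [← map_mul, ← h1]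
      _ ≤ (vs H).valuation D * 1 := mul_le_mul' le_rfl h3
      _ = _ := mul_one _
  refine ⟨H.ne, ?_, g, h, ξ, H.hg, H.hh, H.hx, hdiv _ _ H.hc₁ H.hc₁', hdiv _ _ H.hc₂ H.hc₂', ?_⟩
  · rw [← not_le]
    intro h1
    apply H.nin
    rw [mem_Q H, map_one]
    exact h1
  · intro z
    obtain ⟨k, hk⟩ := H.nrm z
    rw [mem_Q H, not_le] at hk
    exact ⟨k, hk⟩

end val

end Pool.Agent.N616.NV.FO_

namespace Pool.Agent.N616.NV

/-- The property `BadAt` is a first-order property. -/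
theorem FO : S_FO := by
  intro K _ _ O δ e d hB K' _ _ Q hS
  obtain ⟨v, hv⟩ := FO_.FOP.transfer (FO_.fop_main e d) hS (FO_.body_of hB)
  exact ⟨FO_.vs hv, _, FO_.badAt_of hv, FO_.mem_Q hv⟩

end Pool.Agent.N616.NV
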