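import Pool.Agent.N616.NV.Stm
import Pool.Agent.N616.NH.NP2

set_option autoImplicit false

/-!
# NV/HT: Johnson's theorem for definable neighbourhoods
-/

namespace Pool.Agent.N616.NV

open FirstOrder Pool.Agent.W882.Nip3 Pool.Agent.N616.NH
open Pool.Agent.N616.NH.DJ_ Pool.Agent.N616.NH.HEN_ Pool.Agent.N616.NH.NP_

namespace HT_

theorem key {K : Type} [Field K] (O : ValuationSubring K) (L : Type) [Field L] [Algebra K L]
    (p : ℕ) (hp : 2 ≤ p) (d : O) (hd : d ∈ IsLocalRing.maximalIdeal O) (V : Set L)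
    (hV1 : ∀ z ∈ RI O L, z ∈ V) (hV2 : ∀ z ∈ V, algebraMap K L ((d : K) ^ 2) * z ∈ RI O L)
    (z z' : RI O L) (hz : z = (bas O L d) ^ 3 * z') :
    (∃ y ∈ Jac (RI O L), y ^ p - y = z) ↔ ∃ y ∈ V,
      (algebraMap K L ((d : K) ^ 3) * y) ^ p - algebraMap K L ((d : K) ^ 3) * y = (z : L) := by
  constructor
  · rintro ⟨y, hy, hyz⟩
    have hp1 : y ^ (p - 1) ∈ Jac (RI O L) := Ideal.pow_mem_of_mem _ hy (p - 1) (by omega)
    obtain ⟨w, hw⟩ := unit_of_jac hp1
    have h1 : y ^ p = y ^ (p - 1) * y := by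
      rw [← pow_succ, Nat.sub_add_cancel (by omega)]
    have h2 : y = (bas O L d) ^ 3 * (-(z' * w)) := by
      have h3 : y * ((1 - y ^ (p - 1)) * w) = y := by rw [hw, mul_one]
      rw [hz, h1] at hyz
      linear_combination (-1 : RI O L) * h3 - w * hyz
    have h4 : algebraMap K L ((d : K) ^ 3) * ((-(z' * w) : RI O L) : L) = (y : L) := by
      have h5 := congrArg (fun x : RI O L => (x : L)) h2
      simp only [Subring.coe_mul, Subring.coe_pow, bas_coe] at h5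
      rw [h5, map_pow]
    refine ⟨((-(z' * w) : RI O L) : L), hV1 _ (Subtype.property _), ?_⟩
    rw [h4]
    have h6 := congrArg (fun x : RI O L => (x : L)) hyz
    simpa only [AddSubgroupClass.coe_sub, Subring.coe_pow] using h6
  · rintro ⟨y, hy, hyz⟩
    refine ⟨bas O L d * ⟨_, hV2 y hy⟩, mem_jac O L hd _, Subtype.ext ?_⟩
    have h1 : ((bas O L d * ⟨_, hV2 y hy⟩ : RI O L) : L) = algebraMap K L ((d : K) ^ 3) * y := by
      rw [Subring.coe_mul, bas_coe, ← mul_assoc, ← map_mul]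
      congr 2
      ring
    rw [AddSubgroupClass.coe_sub, Subring.coe_pow, h1]
    exact hyz

end HT_

open HT_ in
theorem HT (h1 : S_PAT) (h2 : S_IDE) (h3 : S_VD) (h4 : S_JM) : S_HT := by
  classical
  intro K _ _ p hpp _ hinf n hK O δ U hδ hδ1 hU hU1 hU2 hδ2
  refine HEN K O ?_
  intro L _ _ _ e he
  by_contra hcon
  push Not at hcon
  have hchar : CharP L p := charP_of_injective_algebraMap (algebraMap K L).injective p
  have hfin := FIN K O L
  have hch : CharP (RI O L) p := ((RI O L).subtype).charP (RI O L).subtype_injective p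
  have hAS := as_closed_n DFA DFB K p hinf n hK L
  have hs : ∀ x : RI O L, ∃ y : RI O L, y ^ p - y = x := by
    intro r
    obtain ⟨x, hx⟩ := hAS (r : L)
    refine ⟨⟨x, int_closed O L p hpp.out.two_le x (by rw [hx]; exact r.2)⟩, ?_⟩
    apply Subtype.ext
    exact hx
  have hδO : δ ∈ O := (O.valuation_le_one_iff δ).1 hδ1.le
  set d : O := ⟨δ, hδO⟩ with hd
  have hdm : d ∈ IsLocalRing.maximalIdeal O := (ValuationSubring.valuation_lt_one_iff O d).2 hδ1
  set a : RI O L := (bas O L d) ^ 3 with ha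
  have haJ : a ∈ Jac (RI O L) := by
    have := mem_jac O L hdm ((bas O L d) ^ 2)
    rw [ha, pow_succ', ]
    exact this
  have hpow : ∀ x ∈ Jac (RI O L), ∃ m : ℕ, a ∣ x ^ m := by
    intro x hx
    obtain ⟨m, t, ht⟩ := h4 K O δ hδ2 L x hx
    have h5 : x ^ m = bas O L d * t := by
      apply Subtype.ext
      rw [Subring.coe_pow, Subring.coe_mul, bas_coe]
      exact ht
    refine ⟨m * 3, t ^ 3, ?_⟩
    rw [pow_mul, h5, mul_pow]
  obtain ⟨X, hXa, hX⟩ := h1 (RI O L) p hs a haJ (h2 (RI O L) p e a he hcon.1 hcon.2 hpow)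
  obtain ⟨V, hV, hV1, hV2⟩ := h3 K O δ U hδ hδ1 hU hU1 hU2 L
  have hKEY := key O L p hpp.out.two_le d hdm V hV1 hV2
  set c : L := algebraMap K L ((d : K) ^ 3) with hc
  -- the relation is definable
  have hq : D K (fun v : Fin 1 ⊕ Fin n → L => ∃ u ∈ X, ∃ y ∈ V,
      (c * y) ^ p - c * y = (∏ k, v (Sum.inr k)) * v (Sum.inl 0) - (u : L)) := by
    have g1 : ∀ u : RI O L, D K (fun v : Fin 1 ⊕ Fin n → L => ∃ y ∈ V,
        (c * y) ^ p - c * y = (∏ k, v (Sum.inr k)) * v (Sum.inl 0) - (u : L)) := by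
      intro u
      have g2 : D K (fun v : (Fin 1 ⊕ Fin n) ⊕ Fin 1 → L => MvPolynomial.eval v
          ((MvPolynomial.C c * MvPolynomial.X (Sum.inr 0)) ^ p -
            MvPolynomial.C c * MvPolynomial.X (Sum.inr 0) -
            ((∏ k : Fin n, MvPolynomial.X (Sum.inl (Sum.inr k))) *
            MvPolynomial.X (Sum.inl (Sum.inl 0)) - MvPolynomial.C (u : L)) :
            MvPolynomial ((Fin 1 ⊕ Fin n) ⊕ Fin 1) L) = 0) := D_poly DFB _
      have g3 : D K (fun v : (Fin 1 ⊕ Fin n) ⊕ Fin 1 → L => v (Sum.inr 0) ∈ V) :=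
        D_re DFA (fun _ : Fin 1 => (Sum.inr 0 : (Fin 1 ⊕ Fin n) ⊕ Fin 1))
          (p := fun v : Fin 1 → L => v 0 ∈ V) hV
      refine D_congr (fun v => ?_) (D_ex1 DFA (D_and DFA g3 g2))
      simp only [map_sub, map_mul, map_pow, map_prod, MvPolynomial.eval_X, MvPolynomial.eval_C,
        Sum.elim_inr, Sum.elim_inl, sub_eq_zero]
    have g7 : D K (fun v : Fin 1 ⊕ Fin n → L => ∀ u : X, ¬ ∃ y ∈ V,
        (c * y) ^ p - c * y = (∏ k, v (Sum.inr k)) * v (Sum.inl 0) - ((u : RI O L) : L)) :=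
      D_forall DFA DFB fun u => D_not DFA (g1 u)
    refine D_congr (fun v => ?_) (D_not DFA g7)
    constructor
    · intro h
      by_contra h5
      apply h
      rintro ⟨u, hu⟩ h6
      exact h5 ⟨u, hu, h6⟩
    · rintro ⟨u, hu, hv⟩ h
      exact h ⟨u, hu⟩ hv
  refine nipnL K n hK L _ hq fun m => ?_
  obtain ⟨r, hr⟩ := hX (m ^ n)
  let E : (Fin n → Fin m) → Fin (m ^ n) := fun i => ⟨ex n m i, ex_lt n m i⟩
  have hE : Function.Injective E := fun i j h => ex_inj n m (congrArg Fin.val h)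
  refine ⟨fun k i => ((r ^ ((i : ℕ) * m ^ (k : ℕ)) : RI O L) : L), fun T => ?_⟩
  let W : Finset (Fin (m ^ n)) := Finset.univ.filter fun e => ∃ i, i ∈ T ∧ E i = e
  obtain ⟨t, ht⟩ := hr W
  refine ⟨((a * t : RI O L) : L), fun i => ?_⟩
  have hW : E i ∈ W ↔ i ∈ T := by
    simp only [W, Finset.mem_filter, Finset.mem_univ, true_and]
    constructor
    · rintro ⟨j, hj, hij⟩
      rwa [← hE hij]
    · intro h
      exact ⟨i, h, rfl⟩
  have hprod : ∏ k : Fin n, ((r ^ (((i k : Fin m) : ℕ) * m ^ (k : ℕ)) : RI O L) : L) =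
      ((r ^ ((E i : Fin (m ^ n)) : ℕ) : RI O L) : L) := by
    have h9 := map_prod (RI O L).subtype
      (fun k : Fin n => r ^ (((i k : Fin m) : ℕ) * m ^ (k : ℕ))) Finset.univ
    rw [Finset.prod_pow_eq_pow_sum] at h9
    exact h9.symm
  simp only [Sum.elim_inl, Sum.elim_inr]
  rw [hprod, ← hW, ← ht (E i)]
  have h8 : ∀ u : RI O L, ((r ^ ((E i : Fin (m ^ n)) : ℕ) : RI O L) : L) * ((a * t : RI O L) : L) -
      (u : L) = ((r ^ ((E i : Fin (m ^ n)) : ℕ) * (a * t) - u : RI O L) : L) :=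
    fun u => by push_cast; rfl
  constructor
  · rintro ⟨u, hu, y, hy, hyu⟩
    obtain ⟨u', hu'⟩ := hXa u hu
    refine ⟨u, hu, (hKEY _ (r ^ ((E i : Fin (m ^ n)) : ℕ) * t - u') ?_).2 ⟨y, hy, ?_⟩⟩
    · rw [hu', ha]
      ring
    · rw [hyu, h8]
  · rintro ⟨u, hu, y, hy, hyu⟩
    obtain ⟨u', hu'⟩ := hXa u hu
    obtain ⟨y', hy', hyu'⟩ := (hKEY _ (r ^ ((E i : Fin (m ^ n)) : ℕ) * t - u') (by
      rw [hu', ha]
      ring)).1 ⟨y, hy, hyu⟩
    refine ⟨u, hu, y', hy', ?_⟩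
    rw [hyu', h8]

end Pool.Agent.N616.NV
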