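import Pool.Agent.N616.NV.Stm
import Pool.Agent.N616.NH.NP2

set_option autoImplicit false

/-!
# Project NV: approximate idempotents (helper300)
-/

namespace Pool.Agent.N616.NV

open Pool.Agent.W882.Nip3 Pool.Agent.N616.NH

namespace IDE_

theorem mk_eq {R : Type} [CommRing R] {e : R} (he : e ^ 2 - e ∈ Jac R) (m : ℕ) :
    Ideal.Quotient.mk (Jac R) (1 - (1 - e ^ (m + 1)) ^ (m + 1)) = Ideal.Quotient.mk (Jac R) e := by
  have h1 : IsIdempotentElem (Ideal.Quotient.mk (Jac R) e) := by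
    unfold IsIdempotentElem
    rw [← map_mul, ← pow_two, ← sub_eq_zero, ← map_sub]
    exact Ideal.Quotient.eq_zero_iff_mem.2 he
  rw [map_sub, map_pow, map_sub, map_pow, map_one, h1.pow_succ_eq, h1.one_sub.pow_succ_eq]
  ring

end IDE_

theorem IDE : S_IDE := by
  intro R _ _ p hp _ e a he he1 he2 ha
  obtain ⟨m, hm⟩ := ha _ he
  have hq : a ∣ (e ^ 2 - e) ^ (m + 1) := hm.trans (pow_dvd_pow _ (Nat.le_succ m))
  have hk := IDE_.mk_eq he m
  have d1 : e ^ (m + 1) ∣ 1 - (1 - e ^ (m + 1)) ^ (m + 1) := by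
    have h := sub_dvd_pow_sub_pow (1 : R) (1 - e ^ (m + 1)) (m + 1)
    rwa [sub_sub_cancel, one_pow] at h
  have d2 : (1 - e) ^ (m + 1) ∣ 1 - (1 - (1 - e ^ (m + 1)) ^ (m + 1)) := by
    rw [sub_sub_cancel]
    apply pow_dvd_pow_of_dvd
    have h := sub_dvd_pow_sub_pow (1 : R) e (m + 1)
    rwa [one_pow] at h
  generalize 1 - (1 - e ^ (m + 1)) ^ (m + 1) = e' at hk d1 d2
  have d3 : a ∣ e' * (1 - e') := by
    refine hq.trans ?_
    have h : (e ^ 2 - e) ^ (m + 1) ∣ e ^ (m + 1) * (1 - e) ^ (m + 1) := by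
      rw [← mul_pow]
      apply pow_dvd_pow_of_dvd
      exact ⟨-1, by ring⟩
    exact h.trans (mul_dvd_mul d1 d2)
  have d4 : e' * (1 - e') ∣ e' ^ p - e' := by
    obtain ⟨n, hn⟩ := Nat.exists_eq_succ_of_ne_zero hp.out.ne_zero
    have h := sub_dvd_pow_sub_pow (1 : R) e' n
    rw [one_pow] at h
    obtain ⟨c, hc⟩ := h
    refine ⟨-c, ?_⟩
    rw [hn, pow_succ]
    linear_combination (-e') * hc
  obtain ⟨t, ht⟩ := d3.trans d4
  have hmem : ∀ x y : R, Ideal.Quotient.mk (Jac R) x = Ideal.Quotient.mk (Jac R) y → x ∈ Jac R → y ∈ Jac R := by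
    intro x y h hx
    rw [← Ideal.Quotient.eq_zero_iff_mem, ← h]
    exact Ideal.Quotient.eq_zero_iff_mem.2 hx
  have g0 : e' ^ 2 - e' ∈ Jac R := hmem (e ^ 2 - e) _ (by rw [map_sub, map_pow, map_sub, map_pow, hk]) he
  have g1 : e' ∉ Jac R := fun h => he1 (hmem _ _ hk h)
  have g2 : 1 - e' ∉ Jac R := fun h => he2 (hmem _ _ (by rw [map_sub, map_sub, hk]) h)
  refine ⟨t, ?_⟩
  rintro ⟨y, hy, hyt⟩
  refine NP_.wp_notMem_W p g0 g1 g2 ⟨y, hy, ?_⟩
  change y ^ p - y = e' ^ p - e'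
  rw [hyt, ht]

end Pool.Agent.N616.NV
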