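import Pool.Agent.N616.NV.Stm
import Pool.Agent.N616.NH.HEN

set_option autoImplicit false

/-!
# NV/JM: powers of the elements of the Jacobson radical of the integral closure
-/

namespace Pool.Agent.N616.NV

open IsLocalRing Pool.Agent.N616.NH Pool.Agent.N616.NH.HEN_

namespace JM_

variable {K : Type} [Field K] {O : ValuationSubring K} {L : Type} [Field L] [Algebra K L]

/-- the elements of the ideal generated by the maximal ideal of the valuation ring are multiples of
elements of the maximal ideal -/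
theorem mem_map (z : RI O L) (hz : z ∈ (maximalIdeal O).map (bas O L)) :
    ∃ c ∈ maximalIdeal O, ∃ r : RI O L, z = bas O L c * r := by
  rw [Ideal.map] at hz
  induction hz using Submodule.span_induction with
  | mem x hx =>
    obtain ⟨c, hc, rfl⟩ := hx
    exact ⟨c, hc, 1, (mul_one _).symm⟩
  | zero => exact ⟨0, Ideal.zero_mem _, 0, by simp⟩
  | add x y _ _ hx hy =>
    obtain ⟨c, hc, r, rfl⟩ := hx
    obtain ⟨d, hd, s, rfl⟩ := hy
    rcases ValuationRing.dvd_total c d with ⟨t, ht⟩ | ⟨t, ht⟩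
    · refine ⟨c, hc, r + bas O L t * s, ?_⟩
      rw [ht, map_mul]
      ring
    · refine ⟨d, hd, bas O L t * r + s, ?_⟩
      rw [ht, map_mul]
      ring
  | smul a x _ hx =>
    obtain ⟨c, hc, r, rfl⟩ := hx
    refine ⟨c, hc, a * r, ?_⟩
    rw [smul_eq_mul]
    ring

/-- the elements of the Jacobson radical have powers in the ideal generated by the maximal ideal of
the valuation ring -/
theorem pow_mem (x : RI O L) (hx : x ∈ Jac (RI O L)) :
    ∃ k : ℕ, x ^ k ∈ (maximalIdeal O).map (bas O L) := by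
  have h : x ∈ ((maximalIdeal O).map (bas O L)).radical := by
    rw [Ideal.radical_eq_sInf, Ideal.mem_sInf]
    rintro J ⟨hJ, hJp⟩
    have hle : maximalIdeal O ≤ J.comap (bas O L) := Ideal.map_le_iff_le_comap.1 hJ
    have hne : J.comap (bas O L) ≠ ⊤ := Ideal.comap_ne_top _ hJp.ne_top
    have hmax : (J.comap (bas O L)).IsMaximal := by
      rw [← (IsLocalRing.maximalIdeal.isMaximal O).eq_of_le hne hle]
      exact IsLocalRing.maximalIdeal.isMaximal O
    have hJm : J.IsMaximal :=
      Ideal.isMaximal_of_isIntegral_of_isMaximal_comap' (bas O L) (bas_integral O L) J hmax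
    have hx' : x ∈ sInf {J : Ideal (RI O L) | ⊥ ≤ J ∧ J.IsMaximal} := hx
    exact Ideal.mem_sInf.1 hx' ⟨bot_le, hJm⟩
  exact h

end JM_

open JM_

theorem JM : S_JM := by
  intro K _ O δ hδ L _ _ _ x hx
  obtain ⟨k, hk⟩ := pow_mem x hx
  obtain ⟨c, hc, r, hcr⟩ := mem_map _ hk
  have hc1 : O.valuation (c : K) < 1 := (O.valuation_lt_one_iff c).1 hc
  obtain ⟨m, hm⟩ := hδ c hc1
  have key : ∃ s : O, (c : K) ^ m = δ * s := by
    by_cases h0 : δ = 0
    · refine ⟨0, ?_⟩
      rw [h0, map_zero] at hm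
      have h1 : (c : K) ^ m = 0 := (map_eq_zero O.valuation).1 (le_antisymm hm zero_le')
      rw [h1, h0, zero_mul]
    · have hs : (c : K) ^ m / δ ∈ O := by
        rw [← O.valuation_le_one_iff, map_div₀]
        exact div_le_one_of_le₀ hm zero_le'
      refine ⟨⟨_, hs⟩, ?_⟩
      show (c : K) ^ m = δ * ((c : K) ^ m / δ)
      field_simp
  obtain ⟨s, hs⟩ := key
  refine ⟨k * m, bas O L s * r ^ m, ?_⟩
  have h2 : (x : L) ^ k = algebraMap K L c * r := by
    have := congrArg (fun z : RI O L => (z : L)) hcr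
    simpa [bas_coe] using this
  have h3 : ((bas O L s * r ^ m : RI O L) : L) = algebraMap K L s * (r : L) ^ m := by
    rw [Subring.coe_mul, bas_coe, SubmonoidClass.coe_pow]
  rw [pow_mul, h2, mul_pow, ← map_pow, hs, h3, map_mul, mul_assoc]

end Pool.Agent.N616.NV
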