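import Pool.Agent.N616.NV.Stm

set_option autoImplicit false

/-!
# Project NV: places and their rings (assembly)
-/

namespace Pool.Agent.N616.NV

open FirstOrder FirstOrder.Language FirstOrder.Ring Pool.Agent.W882.Nip3 Pool.Agent.R492.DV
  Pool.Agent.N616.NH

namespace Pla_

variable {K : Type} [Field K]

theorem infinite_of_ne_top {O : ValuationSubring K} (h : O ≠ ⊤) : Infinite K := by
  by_contra hfin
  rw [not_infinite_iff_finite] at hfin
  apply h
  rw [eq_top_iff]
  intro x _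
  by_cases hx : x = 0
  · rw [hx]
    exact O.zero_mem
  · have h1 : (Units.mk0 x hx) ^ orderOf (Units.mk0 x hx) = 1 := pow_orderOf_eq_one _
    have hpos : 0 < orderOf (Units.mk0 x hx) := orderOf_pos _
    have h2 : x ^ orderOf (Units.mk0 x hx) = 1 := by
      have := congrArg Units.val h1
      rw [Units.val_pow_eq_pow_val, Units.val_mk0, Units.val_one] at this
      exact this
    have h3 : O.valuation x ^ orderOf (Units.mk0 x hx) = 1 := by
      rw [← map_pow, h2, map_one]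
    rw [← O.valuation_le_one_iff]
    by_contra hcon
    rw [not_le] at hcon
    exact absurd h3 (one_lt_pow₀ hcon hpos.ne').ne'

/-- in positive characteristic all places are nonarchimedean -/
theorem ultrametric {p : ℕ} (hp : p.Prime) [CharP K p] (P : Place K) (a b : P.F) :
    ‖a + b‖ ≤ max ‖a‖ ‖b‖ := by
  have h0 : ((p : ℕ) : P.F) = 0 := by
    have h1 : ((p : ℕ) : P.O) = 0 := by
      apply Subtype.ext
      have : (((p : ℕ) : P.O) : K) = ((p : ℕ) : K) := by push_cast; rfl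
      rw [this, CharP.cast_eq_zero]
      rfl
    have h2 := congrArg P.res h1
    rwa [map_natCast, map_zero] at h2
  have hch : CharP P.F p := (CharP.charP_iff_prime_eq_zero hp).2 h0
  have : Fact p.Prime := ⟨hp⟩
  have hnat : ∀ n : ℕ, ‖(n : P.F)‖ ≤ 1 := by
    intro n
    by_cases hn : (n : P.F) = 0
    · rw [hn, norm_zero]
      exact zero_le_one
    · have h1 : (n : P.F) ^ (p - 1) = 1 := by
        have h2 : (n : ZMod p) ≠ 0 := by
          intro h
          apply hn
          rw [ZMod.natCast_eq_zero_iff] at h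
          exact (CharP.cast_eq_zero_iff P.F p n).2 h
        have h3 := ZMod.pow_card_sub_one_eq_one h2
        have h4 := congrArg (ZMod.castHom (dvd_refl p) P.F) h3
        rwa [map_pow, map_natCast, map_one] at h4
      have h5 : ‖(n : P.F)‖ ^ (p - 1) = 1 := by rw [← norm_pow, h1, norm_one]
      exact ((pow_eq_one_iff_of_nonneg (norm_nonneg _) (Nat.sub_ne_zero_of_lt hp.one_lt)).1 h5).le
  have := IsUltrametricDist.isUltrametricDist_of_forall_norm_natCast_le_one hnat
  exact IsUltrametricDist.norm_add_le_max a b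

/-- the neighbourhoods given by the ring of the place -/
theorem norm_of_val {P : Place K} {O : ValuationSubring K} (hO : IsRingOf P O) {δ : K}
    (hδ : δ ∈ P.O) (hδ0 : P.res ⟨δ, hδ⟩ ≠ 0) :
    (∀ (x : K) (h : x ∈ P.O), ‖P.res ⟨x, h⟩‖ ≤ ‖P.res ⟨δ, hδ⟩‖ →
      O.valuation x ≤ O.valuation δ) ∧
    ∀ x : K, O.valuation x * O.valuation δ ≤ 1 →
      ∃ h : x ∈ P.O, ‖P.res ⟨x, h⟩‖ ≤ ‖P.res ⟨δ, hδ⟩‖⁻¹ := by
  obtain ⟨u, hu⟩ := P.isUnit_of_res_ne_zero _ hδ0
  set w : P.O := ((u⁻¹ : P.Oˣ) : P.O) with hw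
  have hδ0' : δ ≠ 0 := by
    rintro rfl
    apply hδ0
    have : (⟨0, hδ⟩ : P.O) = 0 := rfl
    rw [this, map_zero]
  have h1 : (⟨δ, hδ⟩ : P.O) * w = 1 := by rw [← hu, hw, Units.mul_inv]
  have hwinv : (w : K) = δ⁻¹ := by
    have := congrArg Subtype.val h1
    exact eq_inv_of_mul_eq_one_right this
  have hres : P.res w = (P.res ⟨δ, hδ⟩)⁻¹ := by
    apply eq_inv_of_mul_eq_one_right
    rw [← map_mul, h1, map_one]
  have hpos : 0 < ‖P.res ⟨δ, hδ⟩‖ := norm_pos_iff.2 hδ0
  constructor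
  · intro x hx hle
    have h2 : x * (w : K) ∈ O := by
      rw [hO]
      refine ⟨P.O.mul_mem _ _ hx w.2, ?_⟩
      have : (⟨x * (w : K), P.O.mul_mem _ _ hx w.2⟩ : P.O) = ⟨x, hx⟩ * w := rfl
      rw [this, map_mul, hres, norm_mul, norm_inv, ← div_eq_mul_inv]
      exact (div_le_one hpos).2 hle
    rw [← O.valuation_le_one_iff, hwinv, ← div_eq_mul_inv, map_div₀] at h2
    exact (div_le_one₀ (zero_lt_iff.2 ((Valuation.ne_zero_iff _).2 hδ0'))).1 h2
  · intro x hx
    rw [← map_mul, O.valuation_le_one_iff, hO] at hx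
    obtain ⟨h2, h3⟩ := hx
    have h4 : x ∈ P.O := by
      have h5 := P.O.mul_mem _ _ h2 w.2
      rwa [hwinv, mul_assoc, mul_inv_cancel₀ hδ0', mul_one] at h5
    refine ⟨h4, ?_⟩
    have : (⟨x * δ, h2⟩ : P.O) = ⟨x, h4⟩ * ⟨δ, hδ⟩ := rfl
    rw [this, map_mul, norm_mul] at h3
    rw [← one_div]
    exact (le_div_iff₀ hpos).2 h3

end Pla_

end Pool.Agent.N616.NV
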