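import Pool.Agent.N616.NV.Top
import Pool.Agent.N616.NV.Pla

set_option autoImplicit false

/-!
# Project NV: places (assembly)
-/

namespace Pool.Agent.N616.NV

open FirstOrder FirstOrder.Language FirstOrder.Ring Pool.Agent.W882.Nip3 Pool.Agent.R492.DV
  Pool.Agent.N616.NH Pla_

/-- Places of dimension greater than one have definable neighbourhoods of the ring of the place. -/
theorem place_nbhd (hTK : S_TK) (hFO : S_FO) (hBP : S_BP) (hPB : S_PB) (K : Type) [Field K]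
    [CompatibleRing K] (hK : NIPField K ∨ (∃ n, NIPnField n K) ∨ NTP2Field K) (P : Place K)
    (hP : ∀ a b : P.F, ‖a + b‖ ≤ max ‖a‖ ‖b‖) (O : ValuationSubring K) (hO : IsRingOf P O) (D : ℕ)
    (hD : ¬ DimLeOneUpTo P.F D) :
    ∃ (δ : K) (U : Set K), δ ≠ 0 ∧ O.valuation δ < 1 ∧ DfS U ∧
      (∃ h : δ ∈ P.O, P.res ⟨δ, h⟩ ≠ 0) ∧
      (∀ x, O.valuation x ≤ O.valuation δ → x ∈ U) ∧
      ∀ x ∈ U, O.valuation x * O.valuation δ < 1 := by
  obtain ⟨δ, e, d, hbad, hd, hδ⟩ := hPB K P O D hO hP hD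
  obtain ⟨U, h1, h2, h3⟩ := top_def hTK hFO hBP K hK O δ e d hd hbad
  exact ⟨δ, U, hbad.ne, hbad.lt, h1, hδ, h2, h3⟩

/-- Places of dimension greater than one have a definable bounded neighbourhood of zero. -/
theorem place_def (hTK : S_TK) (hFO : S_FO) (hBP : S_BP) (hPB : S_PB) (hPO : S_PO) (K : Type)
    [Field K] [CompatibleRing K] (hK : NIPField K ∨ (∃ n, NIPnField n K) ∨ NTP2Field K)
    (P : Place K) (hP : ∀ a b : P.F, ‖a + b‖ ≤ max ‖a‖ ‖b‖) (D : ℕ)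
    (hD : ¬ DimLeOneUpTo P.F D) :
    ∃ (U : Set K) (ε : ℝ), DfS U ∧ 0 < ε ∧ (∀ (x : K) (h : x ∈ P.O), ‖P.res ⟨x, h⟩‖ ≤ ε → x ∈ U) ∧
      ∀ x ∈ U, ∃ h : x ∈ P.O, ‖P.res ⟨x, h⟩‖ ≤ 1 / ε := by
  obtain ⟨O, hO, -, -⟩ := hPO K P hP
  obtain ⟨δ, U, -, -, h1, ⟨hδ, hδ0⟩, h2, h3⟩ := place_nbhd hTK hFO hBP hPB K hK P hP O hO D hD
  obtain ⟨h4, h5⟩ := norm_of_val hO hδ hδ0
  refine ⟨U, ‖P.res ⟨δ, hδ⟩‖, h1, norm_pos_iff.2 hδ0, fun x h hx => h2 x (h4 x h hx),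
    fun x hx => ?_⟩
  rw [one_div]
  exact h5 x (h3 x hx).le

/-- In positive characteristic the rings of places of dimension greater than one are henselian. -/
theorem place_hens (hTK : S_TK) (hFO : S_FO) (hBP : S_BP) (hPB : S_PB) (hPO : S_PO) (hHT : S_HT)
    (K : Type) [Field K] [CompatibleRing K] (p : ℕ) (hp : p.Prime) [CharP K p] (n : ℕ)
    (hK : NIPnField n K) (P : Place K) (D : ℕ) (hD : ¬ DimLeOneUpTo P.F D) :
    ∃ O : ValuationSubring K, IsRingOf P O ∧ O ≠ ⊤ ∧ HenselianLocalRing O := by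
  have hP : ∀ a b : P.F, ‖a + b‖ ≤ max ‖a‖ ‖b‖ := fun a b => ultrametric hp P a b
  have : Fact p.Prime := ⟨hp⟩
  obtain ⟨O, hO, hO1, hO2⟩ := hPO K P hP
  obtain ⟨δ, U, hδ0, hδ1, h1, ⟨hδ, hδ2⟩, h2, h3⟩ := place_nbhd hTK hFO hBP hPB K
    (Or.inr (Or.inl ⟨n, hK⟩)) P hP O hO D hD
  exact ⟨O, hO, hO1, hHT K p (infinite_of_ne_top hO1) n hK O δ U hδ0 hδ1 h1 h2
    (fun x hx => (h3 x hx).le) (hO2 δ hδ hδ2)⟩

/-- Stable fields have no definable neighbourhoods. -/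
theorem not_nbhd_of_stable {K : Type} [Field K] [CompatibleRing K]
    (hK : ∀ (m k : ℕ) (φ : FirstOrder.Language.ring.Formula (Fin m ⊕ Fin k)),
      ¬ ∀ n : ℕ, ∃ (a : Fin n → Fin m → K) (b : Fin n → Fin k → K),
        ∀ i j : Fin n, (φ.Realize (Sum.elim (a i) (b j)) ↔ i < j))
    (O : ValuationSubring K) (δ : K) (U : Set K) (hδ0 : δ ≠ 0) (hδ1 : O.valuation δ < 1)
    (hU : DfS U) (h2 : ∀ x, O.valuation x ≤ O.valuation δ → x ∈ U)
    (h3 : ∀ x ∈ U, O.valuation x * O.valuation δ < 1) : False := by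
  obtain ⟨p, ψ, c, hψ⟩ := hU
  let f : Fin 1 ⊕ Fin p → FirstOrder.Language.ring.Term (Fin 1 ⊕ Fin (1 + p)) :=
    Sum.elim (fun _ => Term.var (Sum.inl 0) * Term.var (Sum.inr (Fin.castAdd p 0)))
      (fun j => Term.var (Sum.inr (Fin.natAdd 1 j)))
  let θ : FirstOrder.Language.ring.Formula (Fin 1 ⊕ Fin (1 + p)) :=
    BoundedFormula.not (BoundedFormula.subst ψ f)
  refine hK 1 (1 + p) θ fun n => ?_
  refine ⟨fun i _ => δ ^ (3 * (i : ℕ)), fun j => Fin.append (fun _ => (δ⁻¹) ^ (3 * (j : ℕ)) * δ) c,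
    fun i j => ?_⟩
  have h1 : Formula.Realize θ
      (Sum.elim (fun _ => δ ^ (3 * (i : ℕ)))
        (Fin.append (fun _ => (δ⁻¹) ^ (3 * (j : ℕ)) * δ) c)) ↔
      ¬ (δ ^ (3 * (i : ℕ)) * ((δ⁻¹) ^ (3 * (j : ℕ)) * δ) ∈ U) := by
    rw [hψ]
    unfold Formula.Realize
    simp only [θ]
    rw [BoundedFormula.realize_not, BoundedFormula.realize_subst]
    have h2 : (fun a => (f a).realize (Sum.elim (fun _ => δ ^ (3 * (i : ℕ)))
        (Fin.append (fun _ => (δ⁻¹) ^ (3 * (j : ℕ)) * δ) c) : Fin 1 ⊕ Fin (1 + p) → K)) =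
        Sum.elim (fun _ => δ ^ (3 * (i : ℕ)) * ((δ⁻¹) ^ (3 * (j : ℕ)) * δ)) c := by
      funext a
      rcases a with a | a
      · simp only [f, Sum.elim_inl, realize_mul, Term.realize_var, Sum.elim_inr,
          Fin.append_left]
      · simp only [f, Sum.elim_inr, Term.realize_var, Fin.append_right]
    rw [h2]
  rw [h1]
  have hv0 : O.valuation δ ≠ 0 := (Valuation.ne_zero_iff _).2 hδ0
  constructor
  · intro h4
    by_contra h5
    rw [Fin.lt_def, not_lt] at h5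
    apply h4
    apply h2
    obtain ⟨k, hk⟩ := Nat.exists_eq_add_of_le h5
    have h6 : δ ^ (3 * (i : ℕ)) * ((δ⁻¹) ^ (3 * (j : ℕ)) * δ) = δ ^ (3 * k) * δ := by
      rw [hk, mul_add, pow_add, inv_pow]
      field_simp
    rw [h6, map_mul, map_pow]
    exact mul_le_of_le_one_left' (pow_le_one' hδ1.le _)
  · intro h4 h5
    rw [Fin.lt_def] at h4
    obtain ⟨k, hk⟩ := Nat.exists_eq_add_of_lt h4
    have h6 : δ ^ (3 * (i : ℕ)) * ((δ⁻¹) ^ (3 * (j : ℕ)) * δ) * δ = (δ⁻¹) ^ (3 * k + 1) := by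
      rw [hk, inv_pow, inv_pow]
      have : δ ^ (3 * ((i : ℕ) + k + 1)) = δ ^ (3 * (i : ℕ)) * δ ^ (3 * k + 1) * δ * δ := by ring
      rw [this]
      field_simp
    have h7 := h3 _ h5
    rw [← map_mul, h6, map_pow, map_inv₀] at h7
    exact absurd h7 (not_lt.2 (one_le_pow_of_one_le' ((one_le_inv₀ (zero_lt_iff.2 hv0)).2 hδ1.le) _))

end Pool.Agent.N616.NV
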