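import Pool.Agent.N616.NV.Stm
import Pool.Agent.R492.DV.F1

set_option autoImplicit false

/-!
# Project NV, task OF (helper607): orderings are first order in the interval `[-1/2, 1/2]`
-/

namespace Pool.Agent.N616.NV

namespace OF_

open FirstOrder FirstOrder.Language FirstOrder.Ring
open Pool.Agent.R492.DV Pool.Agent.R492.DV.F1

/-- the set which is the set of nonnegative elements, if `Q` is the interval `[-1/2, 1/2]` -/
def CC {K : Type} [Field K] (Q : Set K) (x : K) : Prop :=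
  ∃ h y : K, (1 + 1) * h = 1 ∧ (x + -h ∈ Q ∨ (x * y = 1 ∧ y + -h ∈ Q))

/-- the first-order property -/
structure OP {K : Type} [Field K] (Q : Set K) : Prop where
  half : ∃ h : K, (1 + 1) * h = 1
  add : ∀ x y z : K, z = x + y → CC Q x → CC Q y → CC Q z
  mul : ∀ x y z : K, z = x * y → CC Q x → CC Q y → CC Q z
  tot : ∀ x y : K, y = -x → CC Q x ∨ CC Q y
  anti : ∀ x y : K, y = -x → CC Q x → CC Q y → x = 0
  int : ∀ x h a b : K, (1 + 1) * h = 1 → a = h + -x → b = h + x →
    (x ∈ Q ↔ CC Q a ∧ CC Q b)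

/-! ### The formulas -/

/-- the formula for `CC` -/
def inC {n : ℕ} (i : Fin n) : BF n :=
  ∃' ∃' (eqF (n := n + 2) ((1 + 1) * F1.var (Fin.last n).castSucc) 1 ⊓
    (inP (n := n + 2) (F1.var i.castSucc.castSucc + -F1.var (Fin.last n).castSucc) ⊔
      (eqF (n := n + 2) (F1.var i.castSucc.castSucc * F1.var (Fin.last (n + 1))) 1 ⊓
        inP (n := n + 2) (F1.var (Fin.last (n + 1)) + -F1.var (Fin.last n).castSucc))))

def s1 : BF 0 := ∃' (eqF (n := 1) ((1 + 1) * F1.var 0) 1)
def s2 : BF 0 := ∀' ∀' ∀' ((eqF (n := 3) (F1.var 2) (F1.var 0 + F1.var 1)).imp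
  ((inC (n := 3) 0).imp ((inC (n := 3) 1).imp (inC (n := 3) 2))))
def s3 : BF 0 := ∀' ∀' ∀' ((eqF (n := 3) (F1.var 2) (F1.var 0 * F1.var 1)).imp
  ((inC (n := 3) 0).imp ((inC (n := 3) 1).imp (inC (n := 3) 2))))
def s4 : BF 0 := ∀' ∀' ((eqF (n := 2) (F1.var 1) (-F1.var 0)).imp
  (inC (n := 2) 0 ⊔ inC (n := 2) 1))
def s5 : BF 0 := ∀' ∀' ((eqF (n := 2) (F1.var 1) (-F1.var 0)).imp
  ((inC (n := 2) 0).imp ((inC (n := 2) 1).imp (eqF (n := 2) (F1.var 0) 0))))
def s6 : BF 0 := ∀' ∀' ∀' ∀' ((eqF (n := 4) ((1 + 1) * F1.var 1) 1).imp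
  ((eqF (n := 4) (F1.var 2) (F1.var 1 + -F1.var 0)).imp
    ((eqF (n := 4) (F1.var 3) (F1.var 1 + F1.var 0)).imp
      ((inP (n := 4) (F1.var 0)).iff (inC (n := 4) 2 ⊓ inC (n := 4) 3)))))

/-- the sentence -/
def sOP : BF 0 := s1 ⊓ (s2 ⊓ (s3 ⊓ (s4 ⊓ (s5 ⊓ s6))))

section

variable {K : Type} [Field K] [CompatibleRing K]

theorem realize_inC (Q : Fin 1 → Set K) {n : ℕ} (i : Fin n) (v : Empty → K) (xs : Fin n → K) :
    (letI := ul Q; (inC i).Realize v xs) ↔ CC (Q 0) (xs i) := by
  let _ := ul Q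
  show (inC i).Realize v xs ↔ _
  have hE : ∀ {n : ℕ} (t₁ t₂ : RT n) (v : Empty → K) (xs : Fin n → K),
      (eqF t₁ t₂).Realize v xs ↔
      t₁.realize (Sum.elim v xs) = t₂.realize (Sum.elim v xs) := realize_eqF Q
  have hP : ∀ {n : ℕ} (t : RT n) (v : Empty → K) (xs : Fin n → K),
      (inP t).Realize v xs ↔ t.realize (Sum.elim v xs) ∈ Q 0 := realize_inP Q
  simp only [inC, BoundedFormula.realize_ex, BoundedFormula.realize_inf,
    BoundedFormula.realize_sup, hP, hE, realize_mul, realize_add, realize_neg, realize_var',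
    realize_one, Fin.snoc_castSucc, Fin.snoc_last]
  exact Iff.rfl

theorem realize_sOP (Q : Fin 1 → Set K) (v : Empty → K) (xs : Fin 0 → K) :
    (letI := ul Q; sOP.Realize v xs) ↔ OP (Q 0) := by
  let _ := ul Q
  show sOP.Realize v xs ↔ _
  have hE : ∀ {n : ℕ} (t₁ t₂ : RT n) (v : Empty → K) (xs : Fin n → K),
      (eqF t₁ t₂).Realize v xs ↔
      t₁.realize (Sum.elim v xs) = t₂.realize (Sum.elim v xs) := realize_eqF Q
  have hP : ∀ {n : ℕ} (t : RT n) (v : Empty → K) (xs : Fin n → K),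
      (inP t).Realize v xs ↔ t.realize (Sum.elim v xs) ∈ Q 0 := realize_inP Q
  have hC : ∀ {n : ℕ} (i : Fin n) (v : Empty → K) (xs : Fin n → K),
      (inC i).Realize v xs ↔ CC (Q 0) (xs i) := realize_inC Q
  have h1 : s1.Realize v xs ↔ ∃ h : K, (1 + 1) * h = 1 := by
    simp only [s1, BoundedFormula.realize_ex, hE, realize_mul, realize_add, realize_var',
      realize_one]
    exact Iff.rfl
  have h2 : s2.Realize v xs ↔ ∀ x y z : K, z = x + y → CC (Q 0) x → CC (Q 0) y → CC (Q 0) z := by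
    simp only [s2, BoundedFormula.realize_all, BoundedFormula.realize_imp, hE, hC, realize_add,
      realize_var']
    exact Iff.rfl
  have h3 : s3.Realize v xs ↔ ∀ x y z : K, z = x * y → CC (Q 0) x → CC (Q 0) y → CC (Q 0) z := by
    simp only [s3, BoundedFormula.realize_all, BoundedFormula.realize_imp, hE, hC, realize_mul,
      realize_var']
    exact Iff.rfl
  have h4 : s4.Realize v xs ↔ ∀ x y : K, y = -x → CC (Q 0) x ∨ CC (Q 0) y := by
    simp only [s4, BoundedFormula.realize_all, BoundedFormula.realize_imp,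
      BoundedFormula.realize_sup, hE, hC, realize_neg, realize_var']
    exact Iff.rfl
  have h5 : s5.Realize v xs ↔ ∀ x y : K, y = -x → CC (Q 0) x → CC (Q 0) y → x = 0 := by
    simp only [s5, BoundedFormula.realize_all, BoundedFormula.realize_imp, hE, hC, realize_neg,
      realize_var', realize_zero]
    exact Iff.rfl
  have h6 : s6.Realize v xs ↔ ∀ x h a b : K, (1 + 1) * h = 1 → a = h + -x → b = h + x →
      (x ∈ Q 0 ↔ CC (Q 0) a ∧ CC (Q 0) b) := by
    simp only [s6, BoundedFormula.realize_all, BoundedFormula.realize_imp,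
      BoundedFormula.realize_iff, BoundedFormula.realize_inf, hE, hC, hP, realize_neg,
      realize_add, realize_mul, realize_one, realize_var']
    exact Iff.rfl
  simp only [sOP, BoundedFormula.realize_inf, h1, h2, h3, h4, h5, h6]
  exact ⟨fun h => ⟨h.1, h.2.1, h.2.2.1, h.2.2.2.1, h.2.2.2.2.1, h.2.2.2.2.2⟩,
    fun h => ⟨h.half, h.add, h.mul, h.tot, h.anti, h.int⟩⟩

theorem transfer {K' : Type} [Field K'] [CompatibleRing K'] {P : Set K} {Q : Set K'}
    (hP : OP P) (hS : Same FirstOrder.Language.ring (fun _ : Fin 1 => P) (fun _ : Fin 1 => Q)) :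
    OP Q := by
  have h := (@elementarilyEquivalent_iff _ K K' (@sumStructure _ _ K _ (ul fun _ : Fin 1 => P))
    (@sumStructure _ _ K' _ (ul fun _ : Fin 1 => Q))).1 hS sOP
  have h1 := realize_sOP (fun _ : Fin 1 => P) default default
  have h2 := realize_sOP (fun _ : Fin 1 => Q) default default
  exact h2.1 (h.1 (h1.2 hP))

end

/-! ### The ordered field -/

section

variable {K : Type} [Field K] [LinearOrder K] [IsStrictOrderedRing K]

theorem half_eq {h : K} (hh : (1 + 1) * h = 1) : h = 1 / 2 := by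
  have h2 : (2 : K) ≠ 0 := two_ne_zero
  rw [eq_div_iff h2]
  linear_combination hh

theorem CC_iff (x : K) : CC {x : K | |x| ≤ 1 / 2} x ↔ 0 ≤ x := by
  constructor
  · rintro ⟨h, y, hh, hx | ⟨hxy, hy⟩⟩
    · rw [half_eq hh, Set.mem_setOf_eq, abs_le] at hx
      linarith [hx.1]
    · rw [half_eq hh, Set.mem_setOf_eq, abs_le] at hy
      have hy0 : 0 ≤ y := by linarith [hy.1]
      by_contra hx
      push Not at hx
      have := mul_nonpos_of_nonpos_of_nonneg hx.le hy0
      rw [hxy] at this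
      exact absurd this (not_le.2 one_pos)
  · intro hx
    rcases le_or_gt x 1 with h1 | h1
    · refine ⟨1 / 2, 0, by norm_num, Or.inl ?_⟩
      rw [Set.mem_setOf_eq, abs_le]
      constructor <;> linarith
    · refine ⟨1 / 2, x⁻¹, by norm_num, Or.inr ⟨mul_inv_cancel₀ (by linarith), ?_⟩⟩
      have h3 : 0 < x⁻¹ := inv_pos.2 (by linarith)
      have h4 : x⁻¹ ≤ 1 := inv_le_one_of_one_le₀ h1.le
      rw [Set.mem_setOf_eq, abs_le]
      constructor <;> linarith

theorem OP_of : OP {x : K | |x| ≤ 1 / 2} where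
  half := ⟨1 / 2, by norm_num⟩
  add x y z hz hx hy := by
    rw [CC_iff] at *
    rw [hz]; exact add_nonneg hx hy
  mul x y z hz hx hy := by
    rw [CC_iff] at *
    rw [hz]; exact mul_nonneg hx hy
  tot x y hy := by
    rw [CC_iff, CC_iff, hy, neg_nonneg]
    exact le_total 0 x
  anti x y hy h1 h2 := by
    rw [CC_iff] at *
    rw [hy, neg_nonneg] at h2
    exact le_antisymm h2 h1
  int x h a b hh ha hb := by
    rw [CC_iff, CC_iff, ha, hb, half_eq hh, Set.mem_setOf_eq, abs_le]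
    constructor
    · rintro ⟨h1, h2⟩
      constructor <;> linarith
    · rintro ⟨h1, h2⟩
      constructor <;> linarith

end

/-! ### The order on the other field -/

section

variable {K : Type} [Field K] {Q : Set K}

theorem CC_zero (hQ : OP Q) : CC Q 0 := by
  rcases hQ.tot 0 0 (by simp) with h | h <;> exact h

theorem CC_one (hQ : OP Q) : CC Q 1 := by
  rcases hQ.tot 1 (-1) rfl with h | h
  · exact h
  · exact hQ.mul (-1) (-1) 1 (by ring) h h

/-- the order -/
@[reducible] noncomputable def lo (hQ : OP Q) : LinearOrder K where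
  le x y := CC Q (y - x)
  le_refl x := by
    show CC Q (x - x)
    rw [sub_self]
    exact CC_zero hQ
  le_trans x y z h1 h2 := hQ.add (y - x) (z - y) (z - x) (by ring) h1 h2
  le_antisymm x y h1 h2 := by
    have := hQ.anti (y - x) (x - y) (by ring) h1 h2
    exact (sub_eq_zero.1 this).symm
  le_total x y := hQ.tot (y - x) (x - y) (by ring)
  toDecidableLE := Classical.decRel _

theorem isor (hQ : OP Q) : @IsStrictOrderedRing K _ (lo hQ).toPartialOrder := by
  letI := lo hQ
  have hle : ∀ x y : K, x ≤ y ↔ CC Q (y - x) := fun x y => Iff.rfl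
  haveI : IsOrderedAddMonoid K := by
    refine { add_le_add_left := ?_ }
    intro a b h c
    rw [hle] at *
    have e : b + c - (a + c) = b - a := by ring
    rw [e]
    exact h
  haveI : ZeroLEOneClass K := ⟨by rw [hle, sub_zero]; exact CC_one hQ⟩
  refine IsStrictOrderedRing.of_mul_pos ?_
  intro a b ha hb
  refine lt_of_le_of_ne ?_ (mul_ne_zero ha.ne' hb.ne').symm
  have h1 := ha.le
  have h2 := hb.le
  rw [hle, sub_zero] at *
  exact hQ.mul a b _ rfl h1 h2

theorem exists_order (hQ : OP Q) :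
    ∃ (_ : LinearOrder K) (_ : IsStrictOrderedRing K), ∀ x, x ∈ Q ↔ |x| ≤ 1 / 2 := by
  refine ⟨lo hQ, isor hQ, ?_⟩
  letI := lo hQ
  haveI := isor hQ
  have hle : ∀ x y : K, x ≤ y ↔ CC Q (y - x) := fun x y => Iff.rfl
  intro x
  rw [hQ.int x (1 / 2) (1 / 2 + -x) (1 / 2 + x) (by norm_num) rfl rfl, abs_le, hle, hle]
  have e1 : x - -(1 / 2) = 1 / 2 + x := by ring
  have e2 : 1 / 2 - x = 1 / 2 + -x := by ring
  rw [e1, e2]
  exact and_comm

end

end OF_

/-- **OF.** -/
theorem OF : S_OF := by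
  intro K _ _ _ _ K' _ _ Q hS
  exact OF_.exists_order (OF_.transfer OF_.OP_of hS)

end Pool.Agent.N616.NV
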