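import Pool.Agent.N616.NV.Stm

set_option autoImplicit false

/-! Project NV (subtask 4546, helper368): the real place of an ordering. -/

namespace Pool.Agent.N616.NV

open Pool.Agent.W882.Nip3

namespace OP_

variable {K : Type} [Field K] [LinearOrder K] [IsStrictOrderedRing K]

/-- The ring of the finite elements. -/
noncomputable def Ofin (K : Type) [Field K] [LinearOrder K] [IsStrictOrderedRing K] :
    ValuationSubring K :=
  (ArchimedeanClass.addValuation K).toValuation.valuationSubring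

theorem mem_Ofin {x : K} : x ∈ Ofin K ↔ 0 ≤ ArchimedeanClass.mk x := Iff.rfl

/-- The standard part. -/
noncomputable def rs : Ofin K →+* ℝ where
  toFun x := ArchimedeanClass.stdPart (x : K)
  map_one' := ArchimedeanClass.stdPart_one
  map_zero' := ArchimedeanClass.stdPart_zero
  map_add' x y := ArchimedeanClass.stdPart_add (mem_Ofin.1 x.2) (mem_Ofin.1 y.2)
  map_mul' x y := ArchimedeanClass.stdPart_mul (mem_Ofin.1 x.2) (mem_Ofin.1 y.2)

theorem rs_apply (x : Ofin K) : rs x = ArchimedeanClass.stdPart (x : K) := rfl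

theorem isUnit_rs (x : Ofin K) (hx : rs x ≠ 0) : IsUnit x := by
  rw [rs_apply] at hx
  have h1 : ArchimedeanClass.mk (x : K) = 0 := by
    by_contra h
    exact hx (ArchimedeanClass.stdPart_of_mk_ne_zero h)
  have h2 : (x : K) ≠ 0 := by
    rintro h
    rw [h, ArchimedeanClass.stdPart_zero] at hx
    exact hx rfl
  have h3 : (x : K)⁻¹ ∈ Ofin K := by
    rw [mem_Ofin, ArchimedeanClass.mk_inv, h1]
    simp
  refine ⟨⟨x, ⟨(x : K)⁻¹, h3⟩, ?_, ?_⟩, rfl⟩
  · exact Subtype.ext (mul_inv_cancel₀ h2)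
  · exact Subtype.ext (inv_mul_cancel₀ h2)

theorem dense_rs : DenseRange (rs (K := K)) := by
  refine Dense.mono ?_ (Rat.denseRange_cast (𝕜 := ℝ))
  rintro _ ⟨q, rfl⟩
  exact ⟨⟨(q : K), ArchimedeanClass.mk_ratCast_nonneg q⟩, ArchimedeanClass.stdPart_ratCast q⟩

/-- The place of an ordering. -/
noncomputable def pl (K : Type) [Field K] [LinearOrder K] [IsStrictOrderedRing K] : Place K where
  O := Ofin K
  F := ℝ
  normedField := inferInstance
  complete := inferInstance
  res := rs
  isUnit_of_res_ne_zero := isUnit_rs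
  denseRange := dense_rs

theorem small_pl (x : K) (hx : |x| ≤ 1 / 2) : (pl K).Small x := by
  have h0 : (0 : ArchimedeanClass K) ≤ ArchimedeanClass.mk x := by
    rw [← ArchimedeanClass.mk_one, ArchimedeanClass.mk_le_mk]
    refine ⟨1, ?_⟩
    rw [one_smul, abs_one]
    linarith
  refine ⟨h0, ?_⟩
  show ‖ArchimedeanClass.stdPart x‖ < 1
  obtain ⟨h1, h2⟩ := abs_le.1 hx
  have hq : ∀ q : ℚ, (0 : ArchimedeanClass K) ≤ ArchimedeanClass.mk (q : K) :=
    fun q => ArchimedeanClass.mk_ratCast_nonneg q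
  have h3 : ArchimedeanClass.stdPart x ≤ ((1 / 2 : ℚ) : ℝ) := by
    rw [← ArchimedeanClass.stdPart_ratCast (K := K)]
    refine ArchimedeanClass.stdPart_monotoneOn h0 (hq _) ?_
    push_cast
    exact h2
  have h4 : ((-(1 / 2) : ℚ) : ℝ) ≤ ArchimedeanClass.stdPart x := by
    rw [← ArchimedeanClass.stdPart_ratCast (K := K)]
    refine ArchimedeanClass.stdPart_monotoneOn (hq _) h0 ?_
    push_cast
    exact h1
  push_cast at h3 h4
  rw [Real.norm_eq_abs, abs_lt]
  constructor <;> linarith

theorem real_not_dimLe : ¬ DimLeOneUpTo ℝ 2 := by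
  intro H
  have h1 := H ℝ inferInstance inferInstance (by rw [Module.finrank_self]; omega) ℂ inferInstance
    inferInstance (by rw [Complex.finrank_real_complex])
  obtain ⟨z, hz⟩ := h1 (-1)
  rw [Algebra.norm_complex_apply] at hz
  have h2 := Complex.normSq_nonneg z
  linarith

theorem dimLe_mono {F : Type} [Field F] {D E : ℕ} (h : D ≤ E) (hE : DimLeOneUpTo F E) :
    DimLeOneUpTo F D := by
  intro M _ _ h1 h2 h3 L _ _ h4 h5 h6
  exact hE M h1 h2 (h3.trans h) L h4 h5 (h6.trans h)

end OP_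

open OP_ in
/-- The place of an ordering. -/
theorem OP : S_OP := by
  intro K _ _ _
  exact ⟨pl K, small_pl, fun D hD h => real_not_dimLe (dimLe_mono hD h)⟩

end Pool.Agent.N616.NV
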