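import Pool.Agent.R492.DV.Stm
import Pool.Agent.N616.NH.Stm
import Pool.Agent.W882.Nip3.ForE
import Pool.Agent.W882.Nip3.Places

set_option autoImplicit false

/-!
# Project NV: statements of the pieces

Places of dimension greater than one of NIP fields have definable topologies, and are henselian in
positive characteristic.
-/

namespace Pool.Agent.N616.NV

open FirstOrder FirstOrder.Language Polynomial Pool.Agent.W882.Nip3 Pool.Agent.R492.DV
  Pool.Agent.N616.NH

/-! ## Model theory -/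

/-- TK1: a variant of `K1Stm` (starting library `R492/DV/K1.lean`): if `P` cannot be separated from
its image under the relation `ρ` by a definable set, then some elementary extension has elements
`b ∈ P'` and `c` with `ρ (c, c')` for some `c' ∈ P'`, which have the same type over given
parameters. -/
def S_TK1 : Prop :=
  ∀ (L : FirstOrder.Language.{0, 0}) (ρ : L.Formula (Fin 2)) (m : ℕ) (M : Type) [L.Structure M]
    [Nonempty M] (Q : Fin m → Set M) (i₀ : Fin m),
    (¬ ∃ (p : ℕ) (ψ : L.Formula (Fin 1 ⊕ Fin p)) (c : Fin p → M),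
      (∀ x ∈ Q i₀, ψ.Realize (Sum.elim (fun _ => x) c)) ∧
      ∀ x, ∀ y ∈ Q i₀, ρ.Realize ![x, y] → ¬ ψ.Realize (Sum.elim (fun _ => x) c)) →
    ∀ (k : ℕ) (a : Fin k → M),
      ∃ (M' : Type) (_ : L.Structure M') (Q' : Fin m → Set M') (e : M → M') (b c c' : M'),
        ElemMap2 L (UL m) (ul Q) (ul Q') e ∧ b ∈ Q' i₀ ∧ c' ∈ Q' i₀ ∧ ρ.Realize ![c, c'] ∧
        ∀ φ : L.Formula (Fin 1 ⊕ Fin k), φ.Realize (Sum.elim (fun _ => b) (e ∘ a)) ↔
          φ.Realize (Sum.elim (fun _ => c) (e ∘ a))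

/-- TK: a variant of Kueker's theorem `KStm` (starting library `R492/DV/K2.lean`) for a symmetric
relation `ρ`. -/
def S_TK : Prop :=
  ∀ (L : FirstOrder.Language.{0, 0}) (ρ : L.Formula (Fin 2)),
    (∀ (M : Type) [L.Structure M] (x y : M), ρ.Realize ![x, y] → ρ.Realize ![y, x]) →
    ∀ (M : Type) [L.Structure M] [Nonempty M] (P : Set M) (N : ℕ),
      (∀ (M' : Type) [L.Structure M'] [Nonempty M'] (Q : Fin N → Set M'),
        (∀ i, Same L (fun _ : Fin 1 => P) (fun _ : Fin 1 => Q i)) →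
        ∃ i j, i ≠ j ∧ ∀ x ∈ Q i, ∀ y ∈ Q j, ¬ ρ.Realize ![x, y]) →
      ∃ (p : ℕ) (ψ : L.Formula (Fin 1 ⊕ Fin p)) (c : Fin p → M),
        (∀ x ∈ P, ψ.Realize (Sum.elim (fun _ => x) c)) ∧
        ∀ x, ∀ y ∈ P, ρ.Realize ![x, y] → ¬ ψ.Realize (Sum.elim (fun _ => x) c)

/-! ## Bad valuation rings -/

/-- The norm of the derivative of the monic polynomial with the lower coefficients `g`. -/
noncomputable def disc1 {R : Type} [CommRing R] [Nontrivial R] (d : ℕ) (g : Fin d → R) : R :=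
  nrmElt d g (fun k => if h : (k : ℕ) + 1 < d then (((k : ℕ) + 1 : ℕ) : R) * g ⟨(k : ℕ) + 1, h⟩
    else (d : R))

/-- `O` is bad at the scale `δ`: there are monic polynomials `g` over `O` of degree `e + 1` and `h`
over `O[X]/(g)` of degree `d`, with discriminants not smaller than `δ`, and an element `ξ` of
`O[X]/(g)` such that no element of `K[X]/(g)` congruent to `ξ` modulo `δ` is a norm from
`(K[X]/(g))[Y]/(h)`. -/
structure BadAt {K : Type} [Field K] (O : ValuationSubring K) (δ : K) (e d : ℕ) : Prop where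
  ne : δ ≠ 0
  lt : O.valuation δ < 1
  ex : ∃ (g : Fin (e+1) → K) (h : Fin d → Fin (e+1) → K) (ξ : Fin (e+1) → K),
    (∀ k, g k ∈ O) ∧ (∀ j k, h j k ∈ O) ∧ (∀ k, ξ k ∈ O) ∧
    O.valuation δ ≤ O.valuation (disc1 (e+1) g) ∧
    O.valuation δ ≤ O.valuation (Algebra.norm K (disc1 d fun j => elt g (h j))) ∧
    ∀ z : Fin d → Fin (e+1) → K, ∃ k : Fin (e+1),
      O.valuation δ < O.valuation ((algBasis (e+1) g).repr
        (nrmElt d (fun j => elt g (h j)) fun j => elt g (z j)) k - ξ k)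

/-- FO: the property `BadAt` is a first-order property of the set `δO`. -/
def S_FO : Prop :=
  ∀ (K : Type) [Field K] [FirstOrder.Ring.CompatibleRing K] (O : ValuationSubring K) (δ : K)
    (e d : ℕ), BadAt O δ e d →
    ∀ (K' : Type) [Field K'] [FirstOrder.Ring.CompatibleRing K'] (Q : Set K'),
      Same FirstOrder.Language.ring (fun _ : Fin 1 => {x : K | O.valuation x ≤ O.valuation δ})
        (fun _ : Fin 1 => Q) →
      ∃ (O' : ValuationSubring K') (δ' : K'), BadAt O' δ' e d ∧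
        ∀ x, x ∈ Q ↔ O'.valuation x ≤ O'.valuation δ'

/-- ET: norms of separable algebras over fields of dimension at most one are surjective. -/
def S_ET : Prop :=
  ∀ (F : Type) [Field F] (D e d : ℕ), DimLeOneUpTo F D → e + 1 ≤ D → d ≤ D → 0 < d →
    ∀ (g : Fin (e+1) → F) (h : Fin d → Alg (e+1) g), disc1 (e+1) g ≠ 0 →
      Algebra.norm F (disc1 d h) ≠ 0 →
      ∀ ξ : Alg (e+1) g, ∃ z : Alg d h, Algebra.norm (Alg (e+1) g) z = ξ

/-- BP: the place at the scale `δ`. -/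
def S_BP : Prop :=
  ∀ (K : Type) [Field K] (O : ValuationSubring K) (δ : K) (e d : ℕ), 0 < d → BadAt O δ e d →
    ∃ P : Place K, (∀ x : K, O.valuation x ≤ O.valuation δ → P.Small x) ∧
      ∀ D, e + 1 ≤ D → d ≤ D → ¬ DimLeOneUpTo P.F D

/-- The ring of a place with a nonarchimedean absolute value. -/
def IsRingOf {K : Type} [Field K] (P : Place K) (O : ValuationSubring K) : Prop :=
  ∀ x : K, x ∈ O ↔ ∃ h : x ∈ P.O, ‖P.res ⟨x, h⟩‖ ≤ 1

/-- PO: the ring of a nonarchimedean place. -/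
def S_PO : Prop :=
  ∀ (K : Type) [Field K] (P : Place K), (∀ a b : P.F, ‖a + b‖ ≤ max ‖a‖ ‖b‖) →
    ∃ O : ValuationSubring K, IsRingOf P O ∧ O ≠ ⊤ ∧
      ∀ (x : K) (h : x ∈ P.O), P.res ⟨x, h⟩ ≠ 0 → ∀ c : K, O.valuation c < 1 → ∃ m : ℕ,
        O.valuation (c ^ m) ≤ O.valuation x

/-- PB: places of dimension greater than one give bad valuation rings. -/
def S_PB : Prop :=
  ∀ (K : Type) [Field K] (P : Place K) (O : ValuationSubring K) (D : ℕ), IsRingOf P O →
    (∀ a b : P.F, ‖a + b‖ ≤ max ‖a‖ ‖b‖) → ¬ DimLeOneUpTo P.F D →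
    ∃ (δ : K) (e d : ℕ), BadAt O δ e d ∧ 0 < d ∧ ∃ h : δ ∈ P.O, P.res ⟨δ, h⟩ ≠ 0

/-! ## Positive characteristic -/

/-- `U` is definable with parameters in the language of rings. -/
def DfS {K : Type} [Field K] [FirstOrder.Ring.CompatibleRing K] (U : Set K) : Prop :=
  ∃ (p : ℕ) (ψ : FirstOrder.Language.ring.Formula (Fin 1 ⊕ Fin p)) (c : Fin p → K),
    ∀ x : K, x ∈ U ↔ ψ.Realize (Sum.elim (fun _ => x) c)

/-- PAT: patterns from the functional of Johnson's argument, with values in `aR`. -/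
def S_PAT : Prop :=
  ∀ (R : Type) [CommRing R] [IsDomain R] (p : ℕ) [Fact p.Prime] [CharP R p]
    [Finite (MaximalSpectrum R)], (∀ x : R, ∃ y : R, y ^ p - y = x) → ∀ a ∈ Jac R,
    (∃ t : R, ¬ ∃ y ∈ Jac R, y ^ p - y = a * t) →
    ∃ X : Finset R, (∀ u ∈ X, a ∣ u) ∧ ∀ N : ℕ, ∃ r : R, ∀ T : Finset (Fin N), ∃ t : R,
      ∀ k : Fin N, (∃ u ∈ X, ∃ y ∈ Jac R, y ^ p - y = r ^ (k : ℕ) * (a * t) - u) ↔ k ∈ T

/-- IDE: approximate idempotents. -/
def S_IDE : Prop :=
  ∀ (R : Type) [CommRing R] [IsDomain R] (p : ℕ) [Fact p.Prime] [CharP R p] (e a : R),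
    e ^ 2 - e ∈ Jac R → e ∉ Jac R → 1 - e ∉ Jac R → (∀ x ∈ Jac R, ∃ m : ℕ, a ∣ x ^ m) →
    ∃ t : R, ¬ ∃ y ∈ Jac R, y ^ p - y = a * t

/-- VD: definable approximations of the integral closure. -/
def S_VD : Prop :=
  ∀ (K : Type) [Field K] [FirstOrder.Ring.CompatibleRing K] (O : ValuationSubring K) (δ : K)
    (U : Set K), δ ≠ 0 → O.valuation δ < 1 → DfS U →
    (∀ x, O.valuation x ≤ O.valuation δ → x ∈ U) →
    (∀ x ∈ U, O.valuation x * O.valuation δ ≤ 1) →
    ∀ (L : Type) [Field L] [Algebra K L] [FiniteDimensional K L],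
      ∃ V : Set L, DfL K L {v : Fin 1 → L | v 0 ∈ V} ∧ (∀ z ∈ RI O L, z ∈ V) ∧
        ∀ z ∈ V, algebraMap K L (δ ^ 2) * z ∈ RI O L

/-- JM: powers of the elements of the Jacobson radical of the integral closure. -/
def S_JM : Prop :=
  ∀ (K : Type) [Field K] (O : ValuationSubring K) (δ : K),
    (∀ c : K, O.valuation c < 1 → ∃ m : ℕ, O.valuation (c ^ m) ≤ O.valuation δ) →
    ∀ (L : Type) [Field L] [Algebra K L] [FiniteDimensional K L], ∀ x ∈ Jac (RI O L),
      ∃ (m : ℕ) (t : RI O L), (x : L) ^ m = algebraMap K L δ * t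

/-- HT: Johnson's theorem for definable neighbourhoods. -/
def S_HT : Prop :=
  ∀ (K : Type) [Field K] [FirstOrder.Ring.CompatibleRing K] (p : ℕ) [Fact p.Prime] [CharP K p],
    Infinite K → ∀ n : ℕ, NIPnField n K → ∀ (O : ValuationSubring K) (δ : K) (U : Set K),
      δ ≠ 0 → O.valuation δ < 1 → DfS U →
      (∀ x, O.valuation x ≤ O.valuation δ → x ∈ U) →
      (∀ x ∈ U, O.valuation x * O.valuation δ ≤ 1) →
      (∀ c : K, O.valuation c < 1 → ∃ m : ℕ, O.valuation (c ^ m) ≤ O.valuation δ) →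
      HenselianLocalRing O

/-! ## Orderings -/

/-- OP: the place of an ordering. -/
def S_OP : Prop :=
  ∀ (K : Type) [Field K] [LinearOrder K] [IsStrictOrderedRing K],
    ∃ P : Place K, (∀ x : K, |x| ≤ 1 / 2 → P.Small x) ∧ ∀ D, 2 ≤ D → ¬ DimLeOneUpTo P.F D

/-- OF: orderings are determined by the interval `[-1/2, 1/2]`, in a first-order way. -/
def S_OF : Prop :=
  ∀ (K : Type) [Field K] [LinearOrder K] [IsStrictOrderedRing K]
    [FirstOrder.Ring.CompatibleRing K] (K' : Type) [Field K'] [FirstOrder.Ring.CompatibleRing K']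
    (Q : Set K'),
      Same FirstOrder.Language.ring (fun _ : Fin 1 => {x : K | |x| ≤ 1 / 2}) (fun _ : Fin 1 => Q) →
      ∃ (_ : LinearOrder K') (_ : IsStrictOrderedRing K'), ∀ x, x ∈ Q ↔ |x| ≤ 1 / 2

end Pool.Agent.N616.NV
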