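import Pool.Agent.N616.NH.NP2
import Pool.Agent.N616.NV.Stm

set_option autoImplicit false

/-!
# Project NV: patterns from the functional of Johnson's argument, with values in `aR`
-/

namespace Pool.Agent.N616.NV

open Pool.Agent.N616.NH Pool.Agent.N616.NH.JOH_

namespace PAT_

section alg

variable {R : Type} [CommRing R] (p : ℕ) [hp : Fact p.Prime] [CharP R p]

/-- a functional -/
theorem exists_functional [IsDomain R] [Finite (MaximalSpectrum R)]
    (hs : Function.Surjective (wp p : R →+ R)) {a : R} (ha : a ∈ Jac R) (t₀ : R)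
    (ht₀ : a * t₀ ∉ WJ R p) :
    ∃ lam : JJ R →+ ZMod p, lam ⟨a * t₀, Ideal.mul_mem_right _ _ ha⟩ ≠ 0 ∧
      ∃ X : Finset R, (∀ u ∈ X, a ∣ u) ∧
        ∀ z : JJ R, a ∣ (z : R) → (lam z = 0 ↔ ∃ u ∈ X, (z : R) - u ∈ WJ R p) := by
  classical
  let W : AddSubgroup (JJ R) := (WJ R p).addSubgroupOf (JJ R)
  have hfi : W.FiniteIndex := ⟨relW p hs⟩
  let Q := JJ R ⧸ W
  have hfin : Finite Q := AddSubgroup.finite_quotient_of_finiteIndex
  have hpQ : ∀ x : Q, p • x = 0 := by
    intro x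
    obtain ⟨z, rfl⟩ := QuotientAddGroup.mk_surjective x
    rw [← QuotientAddGroup.mk_nsmul]
    have : p • z = 0 := Subtype.ext (by
      show p • (z : R) = 0
      rw [nsmul_eq_mul, CharP.cast_eq_zero, zero_mul])
    rw [this]
    rfl
  let x₀ : JJ R := ⟨a * t₀, Ideal.mul_mem_right _ _ ha⟩
  have hx₀ : (QuotientAddGroup.mk x₀ : Q) ≠ 0 := by
    intro h
    rw [QuotientAddGroup.eq_zero_iff] at h
    exact ht₀ h
  obtain ⟨f, hf⟩ := NP_.exists_hom Q p hpQ _ hx₀
  let lam : JJ R →+ ZMod p := f.comp (QuotientAddGroup.mk' W)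
  refine ⟨lam, hf, ?_⟩
  have hrep : ∀ c : Q, ∃ r : JJ R, a ∣ (r : R) ∧
      ((∃ z : JJ R, a ∣ (z : R) ∧ (QuotientAddGroup.mk z : Q) = c) →
        (QuotientAddGroup.mk r : Q) = c) := by
    intro c
    by_cases h : ∃ z : JJ R, a ∣ (z : R) ∧ (QuotientAddGroup.mk z : Q) = c
    · obtain ⟨z, hz, hzc⟩ := h
      exact ⟨z, hz, fun _ => hzc⟩
    · exact ⟨0, dvd_zero a, fun h' => absurd h' h⟩
  choose rep hrep1 hrep2 using hrep
  have := Fintype.ofFinite Q
  refine ⟨(Finset.univ.filter fun c : Q => f (QuotientAddGroup.mk (rep c) : Q) = 0).image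
    fun c => (rep c : R), ?_, fun z hza => ?_⟩
  · intro u hu
    obtain ⟨c, -, rfl⟩ := Finset.mem_image.1 hu
    exact hrep1 c
  constructor
  · intro hz
    have hz' : f (QuotientAddGroup.mk z : Q) = 0 := hz
    have h2 : (QuotientAddGroup.mk (rep (QuotientAddGroup.mk z : Q)) : Q) = QuotientAddGroup.mk z :=
      hrep2 _ ⟨z, hza, rfl⟩
    refine ⟨rep (QuotientAddGroup.mk z : Q), Finset.mem_image.2
      ⟨QuotientAddGroup.mk z, Finset.mem_filter.2 ⟨Finset.mem_univ _, by rw [h2]; exact hz'⟩, rfl⟩, ?_⟩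
    have h1 : (QuotientAddGroup.mk (z - rep (QuotientAddGroup.mk z : Q)) : Q) = 0 := by
      rw [QuotientAddGroup.mk_sub, h2, sub_self]
    rw [QuotientAddGroup.eq_zero_iff] at h1
    exact h1
  · rintro ⟨u, hu, hzu⟩
    obtain ⟨c, hc, rfl⟩ := Finset.mem_image.1 hu
    have h1 : z - rep c ∈ W := hzu
    have h2 : (QuotientAddGroup.mk z : Q) = QuotientAddGroup.mk (rep c) := by
      rw [← QuotientAddGroup.eq_zero_iff, QuotientAddGroup.mk_sub, sub_eq_zero] at h1
      exact h1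
    show f (QuotientAddGroup.mk z : Q) = 0
    rw [h2]
    exact (Finset.mem_filter.1 hc).2

/-- the independence pattern -/
theorem pattern [IsDomain R] [Finite (MaximalSpectrum R)]
    (hs : Function.Surjective (wp p : R →+ R)) {a : R} (ha : a ∈ Jac R) (t₀ : R)
    (ht₀ : a * t₀ ∉ WJ R p) :
    ∃ X : Finset R, (∀ u ∈ X, a ∣ u) ∧ ∀ N : ℕ, ∃ r : R, ∀ T : Finset (Fin N), ∃ t : R,
      ∀ k : Fin N, (∃ u ∈ X, r ^ (k : ℕ) * (a * t) - u ∈ WJ R p) ↔ k ∈ T := by
  classical
  obtain ⟨lam, hlam, X, hX1, hX⟩ := exists_functional p hs ha t₀ ht₀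
  refine ⟨X, hX1, fun N => ?_⟩
  obtain ⟨r, hr⟩ := NP_.exists_unit_poly p hs N
  refine ⟨r, ?_⟩
  have hmem : ∀ (s : R) (t : R), s * (a * t) ∈ JJ R := fun s t =>
    Ideal.mul_mem_left _ s (Ideal.mul_mem_right _ _ ha)
  let Φ : R →+ (Fin N → ZMod p) :=
    { toFun := fun x k => lam ⟨r ^ (k : ℕ) * (a * x), hmem _ x⟩
      map_zero' := by
        funext k
        have : (⟨r ^ (k : ℕ) * (a * 0), hmem _ 0⟩ : JJ R) = 0 :=
          Subtype.ext (by show r ^ (k : ℕ) * (a * 0) = 0; ring)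
        rw [this, map_zero]
        rfl
      map_add' := by
        intro x y
        funext k
        have : (⟨r ^ (k : ℕ) * (a * (x + y)), hmem _ _⟩ : JJ R) =
            ⟨r ^ (k : ℕ) * (a * x), hmem _ x⟩ + ⟨r ^ (k : ℕ) * (a * y), hmem _ y⟩ :=
          Subtype.ext (by
            show r ^ (k : ℕ) * (a * (x + y)) = r ^ (k : ℕ) * (a * x) + r ^ (k : ℕ) * (a * y)
            ring)
        rw [this, map_add]
        rfl }
  have hsurj : Function.Surjective Φ := by
    by_contra hns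
    have hlt : AddSubgroup.toZModSubmodule p Φ.range < ⊤ := by
      rw [lt_top_iff_ne_top]
      intro h
      apply hns
      intro v
      have : v ∈ AddSubgroup.toZModSubmodule p Φ.range := by
        rw [h]
        trivial
      exact this
    obtain ⟨g, hg0, hg⟩ := Submodule.exists_le_ker_of_lt_top _ hlt
    let b : Fin N → ZMod p := fun k => g (Pi.single k 1)
    have hga : ∀ v, g v = ∑ k, b k * v k := by
      intro v
      conv_lhs => rw [← Finset.univ_sum_single v]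
      rw [map_sum]
      refine Finset.sum_congr rfl fun k _ => ?_
      have : (Pi.single k (v k) : Fin N → ZMod p) = v k • Pi.single k 1 := by
        rw [← Pi.single_smul, smul_eq_mul, mul_one]
      rw [this, map_smul, smul_eq_mul, mul_comm]
    have hb : b ≠ 0 := by
      intro h
      apply hg0
      ext v
      simp only [LinearMap.coe_comp, LinearMap.coe_single, Function.comp_apply, LinearMap.zero_apply]
      exact congrFun h v
    obtain ⟨w, hw⟩ := (hr b hb).exists_right_inv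
    -- evaluate at `w * t₀`
    have h1 : g (Φ (w * t₀)) = 0 := by
      have : Φ (w * t₀) ∈ AddSubgroup.toZModSubmodule p Φ.range := ⟨_, rfl⟩
      exact hg this
    rw [hga] at h1
    apply hlam
    have h2 : (⟨a * t₀, Ideal.mul_mem_right _ _ ha⟩ : JJ R) =
        ∑ k, (b k).val • (⟨r ^ (k : ℕ) * (a * (w * t₀)), hmem _ _⟩ : JJ R) := by
      apply Subtype.ext
      rw [AddSubgroup.val_finsetSum]
      have h3 : ∀ k ∈ (Finset.univ : Finset (Fin N)), (((b k).val •
          (⟨r ^ (k : ℕ) * (a * (w * t₀)), hmem _ _⟩ : JJ R) : JJ R) : R) =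
          ((b k).val : R) * r ^ (k : ℕ) * (w * (a * t₀)) := by
        intro k _
        rw [AddSubgroup.coe_nsmul, nsmul_eq_mul]
        ring
      rw [Finset.sum_congr rfl h3, ← Finset.sum_mul, ← mul_assoc, hw, one_mul]
    rw [h2, map_sum, ← h1]
    refine Finset.sum_congr rfl fun k _ => ?_
    rw [map_nsmul, nsmul_eq_mul, ZMod.natCast_zmod_val]
    rfl
  intro T
  obtain ⟨x, hx⟩ := hsurj (fun k => if k ∈ T then 0 else 1)
  refine ⟨x, fun k => ?_⟩
  have h1 := hX ⟨r ^ (k : ℕ) * (a * x), hmem _ x⟩ (Dvd.dvd.mul_left (dvd_mul_right a x) _)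
  have h2 : lam ⟨r ^ (k : ℕ) * (a * x), hmem _ x⟩ = if k ∈ T then 0 else 1 := congrFun hx k
  rw [h2] at h1
  rw [← h1]
  by_cases hk : k ∈ T
  · simp [hk]
  · simp [hk]

end alg

end PAT_

theorem PAT : S_PAT := by
  intro R _ _ p _ _ _ hsur a ha ht
  obtain ⟨t₀, ht₀⟩ := ht
  have hW : ∀ z : R, z ∈ WJ R p ↔ ∃ y ∈ Jac R, y ^ p - y = z := fun z => Iff.rfl
  obtain ⟨X, h1, h2⟩ := PAT_.pattern p (R := R) hsur ha t₀ (fun h => ht₀ ((hW _).1 h))
  exact ⟨X, h1, h2⟩

end Pool.Agent.N616.NV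

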