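import Pool.Agent.N616.NV.PB1

set_option autoImplicit false

/-!
# Project NV, piece PB: bad valuation rings from places
-/

open Topology Filter Polynomial TensorProduct

namespace Pool.Agent.N616.NV.PB_

open Pool.Agent.W882.Nip3 Pool.Agent.N616.NV

/-! ### the valuation -/

section Val

variable {K : Type} [Field K] (P : Place K) (O : ValuationSubring K)

theorem val_le_iff (hO : IsRingOf P O) {x y : K} (hy : y ∈ P.O) (hy0 : P.res ⟨y, hy⟩ ≠ 0) :
    O.valuation x ≤ O.valuation y ↔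
      ∃ hx : x ∈ P.O, ‖P.res ⟨x, hx⟩‖ ≤ ‖P.res ⟨y, hy⟩‖ := by
  have hyne : y ≠ 0 := by
    rintro rfl
    exact hy0 (map_zero P.res)
  have hyi : y⁻¹ ∈ P.O := by
    obtain ⟨u, hu⟩ := P.isUnit_of_res_ne_zero ⟨y, hy⟩ hy0
    have h1 : ((u : P.O) : K) * ((u⁻¹ : (P.O)ˣ) : P.O) = 1 := by
      have h2 : (u : P.O) * ((u⁻¹ : (P.O)ˣ) : P.O) = 1 := u.mul_inv
      exact congrArg Subtype.val h2
    rw [hu] at h1
    have h3 : (((u⁻¹ : (P.O)ˣ) : P.O) : K) = y⁻¹ := eq_inv_of_mul_eq_one_right h1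
    rw [← h3]
    exact ((u⁻¹ : (P.O)ˣ) : P.O).2
  have hpos : 0 < O.valuation y := by
    rw [zero_lt_iff]
    exact (Valuation.ne_zero_iff _).2 hyne
  have key : O.valuation x ≤ O.valuation y ↔ x / y ∈ O := by
    rw [← O.valuation_le_one_iff, map_div₀, div_le_one₀ hpos]
  rw [key, hO]
  constructor
  · rintro ⟨h1, h2⟩
    have hx : x ∈ P.O := by
      have := P.O.mul_mem _ _ h1 hy
      rwa [div_mul_cancel₀ _ hyne] at this
    refine ⟨hx, ?_⟩
    have e : P.res ⟨x, hx⟩ = P.res ⟨x / y, h1⟩ * P.res ⟨y, hy⟩ := by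
      rw [← map_mul]
      congr 1
      ext
      show x = x / y * y
      rw [div_mul_cancel₀ _ hyne]
    rw [e, norm_mul]
    calc ‖P.res ⟨x / y, h1⟩‖ * ‖P.res ⟨y, hy⟩‖ ≤ 1 * ‖P.res ⟨y, hy⟩‖ :=
          mul_le_mul_of_nonneg_right h2 (norm_nonneg _)
      _ = _ := one_mul _
  · rintro ⟨hx, h2⟩
    have h1 : x / y ∈ P.O := by
      rw [div_eq_mul_inv]
      exact P.O.mul_mem _ _ hx hyi
    refine ⟨h1, ?_⟩
    have e : P.res ⟨x, hx⟩ = P.res ⟨x / y, h1⟩ * P.res ⟨y, hy⟩ := by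
      rw [← map_mul]
      congr 1
      ext
      show x = x / y * y
      rw [div_mul_cancel₀ _ hyne]
    rw [e, norm_mul] at h2
    have h3 : 0 < ‖P.res ⟨y, hy⟩‖ := norm_pos_iff.2 hy0
    by_contra hc
    push Not at hc
    nlinarith

end Val

/-! ### choices -/

theorem pick {X Y : Type} [TopologicalSpace Y] {f : X → Y} (hf : DenseRange f) {y : Y}
    {Q : Y → Prop} (h : ∀ᶠ z in 𝓝 y, Q z) : ∃ x, Q (f x) := by
  obtain ⟨U, hUs, hUo, hUm⟩ := eventually_nhds_iff.mp h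
  obtain ⟨c, hc⟩ := hf.exists_mem_open hUo ⟨_, hUm⟩
  exact ⟨c, hUs _ hc⟩

theorem small_scale {F : Type} [NontriviallyNormedField F] {ι : Type} [Finite ι] (w : ι → F) :
    ∃ a : F, a ≠ 0 ∧ ∀ m : ℕ, 0 < m → ∀ i, ‖a ^ m * w i‖ < 1 := by
  have := Fintype.ofFinite ι
  obtain ⟨a, ha0, ha⟩ := NormedField.exists_norm_lt F (r := 1 / (1 + ∑ i, ‖w i‖)) (by positivity)
  have hs : (0:ℝ) ≤ ∑ i, ‖w i‖ := Finset.sum_nonneg fun _ _ => norm_nonneg _
  have ha1 : ‖a‖ < 1 := by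
    refine ha.trans_le ?_
    rw [div_le_one (by positivity)]
    linarith
  refine ⟨a, norm_pos_iff.1 ha0, fun m hm i => ?_⟩
  have h1 : ‖w i‖ ≤ ∑ i, ‖w i‖ := Finset.single_le_sum (f := fun i => ‖w i‖)
    (fun _ _ => norm_nonneg _) (Finset.mem_univ i)
  rw [lt_div_iff₀ (by positivity)] at ha
  rw [norm_mul, norm_pow]
  have h2 : ‖a‖ ^ m ≤ ‖a‖ := pow_le_of_le_one (norm_nonneg _) ha1.le hm.ne'
  calc ‖a‖ ^ m * ‖w i‖ ≤ ‖a‖ * ‖w i‖ := mul_le_mul_of_nonneg_right h2 (norm_nonneg _)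
    _ ≤ ‖a‖ * ∑ i, ‖w i‖ := mul_le_mul_of_nonneg_left h1 (norm_nonneg _)
    _ < 1 := by nlinarith

theorem eventually_small {F : Type} [NontriviallyNormedField F] {ι : Type} [Finite ι]
    {w : ι → F} (h : ∀ i, ‖w i‖ < 1) : ∀ᶠ c in 𝓝 w, ∀ i, ‖c i‖ < 1 := by
  rw [eventually_all]
  intro i
  have h1 : Continuous fun c : ι → F => ‖c i‖ := (continuous_apply i).norm
  exact h1.continuousAt.eventually_lt continuousAt_const (h i)

theorem exists_bad' {F : Type} [Field F] {D : ℕ} (h : ¬ DimLeOneUpTo F D) :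
    ∃ e : Fin D, ∃ d : Fin (D+1), BadE F (e+1) d := by
  unfold DimLeOneUpTo at h
  push Not at h
  obtain ⟨M, _, _, h1, h2, h3, L, _, _, h4, h5, h6, h7⟩ := h
  have hpos : 0 < Module.finrank F M := Module.finrank_pos
  refine ⟨⟨Module.finrank F M - 1, by omega⟩, ⟨Module.finrank M L, by omega⟩, M, _, _, h1, h2,
    by simp only []; omega, L, _, _, h4, h5, rfl, ?_⟩
  rw [Function.Surjective] at h7
  push Not at h7
  obtain ⟨ξ, hξ⟩ := h7
  refine ⟨ξ, ?_, fun ⟨z, hz⟩ => hξ z hz⟩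
  rintro rfl
  exact hξ 0 (Algebra.norm_zero)

end Pool.Agent.N616.NV.PB_

namespace Pool.Agent.N616.NV

open Pool.Agent.W882.Nip3 PB_

theorem PB : S_PB := by
  classical
  intro K _ P O D hO hult hD
  obtain ⟨e', d', M, _, _, hfin, hsep, hrank, L, _, _, hfinL, hsepL, hrankL, ξ₀, hξ0, hξ⟩ :=
    exists_bad' hD
  set e : ℕ := (e' : ℕ) with he
  set d : ℕ := (d' : ℕ) with hd
  have hdpos : 0 < d := by
    rw [← hrankL]
    exact Module.finrank_pos
  have hψ := P.isUnit_of_res_ne_zero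
  have hdense1 : ∀ n : ℕ, DenseRange (fun (g : Fin n → P.O) (k : Fin n) => P.res (g k)) := fun n =>
    DenseRange.piMap (fun _ : Fin n => P.denseRange)
  have hdense2 : ∀ n m : ℕ, DenseRange (fun (g : Fin n → Fin m → P.O) (j : Fin n) (k : Fin m) =>
      P.res (g j k)) := fun n m => DenseRange.piMap (fun _ : Fin n => hdense1 m)
  -- the generator of `M`
  obtain ⟨c₀, hc₀⟩ := P1_normed (F := P.F) M (e+1) hrank
  obtain ⟨a, ha0, ha⟩ := small_scale c₀
  obtain ⟨gS, ⟨T, hT0', hTli⟩, hgS⟩ := pick (hdense1 (e+1))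
    ((scale_nhds (e+1) c₀ hc₀ ha0).and (eventually_small (w := fun k : Fin (e+1) =>
      a ^ (e + 1 - (k : ℕ)) * c₀ k) fun k => ha _ (by omega) k))
  set gK : Fin (e+1) → K := fun k => (gS k : K) with hgK
  have hg : ∀ k, gK k ∈ P.O := fun k => (gS k).2
  have hT0 : ev (e+1) T (fun k => P.res (gO P.O gK hg k)) = 0 := hT0'
  -- the topology of `M`
  obtain ⟨τ, hτring, hτ2, hτcont, hτ1, hτ3⟩ := ext_package (F := P.F) M
  let _ : TopologicalSpace M := τ
  have : IsTopologicalRing M := hτring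
  have : T2Space M := hτ2
  set Φ : (Fin (e+1) → P.F) →ₗ[P.F] M :=
    Fintype.linearCombination P.F (fun k : Fin (e+1) => T ^ (k : ℕ)) with hΦ
  have hΦc : Continuous Φ := hτcont (e+1) _
  have hΦs : Function.Surjective Φ := by
    intro y
    have hspan := hTli.span_eq_top_of_card_eq_finrank' (by simp [hrank])
    have : y ∈ Submodule.span P.F (Set.range (fun k : Fin (e+1) => T ^ (k : ℕ))) := by
      rw [hspan]; trivial
    rw [← Fintype.range_linearCombination] at this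
    exact this
  have hphi : ∀ w : Fin (e+1) → P.O, phi P.O P.res gK hg T hT0 (elt (gO P.O gK hg) w) =
      Φ (fun k => P.res (w k)) := by
    intro w
    rw [phi_elt, hΦ, Fintype.linearCombination_apply]
  -- the generator of `L`
  obtain ⟨c₁, hc₁⟩ := hτ1 L d hrankL
  choose w₀ hw₀ using fun j : Fin d => hΦs (c₁ j)
  obtain ⟨b, hb0, hb⟩ := small_scale (fun p : Fin d × Fin (e+1) => w₀ p.1 p.2)
  have hb0' : algebraMap P.F M b ≠ 0 := by
    rwa [Ne, FaithfulSMul.algebraMap_eq_zero_iff]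
  have hsc := scale_nhds d c₁ hc₁ hb0'
  set w₀' : Fin d → Fin (e+1) → P.F := fun j k => b ^ (d - (j : ℕ)) * w₀ j k with hw₀'
  have hΨ : Tendsto (fun (w : Fin d → Fin (e+1) → P.F) (j : Fin d) => Φ (w j)) (𝓝 w₀')
      (𝓝 (fun j : Fin d => algebraMap P.F M b ^ (d - (j : ℕ)) * c₁ j)) := by
    have h1 : Continuous (fun (w : Fin d → Fin (e+1) → P.F) (j : Fin d) => Φ (w j)) :=
      continuous_pi fun j => hΦc.comp (continuous_apply j)
    have h2 := h1.tendsto w₀'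
    have h3 : (fun j : Fin d => Φ (w₀' j)) =
        (fun j : Fin d => algebraMap P.F M b ^ (d - (j : ℕ)) * c₁ j) := by
      funext j
      have h4 : w₀' j = b ^ (d - (j : ℕ)) • w₀ j := rfl
      rw [h4, map_smul, hw₀, Algebra.smul_def, map_pow]
    rw [h3] at h2
    exact h2
  have hsm2 : ∀ᶠ w in 𝓝 w₀', ∀ (j : Fin d) (k : Fin (e+1)), ‖w j k‖ < 1 := by
    rw [eventually_all]
    intro j
    rw [eventually_all]
    intro k
    have h1 : Continuous fun w : Fin d → Fin (e+1) → P.F => ‖w j k‖ := by fun_prop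
    exact h1.continuousAt.eventually_lt continuousAt_const (hb _ (by omega) (j, k))
  obtain ⟨hS, ⟨T2, hT2', hli2⟩, hhS⟩ := pick (hdense2 d (e+1)) ((hΨ.eventually hsc).and hsm2)
  -- the element which is not a norm
  obtain ⟨w₁, hw₁⟩ := hΦs ξ₀
  obtain ⟨b1, hb10, hb1⟩ := small_scale w₁
  have hb10' : algebraMap P.F M b1 ≠ 0 := by
    rwa [Ne, FaithfulSMul.algebraMap_eq_zero_iff]
  have hξ10 : algebraMap P.F M b1 ^ d * ξ₀ ≠ 0 := mul_ne_zero (pow_ne_zero _ hb10') hξ0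
  have hξ1 : ¬ ∃ z : L, Algebra.norm M z = algebraMap P.F M b1 ^ d * ξ₀ := by
    rintro ⟨z, hz⟩
    refine hξ ⟨z * (algebraMap M L (algebraMap P.F M b1))⁻¹, ?_⟩
    rw [map_mul, Algebra.norm_inv, Algebra.norm_algebraMap, hrankL, hz]
    field_simp
  have hev := eventually_bad hτ1 L hξ10 hξ1
  have hΦt : Tendsto Φ (𝓝 (fun k => b1 ^ d * w₁ k)) (𝓝 (algebraMap P.F M b1 ^ d * ξ₀)) := by
    have h2 := hΦc.tendsto (fun k => b1 ^ d * w₁ k)
    have h4 : (fun k => b1 ^ d * w₁ k) = b1 ^ d • w₁ := rfl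
    have h3 : Φ (fun k => b1 ^ d * w₁ k) = algebraMap P.F M b1 ^ d * ξ₀ := by
      rw [h4, map_smul, hw₁, Algebra.smul_def, map_pow]
    rw [h3] at h2
    exact h2
  obtain ⟨ε, hε, hεb⟩ := Metric.eventually_nhds_iff.1 (hΦt.eventually hev)
  have hsm3 : ∀ᶠ w in 𝓝 (fun k => b1 ^ d * w₁ k), ∀ k : Fin (e+1), ‖w k‖ < 1 :=
    eventually_small fun k => hb1 d hdpos k
  obtain ⟨ξS, hξS1, hξS2⟩ := pick (hdense1 (e+1))
    ((Metric.eventually_nhds_iff.2 ⟨ε / 2, half_pos hε, fun y hy => hy⟩ :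
      ∀ᶠ w in 𝓝 (fun k => b1 ^ d * w₁ k), dist w (fun k => b1 ^ d * w₁ k) < ε / 2).and hsm3)
  -- the discriminants
  set hO' : Fin d → Alg (e+1) (gO P.O gK hg) := fun j => elt (gO P.O gK hg) (hS j) with hhO'
  have hT2 : ev d T2 (fun j => phi P.O P.res gK hg T hT0 (hO' j)) = 0 := by
    have h1 : (fun j => phi P.O P.res gK hg T hT0 (hO' j)) =
        fun j => Φ (fun k => P.res (hS j k)) := by
      funext j
      exact hphi _
    rw [h1]
    exact hT2'
  have hN1 : P.res (disc1 (e+1) (gO P.O gK hg)) ≠ 0 :=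
    map_disc1_ne P.res hrank (gO P.O gK hg) T hT0 hTli
  have hN2 : P.res (Algebra.norm P.O (disc1 d hO')) ≠ 0 := by
    rw [← (norm_tau P.O P.res gK hg hrank T hT0 hTli (disc1 d hO')).2]
    refine Algebra.norm_ne_zero_iff.mpr ?_
    exact map_disc1_ne (phi P.O P.res gK hg T hT0) hrankL hO' T2 hT2 hli2
  -- the scale
  obtain ⟨a1, ha10, ha1⟩ := NormedField.exists_norm_lt P.F
    (r := min (min 1 (ε / 2)) (min ‖P.res (disc1 (e+1) (gO P.O gK hg))‖
      ‖P.res (Algebra.norm P.O (disc1 d hO'))‖)) (by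
      refine lt_min (lt_min one_pos (half_pos hε)) (lt_min (norm_pos_iff.2 hN1) (norm_pos_iff.2 hN2)))
  obtain ⟨δ, hδ0, hδ⟩ := pick P.denseRange (y := a1) (Q := fun y => 0 < ‖y‖ ∧ ‖y‖ <
      min (min 1 (ε / 2)) (min ‖P.res (disc1 (e+1) (gO P.O gK hg))‖
      ‖P.res (Algebra.norm P.O (disc1 d hO'))‖)) (by
    have h1 : Continuous fun y : P.F => ‖y‖ := continuous_norm
    exact (continuousAt_const.eventually_lt h1.continuousAt ha10).and
      (h1.continuousAt.eventually_lt continuousAt_const ha1))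
  rw [lt_min_iff, lt_min_iff, lt_min_iff] at hδ
  obtain ⟨⟨hδ1, hδ2⟩, hδ3, hδ4⟩ := hδ
  have hδne : P.res ⟨(δ : K), δ.2⟩ ≠ 0 := norm_pos_iff.1 hδ0
  refine ⟨(δ : K), e, d, ⟨?_, ?_, gK, fun j k => (hS j k : K), fun k => (ξS k : K), ?_, ?_, ?_, ?_, ?_, ?_⟩,
    hdpos, δ.2, hδne⟩
  · intro h0
    apply hδne
    have h1 : (⟨(δ : K), δ.2⟩ : P.O) = 0 := by
      ext
      exact h0
    rw [h1, map_zero]
  · by_contra hc
    push Not at hc
    have h1 : O.valuation 1 ≤ O.valuation (δ : K) := by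
      rwa [map_one]
    obtain ⟨h2, h3⟩ := (val_le_iff P O hO δ.2 hδne).1 h1
    have h4 : P.res ⟨(1 : K), h2⟩ = 1 := map_one P.res
    rw [h4, norm_one] at h3
    exact absurd h3 (not_le.2 hδ1)
  · intro k
    exact (hO _).2 ⟨(gS k).2, (hgS k).le⟩
  · intro j k
    exact (hO _).2 ⟨(hS j k).2, (hhS j k).le⟩
  · intro k
    exact (hO _).2 ⟨(ξS k).2, (hξS2 k).le⟩
  · have h1 : disc1 (e+1) gK = ((disc1 (e+1) (gO P.O gK hg) : P.O) : K) :=
      (map_disc1 P.O.subtype (e+1) (gO P.O gK hg)).symm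
    rw [h1]
    exact (val_le_iff P O hO (disc1 (e+1) (gO P.O gK hg)).2 hN1).2 ⟨δ.2, hδ3.le⟩
  · have h1 : (fun j => elt gK (fun k => (hS j k : K))) = fun j => tau P.O gK hg (hO' j) := by
      funext j
      exact (tau_elt P.O gK hg (hS j)).symm
    have h2 : Algebra.norm K (disc1 d fun j => elt gK (fun k => (hS j k : K))) =
        ((Algebra.norm P.O (disc1 d hO') : P.O) : K) := by
      rw [h1, ← map_disc1 (tau P.O gK hg) d hO']
      exact (norm_tau P.O P.res gK hg hrank T hT0 hTli (disc1 d hO')).1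
    rw [h2]
    exact (val_le_iff P O hO (Algebra.norm P.O (disc1 d hO')).2 hN2).2 ⟨δ.2, hδ4.le⟩
  · intro z
    by_contra hcon
    push Not at hcon
    have h1 : (fun j => elt gK (fun k => (hS j k : K))) = fun j => tau P.O gK hg (hO' j) := by
      funext j
      exact (tau_elt P.O gK hg (hS j)).symm
    rw [h1] at hcon
    set zz : Alg d (fun j => tau P.O gK hg (hO' j)) :=
      ∑ j, (elt gK (z j)) • algBasis d (fun j => tau P.O gK hg (hO' j)) j with hzz
    have hnz : nrmElt d (fun j => tau P.O gK hg (hO' j)) (fun j => elt gK (z j)) =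
        Algebra.norm (Alg (e+1) gK) zz := rfl
    rw [hnz] at hcon
    have hk : ∀ k, ∃ y : P.O, (y : K) = (algBasis (e+1) gK).repr (Algebra.norm (Alg (e+1) gK) zz) k ∧
        ‖P.res y - P.res (ξS k)‖ < ε / 2 := by
      intro k
      obtain ⟨h2, h3⟩ := (val_le_iff P O hO δ.2 hδne).1 (hcon k)
      refine ⟨⟨_, h2⟩ + ξS k, ?_, ?_⟩
      · show _ - (ξS k : K) + (ξS k : K) = _
        rw [sub_add_cancel]
      · rw [map_add, add_sub_cancel_right]
        exact h3.trans_lt hδ2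
    choose y hy1 hy2 using hk
    have hzy : Algebra.norm (Alg (e+1) gK) zz = tau P.O gK hg (elt (gO P.O gK hg) y) := by
      rw [tau_elt]
      apply (algBasis (e+1) gK).repr.injective
      ext k
      rw [repr_elt, hy1]
    have hyphi := hphi y
    have hball : dist (fun k => P.res (y k)) (fun k => b1 ^ d * w₁ k) < ε := by
      have h2 : dist (fun k => P.res (y k)) (fun k => P.res (ξS k)) < ε / 2 := by
        rw [dist_pi_lt_iff (half_pos hε)]
        intro k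
        rw [dist_eq_norm]
        exact hy2 k
      calc dist (fun k => P.res (y k)) (fun k => b1 ^ d * w₁ k) ≤
            dist (fun k => P.res (y k)) (fun k => P.res (ξS k)) +
              dist (fun k => P.res (ξS k)) (fun k => b1 ^ d * w₁ k) := dist_triangle _ _ _
        _ < ε / 2 + ε / 2 := add_lt_add h2 hξS1
        _ = ε := add_halves ε
    obtain ⟨h5, h6⟩ := hεb hball
    rw [← hyphi] at h5 h6
    exact h6 (bad_local P.O P.res gK hg hψ hrank T hT0 hTli L hrankL hO' T2 hT2 hli2 zz _ hzy h5)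

end Pool.Agent.N616.NV
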