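import Pool.Agent.N616.NV.Stm

set_option autoImplicit false

/-!
# Project NV, piece PB: general lemmas (discriminants, scaling, the local argument)
-/

open Topology Filter Polynomial TensorProduct

namespace Pool.Agent.N616.NV.PB_

open Pool.Agent.W882.Nip3 Pool.Agent.N616.NV

/-! ### discriminants -/

/-- the coefficients of the derivative -/
noncomputable def dco {R : Type} [CommRing R] (d : ℕ) (g : Fin d → R) : Fin d → R :=
  fun k => if h : (k : ℕ) + 1 < d then (((k : ℕ) + 1 : ℕ) : R) * g ⟨(k : ℕ) + 1, h⟩ else (d : R)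

theorem disc1_eq {R : Type} [CommRing R] [Nontrivial R] (d : ℕ) (g : Fin d → R) :
    disc1 d g = nrmElt d g (dco d g) := rfl

theorem map_dco {R S : Type} [CommRing R] [CommRing S] (σ : R →+* S) (d : ℕ) (g : Fin d → R)
    (k : Fin d) : σ (dco d g k) = dco d (fun j => σ (g j)) k := by
  unfold dco
  split_ifs
  · rw [map_mul, map_natCast]
  · rw [map_natCast]

theorem map_disc1 {R S : Type} [CommRing R] [Nontrivial R] [CommRing S] [Nontrivial S]
    (σ : R →+* S) (d : ℕ) (g : Fin d → R) : σ (disc1 d g) = disc1 d (fun j => σ (g j)) := by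
  rw [disc1_eq, disc1_eq, map_nrmElt]
  congr 1
  funext k
  exact map_dco σ d g k

theorem sum_dco {F L : Type} [CommRing F] [CommRing L] [Algebra F L] (d : ℕ) (c : Fin d → F)
    (T : L) : ∑ j : Fin d, dco d c j • T ^ (j : ℕ) = ev' d T c := by
  cases d with
  | zero => simp [ev']
  | succ n =>
    unfold ev'
    rw [Fin.sum_univ_castSucc, Fin.sum_univ_succ]
    have h1 : dco (n + 1) c (Fin.last n) = ((n + 1 : ℕ) : F) := by
      unfold dco
      rw [dif_neg (by simp)]
    have h2 : ∀ j : Fin n, dco (n + 1) c (Fin.castSucc j) • T ^ ((Fin.castSucc j : Fin (n+1)) : ℕ) =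
        c (Fin.succ j) • (((Fin.succ j : Fin (n+1)) : ℕ) • T ^ (((Fin.succ j : Fin (n+1)) : ℕ) - 1)) := by
      intro j
      unfold dco
      rw [dif_pos (by simp)]
      simp only [Fin.val_castSucc, Fin.val_succ, Nat.add_sub_cancel]
      have h3 : (⟨(j : ℕ) + 1, by omega⟩ : Fin (n + 1)) = Fin.succ j := rfl
      rw [h3, mul_comm, mul_smul, Nat.cast_smul_eq_nsmul]
    rw [Finset.sum_congr rfl fun j _ => h2 j, h1]
    simp only [Fin.val_last, Fin.val_zero, zero_smul, smul_zero, zero_add, Nat.add_sub_cancel]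
    rw [Nat.cast_smul_eq_nsmul, add_comm]

theorem lowCoeff_mpoly {F : Type} [CommRing F] (d : ℕ) (c : Fin d → F) :
    lowCoeff d (mpoly d c) = c := by
  classical
  funext k
  rw [lowCoeff, mpoly, coeff_add, coeff_X_pow, if_neg (by omega), zero_add, finsetSum_coeff,
    Finset.sum_eq_single k]
  · simp
  · intro j _ hj
    have : (k : ℕ) ≠ j := fun h => hj (Fin.ext h.symm)
    simp [coeff_X_pow, this]
  · simp

theorem ev'_ne {F L : Type} [Field F] [Field L] [Algebra F L] [FiniteDimensional F L]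
    [Algebra.IsSeparable F L] {d : ℕ} (hd : Module.finrank F L = d) (c : Fin d → F)
    (T : L) (h0 : ev d T c = 0) (hli : LinearIndependent F (fun k : Fin d => T ^ (k : ℕ))) :
    ev' d T c ≠ 0 := by
  classical
  have hd0 : 0 < d := by rw [← hd]; exact Module.finrank_pos
  have hcard : Fintype.card (Fin d) = Module.finrank F L := by rw [hd, Fintype.card_fin]
  have : Nonempty (Fin d) := ⟨⟨0, hd0⟩⟩
  let pb : PowerBasis F L :=
    { gen := T
      dim := d
      basis := basisOfLinearIndependentOfCardEqFinrank hli hcard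
      basis_eq_pow := fun k => by simp }
  have h2 : minpoly F T = mpoly d c := by
    have hint : IsIntegral F T := Algebra.IsIntegral.isIntegral T
    have hdvd : minpoly F T ∣ mpoly d c := minpoly.dvd F T (by rw [aeval_mpoly, h0])
    have hnd : (minpoly F T).natDegree = d := pb.natDegree_minpoly
    symm
    exact eq_of_monic_of_dvd_of_natDegree_le (minpoly.monic hint) (mpoly_monic d c) hdvd
      (by rw [hnd, mpoly_natDegree])
  have h3 := ev'_lowCoeff (mpoly_monic d c) (mpoly_natDegree d c) T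
  rw [lowCoeff_mpoly] at h3
  rw [h3, ← h2]
  exact (Algebra.IsSeparable.isSeparable F T).aeval_derivative_ne_zero (minpoly.aeval F T)

/-- the discriminant of a generating polynomial -/
theorem map_disc1_ne {R M L : Type} [CommRing R] [Nontrivial R] [Field M] [Field L] [Algebra M L]
    [FiniteDimensional M L] [Algebra.IsSeparable M L] (φ : R →+* M) {d : ℕ}
    (hd : Module.finrank M L = d) (c : Fin d → R)
    (T : L) (h0 : ev d T (fun k => φ (c k)) = 0)
    (hli : LinearIndependent M (fun k : Fin d => T ^ (k : ℕ))) : φ (disc1 d c) ≠ 0 := by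
  rw [disc1_eq, nrmElt, ← norm_lift φ hd c T h0 hli (dco d c)]
  refine Algebra.norm_ne_zero_iff.mpr ?_
  have h1 : ∑ j : Fin d, φ (dco d c j) • T ^ (j : ℕ) = ev' d T (fun k => φ (c k)) := by
    rw [← sum_dco]
    refine Finset.sum_congr rfl fun j _ => ?_
    rw [map_dco]
  rw [h1]
  exact ev'_ne hd _ T h0 hli

/-! ### scaling -/

theorem ev_scale {F L : Type} [Field F] [Field L] [Algebra F L] (d : ℕ) (c : Fin d → F) (T : L)
    {a : F} (ha : a ≠ 0) (h0 : ev d T (fun k => (a⁻¹) ^ (d - (k : ℕ)) * c k) = 0)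
    (hli : LinearIndependent F (fun k : Fin d => T ^ (k : ℕ))) :
    ev d (algebraMap F L a * T) c = 0 ∧
      LinearIndependent F (fun k : Fin d => (algebraMap F L a * T) ^ (k : ℕ)) := by
  constructor
  · have h1 : ev d (algebraMap F L a * T) c =
        algebraMap F L a ^ d * ev d T (fun k => (a⁻¹) ^ (d - (k : ℕ)) * c k) := by
      unfold ev
      rw [mul_add, mul_pow, Finset.mul_sum]
      congr 1
      refine Finset.sum_congr rfl fun k _ => ?_
      rw [Algebra.smul_def, Algebra.smul_def, mul_pow, map_mul, map_pow, map_inv₀]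
      have ha' : algebraMap F L a ≠ 0 := by
        rwa [Ne, FaithfulSMul.algebraMap_eq_zero_iff]
      have h2 : algebraMap F L a ^ d = algebraMap F L a ^ (k : ℕ) * algebraMap F L a ^ (d - (k : ℕ)) := by
        rw [← pow_add]
        congr 1
        omega
      rw [h2, inv_pow]
      field_simp
    rw [h1, h0, mul_zero]
  · have h1 : (fun k : Fin d => (algebraMap F L a * T) ^ (k : ℕ)) =
        fun k : Fin d => (Units.mk0 a ha ^ (k : ℕ)) • T ^ (k : ℕ) := by
      funext k
      rw [mul_pow, Units.smul_def, Algebra.smul_def, Units.val_pow_eq_pow_val, Units.val_mk0, map_pow]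
    rw [h1]
    exact hli.units_smul (fun k : Fin d => Units.mk0 a ha ^ (k : ℕ))

/-- scaling of the neighbourhoods of generating polynomials -/
theorem scale_nhds {F L : Type} [Field F] [TopologicalSpace F] [IsTopologicalRing F] [Field L]
    [Algebra F L] (d : ℕ) (c₀ : Fin d → F)
    (h : ∀ᶠ c in 𝓝 c₀, ∃ T : L, ev d T c = 0 ∧
      LinearIndependent F (fun k : Fin d => T ^ (k : ℕ))) {a : F} (ha : a ≠ 0) :
    ∀ᶠ c in 𝓝 (fun k : Fin d => a ^ (d - (k : ℕ)) * c₀ k), ∃ T : L, ev d T c = 0 ∧
      LinearIndependent F (fun k : Fin d => T ^ (k : ℕ)) := by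
  have hc : Tendsto (fun (c : Fin d → F) (k : Fin d) => (a⁻¹) ^ (d - (k : ℕ)) * c k)
      (𝓝 (fun k : Fin d => a ^ (d - (k : ℕ)) * c₀ k)) (𝓝 c₀) := by
    have h1 : Continuous (fun (c : Fin d → F) (k : Fin d) => (a⁻¹) ^ (d - (k : ℕ)) * c k) := by
      fun_prop
    have h2 := h1.tendsto (fun k : Fin d => a ^ (d - (k : ℕ)) * c₀ k)
    have h3 : (fun k : Fin d => (a⁻¹) ^ (d - (k : ℕ)) * (a ^ (d - (k : ℕ)) * c₀ k)) = c₀ := by
      funext k
      rw [← mul_assoc, ← mul_pow, inv_mul_cancel₀ ha, one_pow, one_mul]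
    rw [h3] at h2
    exact h2
  filter_upwards [hc.eventually h] with c hc
  obtain ⟨T, hT, hli⟩ := hc
  exact ⟨_, ev_scale d c T ha hT hli⟩

/-! ### the local argument -/

section

variable {K : Type} [Field K] (O : ValuationSubring K) {F : Type} [Field F] (ψ : O →+* F)
  {e : ℕ} (gK : Fin (e+1) → K) (hg : ∀ k, gK k ∈ O) {M : Type} [Field M] [Algebra F M]

theorem bad_local (hψ : ∀ x, ψ x ≠ 0 → IsUnit x) [FiniteDimensional F M]
    (hM : Module.finrank F M = e + 1) (T : M)
    (hT0 : ev (e+1) T (fun k => ψ (gO O gK hg k)) = 0)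
    (hTli : LinearIndependent F (fun k : Fin (e+1) => T ^ (k : ℕ)))
    {d : ℕ} (L : Type) [Field L]
    [Algebra M L] [FiniteDimensional M L]
    (hL : Module.finrank M L = d) (c : Fin d → Alg (e+1) (gO O gK hg)) (T2 : L)
    (hT2 : ev d T2 (fun j => phi O ψ gK hg T hT0 (c j)) = 0)
    (hli2 : LinearIndependent M (fun j : Fin d => T2 ^ (j : ℕ)))
    (z : Alg d (fun j => tau O gK hg (c j))) (y' : Alg (e+1) (gO O gK hg))
    (hz : Algebra.norm (Alg (e+1) gK) z = tau O gK hg y')
    (hy0 : phi O ψ gK hg T hT0 y' ≠ 0) :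
    ∃ z' : L, Algebra.norm M z' = phi O ψ gK hg T hT0 y' := by
  classical
  have hdpos : 0 < d := by
    rw [← hL]
    exact Module.finrank_pos
  obtain ⟨v0, hv0⟩ := phi_unit O ψ gK hg hψ hM T hT0 hTli y' hy0
  let x : (Alg (e+1) gK)ˣ := Units.map (tau O gK hg : Alg (e+1) (gO O gK hg) →* Alg (e+1) gK) v0
  have hxval : (x : Alg (e+1) gK) = tau O gK hg y' := by
    rw [← hv0]
    rfl
  rw [← hxval] at hz
  have hH : x ∈ subH O ψ gK hg hψ hM T hT0 hTli L d := by
    choose w hw using fun j : Fin d => exists_elt gK ((algBasis d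
      (fun j => tau O gK hg (c j))).repr z j)
    have hw0 : (fun p : Fin d × Fin (e+1) => w p.1 p.2) ≠ 0 := by
      intro h
      have hz0 : z = 0 := by
        rw [← (algBasis d (fun j => tau O gK hg (c j))).sum_repr z]
        refine Finset.sum_eq_zero fun j _ => ?_
        rw [← hw j]
        have : w j = 0 := by
          funext k
          exact congrFun h (j, k)
        rw [this, elt]
        simp
      rw [hz0] at hz
      have hfin : Module.Finite (Alg (e+1) gK) (Alg d (fun j => tau O gK hg (c j))) :=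
        Module.Finite.of_basis (algBasis d _)
      have hnt : Nontrivial (Alg d (fun j => tau O gK hg (c j))) :=
        ⟨⟨algBasis d _ ⟨0, hdpos⟩, 0, (algBasis d _).ne_zero _⟩⟩
      have h1 : IsUnit (0 : Alg (e+1) gK) := by
        have h2 : Algebra.norm (Alg (e+1) gK) (0 : Alg d (fun j => tau O gK hg (c j))) = 0 := by
          rw [Algebra.norm_eq_matrix_det (algBasis d _), map_zero]
          have : Nonempty (Fin d) := ⟨⟨0, hdpos⟩⟩
          exact Matrix.det_zero
        rw [← h2, hz]
        exact x.isUnit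
      exact not_isUnit_zero h1
    obtain ⟨a, w', ha, hww', ⟨p, hp⟩⟩ := exists_scaling O _ hw0
    -- the primitive element
    set z0 : Alg d c := ∑ j, elt (gO O gK hg) (fun k => w' (j, k)) • algBasis d c j with hz0
    have hz' : z = algebraMap (Alg (e+1) gK) _ (algebraMap K _ a) *
        algMap (tau O gK hg) d c z0 := by
      rw [← (algBasis d (fun j => tau O gK hg (c j))).sum_repr z, hz0, map_sum, Finset.mul_sum]
      refine Finset.sum_congr rfl fun j _ => ?_
      rw [← hw j, Algebra.smul_def, Algebra.smul_def, map_mul, algMap_algebraMap, algMap_basis,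
        ← mul_assoc, ← map_mul]
      congr 2
      rw [tau_elt, elt, elt, Finset.mul_sum]
      refine Finset.sum_congr rfl fun k _ => ?_
      rw [Algebra.smul_def, Algebra.smul_def, ← mul_assoc, ← map_mul]
      congr 2
      exact hww' (j, k)
    have hnz : Algebra.norm (Alg (e+1) gK) z = algebraMap K _ a ^ d *
        tau O gK hg (Algebra.norm _ z0) := by
      rw [hz', map_mul, Algebra.norm_algebraMap_of_basis (algBasis d
        (fun j => tau O gK hg (c j))), Fintype.card_fin]
      congr 1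
      exact norm_compat (tau O gK hg) (algMap (tau O gK hg) d c) (algMap_algebraMap _ _ _)
        (algBasis d c) (algBasis d _) (algMap_basis _ _ _) z0
    have hnphi := norm_lift (phi O ψ gK hg T hT0) hL c T2 hT2 hli2
      (fun j => elt (gO O gK hg) (fun k => w' (j, k)))
    refine ⟨a, Algebra.norm _ z0, _, ha, by rw [← hz, hnz], ?_, hnphi⟩
    rw [← hnphi]
    refine Algebra.norm_ne_zero_iff.mpr ?_
    intro h
    have h1 := (Fintype.linearIndependent_iff.mp hli2) _ h p.1
    exact phi_elt_ne O ψ gK hg T hT0 hTli (fun k => w' (p.1, k)) p.2 hp h1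
  obtain ⟨a, u', z, ha, h1, h2, h3⟩ := hH
  obtain ⟨v, hv⟩ := phi_unit O ψ gK hg hψ hM T hT0 hTli u' h2
  have h4 : algebraMap K (Alg (e+1) gK) (a ^ d) = tau O gK hg (y' *
      ((v⁻¹ : (Alg (e+1) (gO O gK hg))ˣ) : Alg (e+1) (gO O gK hg))) := by
    rw [map_mul, ← hxval, h1, mul_assoc, ← map_mul, ← hv, Units.mul_inv, map_one, mul_one,
      map_pow]
  obtain ⟨β, hβ, hβ2⟩ := tau_mem O gK hg _ h4
  have haO : a ∈ O := mem_of_pow_mem O hdpos (hβ ▸ β.2)
  have hx : y' = algebraMap O _ ⟨a, haO⟩ ^ d * u' := by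
    have h8 : algebraMap O (Alg (e+1) (gO O gK hg)) β = algebraMap O _ ⟨a, haO⟩ ^ d := by
      rw [← map_pow]
      congr 1
      ext
      exact hβ
    rw [← h8, ← hβ2, mul_assoc, ← hv, Units.inv_mul, mul_one]
  refine ⟨algebraMap M L (algebraMap F M (ψ ⟨a, haO⟩)) * z, ?_⟩
  rw [map_mul, h3, Algebra.norm_algebraMap, hL, hx, map_mul, map_pow]
  congr 2
  rw [AdjoinRoot.algebraMap_eq, phi, AdjoinRoot.lift_of]
  rfl

/-- norms over the valuation ring, over `K` and over `F` -/
theorem norm_tau [FiniteDimensional F M] (hM : Module.finrank F M = e + 1) (T : M)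
    (hT0 : ev (e+1) T (fun k => ψ (gO O gK hg k)) = 0)
    (hTli : LinearIndependent F (fun k : Fin (e+1) => T ^ (k : ℕ)))
    (x : Alg (e+1) (gO O gK hg)) :
    Algebra.norm K (tau O gK hg x) = ((Algebra.norm O x : O) : K) ∧
      Algebra.norm F (phi O ψ gK hg T hT0 x) = ψ (Algebra.norm O x) := by
  classical
  have hcard : Fintype.card (Fin (e+1)) = Module.finrank F M := by rw [hM, Fintype.card_fin]
  let b' : Module.Basis (Fin (e+1)) F M := basisOfLinearIndependentOfCardEqFinrank hTli hcard
  constructor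
  · exact norm_compat O.subtype (tau O gK hg) (algMap_algebraMap O.subtype _ _)
      (algBasis (e+1) (gO O gK hg)) (algBasis (e+1) gK) (algMap_basis O.subtype _ _) x
  · refine norm_compat ψ (phi O ψ gK hg T hT0) ?_ (algBasis (e+1) (gO O gK hg)) b' ?_ x
    · intro r
      rw [AdjoinRoot.algebraMap_eq, phi, AdjoinRoot.lift_of]
      rfl
    · intro k
      rw [algBasis_apply, map_pow, phi, AdjoinRoot.lift_root]
      simp only [b', coe_basisOfLinearIndependentOfCardEqFinrank]

end

end Pool.Agent.N616.NV.PB_
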