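import Pool.Agent.N616.NV.Stm

/-! # Project NV, piece PO: the ring of a nonarchimedean place (helper82 for helper616) -/

set_option autoImplicit false

namespace Pool.Agent.N616.NV

open Pool.Agent.W882.Nip3

namespace PO_

theorem inv_place {K : Type} [Field K] (P : Place K) (x : K) (hx : x ∈ P.O)
    (h0 : P.res ⟨x, hx⟩ ≠ 0) :
    ∃ h : x⁻¹ ∈ P.O, P.res ⟨x⁻¹, h⟩ = (P.res ⟨x, hx⟩)⁻¹ := by
  obtain ⟨u, hu⟩ := P.isUnit_of_res_ne_zero _ h0
  have h1 : (u : P.O) * ((u⁻¹ : (P.O)ˣ) : P.O) = 1 := Units.mul_inv u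
  rw [hu] at h1
  have h2 : x * (((u⁻¹ : (P.O)ˣ) : P.O) : K) = 1 := by
    have := congrArg (Subtype.val) h1
    simpa using this
  have h3 : x⁻¹ = (((u⁻¹ : (P.O)ˣ) : P.O) : K) := inv_eq_of_mul_eq_one_right h2
  have h4 : x⁻¹ ∈ P.O := by rw [h3]; exact ((u⁻¹ : (P.O)ˣ) : P.O).2
  refine ⟨h4, ?_⟩
  have h5 : (⟨x⁻¹, h4⟩ : P.O) = ((u⁻¹ : (P.O)ˣ) : P.O) := Subtype.ext h3
  rw [h5]
  have h6 : P.res ⟨x, hx⟩ * P.res ((u⁻¹ : (P.O)ˣ) : P.O) = 1 := by
    rw [← map_mul, h1, map_one]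
  exact (inv_eq_of_mul_eq_one_right h6).symm

/-- the ring -/
def pring {K : Type} [Field K] (P : Place K) (hu : ∀ a b : P.F, ‖a + b‖ ≤ max ‖a‖ ‖b‖) :
    ValuationSubring K where
  carrier := {x | ∃ h : x ∈ P.O, ‖P.res ⟨x, h⟩‖ ≤ 1}
  mul_mem' := by
    rintro x y ⟨hx, h1⟩ ⟨hy, h2⟩
    refine ⟨P.O.mul_mem _ _ hx hy, ?_⟩
    have : (⟨x * y, P.O.mul_mem _ _ hx hy⟩ : P.O) = ⟨x, hx⟩ * ⟨y, hy⟩ := rfl
    rw [this, map_mul, norm_mul]
    exact mul_le_one₀ h1 (norm_nonneg _) h2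
  one_mem' := ⟨P.O.one_mem, by
    have : (⟨1, P.O.one_mem⟩ : P.O) = 1 := rfl
    rw [this, map_one, norm_one]⟩
  add_mem' := by
    rintro x y ⟨hx, h1⟩ ⟨hy, h2⟩
    refine ⟨P.O.add_mem _ _ hx hy, ?_⟩
    have : (⟨x + y, P.O.add_mem _ _ hx hy⟩ : P.O) = ⟨x, hx⟩ + ⟨y, hy⟩ := rfl
    rw [this, map_add]
    exact (hu _ _).trans (max_le h1 h2)
  zero_mem' := ⟨P.O.zero_mem, by
    have : (⟨0, P.O.zero_mem⟩ : P.O) = 0 := rfl
    rw [this, map_zero, norm_zero]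
    exact zero_le_one⟩
  neg_mem' := by
    rintro x ⟨hx, h1⟩
    refine ⟨P.O.neg_mem _ hx, ?_⟩
    have : (⟨-x, P.O.neg_mem _ hx⟩ : P.O) = -⟨x, hx⟩ := rfl
    rw [this, map_neg, norm_neg]
    exact h1
  mem_or_inv_mem' := by
    intro x
    by_cases hx : x ∈ P.O
    · by_cases h1 : ‖P.res ⟨x, hx⟩‖ ≤ 1
      · exact Or.inl ⟨hx, h1⟩
      · right
        push Not at h1
        have h0 : P.res ⟨x, hx⟩ ≠ 0 := by
          intro h
          rw [h, norm_zero] at h1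
          linarith
        obtain ⟨h2, h3⟩ := inv_place P x hx h0
        refine ⟨h2, ?_⟩
        rw [h3, norm_inv]
        exact inv_le_one_of_one_le₀ h1.le
    · right
      have h2 : x⁻¹ ∈ P.O := (P.O.mem_or_inv_mem x).resolve_left hx
      refine ⟨h2, ?_⟩
      by_contra h3
      have h0 : P.res ⟨x⁻¹, h2⟩ ≠ 0 := by
        intro h
        rw [h, norm_zero] at h3
        exact h3 zero_le_one
      obtain ⟨h4, -⟩ := inv_place P x⁻¹ h2 h0
      rw [inv_inv] at h4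
      exact hx h4

theorem mem_pring {K : Type} [Field K] (P : Place K) (hu : ∀ a b : P.F, ‖a + b‖ ≤ max ‖a‖ ‖b‖)
    (x : K) : x ∈ pring P hu ↔ ∃ h : x ∈ P.O, ‖P.res ⟨x, h⟩‖ ≤ 1 := Iff.rfl

end PO_

open PO_ in
/-- the ring of a nonarchimedean place -/
theorem PO : S_PO := by
  intro K _ P hu
  refine ⟨pring P hu, fun x => Iff.rfl, ?_, ?_⟩
  · intro htop
    obtain ⟨y, hy⟩ := NormedField.exists_one_lt_norm P.F
    obtain ⟨x, hx⟩ := Metric.denseRange_iff.1 P.denseRange y (‖y‖ - 1) (by linarith)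
    rw [dist_eq_norm] at hx
    have h1 : ‖y‖ ≤ ‖y - P.res x‖ + ‖P.res x‖ := by
      have := norm_add_le (y - P.res x) (P.res x)
      rwa [sub_add_cancel] at this
    have h2 : (x : K) ∈ pring P hu := by rw [htop]; trivial
    obtain ⟨h3, h4⟩ := (mem_pring P hu _).1 h2
    have h5 : (⟨(x : K), h3⟩ : P.O) = x := rfl
    rw [h5] at h4
    linarith
  · intro x hx h0 c hc
    have hcO : c ∈ pring P hu := (ValuationSubring.valuation_le_one_iff _ _).1 hc.le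
    obtain ⟨hcP, hc1⟩ := (mem_pring P hu _).1 hcO
    have hc2 : ‖P.res ⟨c, hcP⟩‖ < 1 := by
      refine lt_of_le_of_ne hc1 ?_
      intro he
      have hne : P.res ⟨c, hcP⟩ ≠ 0 := by
        intro h
        rw [h, norm_zero] at he
        exact zero_ne_one he
      obtain ⟨h4, h5⟩ := inv_place P c hcP hne
      have h6 : c⁻¹ ∈ pring P hu := (mem_pring P hu _).2 ⟨h4, by rw [h5, norm_inv, he, inv_one]⟩
      have h7 := (ValuationSubring.valuation_le_one_iff _ _).2 h6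
      rw [map_inv₀] at h7
      have hc0 : c ≠ 0 := by
        rintro rfl
        apply hne
        have : (⟨0, hcP⟩ : P.O) = 0 := rfl
        rw [this, map_zero]
      have h8 : (pring P hu).valuation c ≠ 0 := (Valuation.ne_zero_iff _).2 hc0
      have h9 : 1 ≤ (pring P hu).valuation c := by
        rw [← inv_inv ((pring P hu).valuation c)]
        exact (one_le_inv₀ (zero_lt_iff.2 (inv_ne_zero h8))).2 h7
      exact absurd hc (not_lt.2 h9)
    obtain ⟨m, hm⟩ := exists_pow_lt_of_lt_one (norm_pos_iff.2 h0) hc2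
    refine ⟨m, ?_⟩
    obtain ⟨h4, h5⟩ := inv_place P x hx h0
    have hx0 : x ≠ 0 := by
      rintro rfl
      apply h0
      have : (⟨0, hx⟩ : P.O) = 0 := rfl
      rw [this, map_zero]
    have h6 : c ^ m * x⁻¹ ∈ pring P hu := by
      refine (mem_pring P hu _).2 ⟨P.O.mul_mem _ _ (pow_mem hcP m) h4, ?_⟩
      have h7 : (⟨c ^ m * x⁻¹, P.O.mul_mem _ _ (pow_mem hcP m) h4⟩ : P.O)
          = ⟨c, hcP⟩ ^ m * ⟨x⁻¹, h4⟩ := rfl
      rw [h7, map_mul, map_pow, h5, norm_mul, norm_pow, norm_inv]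
      rw [← div_eq_mul_inv]
      exact (div_le_one (norm_pos_iff.2 h0)).2 hm.le
    have h7 := (ValuationSubring.valuation_le_one_iff _ _).2 h6
    rw [map_mul, map_inv₀] at h7
    have h8 : (pring P hu).valuation x ≠ 0 := (Valuation.ne_zero_iff _).2 hx0
    rw [← div_eq_mul_inv] at h7
    exact (div_le_one₀ (zero_lt_iff.2 h8)).1 h7

end Pool.Agent.N616.NV
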