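import Pool.Agent.N616.NV.Main
import Pool.Agent.R492.DS.S1

set_option autoImplicit false

/-!
# Project NV: orderings and absolute values of stable fields
-/

namespace Pool.Agent.N616.NV

open FirstOrder FirstOrder.Language FirstOrder.Ring Pool.Agent.W882.Nip3 Pool.Agent.R492.DV
  Pool.Agent.N616.NH Pla_

/-- A definable set cannot give the order property. -/
theorem not_ord_of_stable {K : Type} [Field K] [CompatibleRing K]
    (hK : ∀ (m k : ℕ) (φ : FirstOrder.Language.ring.Formula (Fin m ⊕ Fin k)),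
      ¬ ∀ n : ℕ, ∃ (a : Fin n → Fin m → K) (b : Fin n → Fin k → K),
        ∀ i j : Fin n, (φ.Realize (Sum.elim (a i) (b j)) ↔ i < j))
    (U : Set K) (hU : DfS U) (a b : ℕ → K) (hab : ∀ i j, a i * b j ∈ U ↔ j ≤ i) : False := by
  obtain ⟨p, ψ, c, hψ⟩ := hU
  let f : Fin 1 ⊕ Fin p → FirstOrder.Language.ring.Term (Fin 1 ⊕ Fin (1 + p)) :=
    Sum.elim (fun _ => Term.var (Sum.inl 0) * Term.var (Sum.inr (Fin.castAdd p 0)))
      (fun j => Term.var (Sum.inr (Fin.natAdd 1 j)))
  let θ : FirstOrder.Language.ring.Formula (Fin 1 ⊕ Fin (1 + p)) :=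
    BoundedFormula.not (BoundedFormula.subst ψ f)
  refine hK 1 (1 + p) θ fun n => ?_
  refine ⟨fun i _ => a i, fun j => Fin.append (fun _ => b j) c, fun i j => ?_⟩
  have h1 : Formula.Realize θ (Sum.elim (fun _ => a i) (Fin.append (fun _ => b j) c)) ↔
      ¬ (a i * b j ∈ U) := by
    rw [hψ]
    unfold Formula.Realize
    simp only [θ]
    rw [BoundedFormula.realize_not, BoundedFormula.realize_subst]
    have h2 : (fun x => (f x).realize (Sum.elim (fun _ => a i)
        (Fin.append (fun _ => b j) c) : Fin 1 ⊕ Fin (1 + p) → K)) =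
        Sum.elim (fun _ => a i * b j) c := by
      funext x
      rcases x with x | x
      · simp only [f, Sum.elim_inl, realize_mul, Term.realize_var, Sum.elim_inr,
          Fin.append_left]
      · simp only [f, Sum.elim_inr, Term.realize_var, Fin.append_right]
    rw [h2]
  rw [h1, hab, not_le, Fin.lt_def]

/-- Stable fields have no orderings. -/
theorem no_ordering (hTK : S_TK) (hOP : S_OP) (hOF : S_OF) (K : Type) [Field K] [CompatibleRing K]
    (hK : ∀ (m k : ℕ) (φ : FirstOrder.Language.ring.Formula (Fin m ⊕ Fin k)),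
      ¬ ∀ n : ℕ, ∃ (a : Fin n → Fin m → K) (b : Fin n → Fin k → K),
        ∀ i j : Fin n, (φ.Realize (Sum.elim (a i) (b j)) ↔ i < j))
    [LinearOrder K] [IsStrictOrderedRing K] : False := by
  obtain ⟨U, hU, h1, h2⟩ := ord_def hTK hOP hOF K
    (Or.inl (Pool.Agent.R492.DS.nip_of_stable hK))
  refine not_ord_of_stable hK U hU (fun i => (1 / 4 : K) ^ i * (1 / 2)) (fun j => 4 ^ j)
    fun i j => ?_
  have key : ∀ i j : ℕ, |(1 / 4 : K) ^ i * (1 / 2) * 4 ^ j| = (1 / 4 : K) ^ i * (1 / 2) * 4 ^ j :=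
    fun i j => abs_of_nonneg (by positivity)
  constructor
  · intro h
    by_contra hcon
    rw [not_le] at hcon
    obtain ⟨k, rfl⟩ := Nat.exists_eq_add_of_lt hcon
    have h3 := h2 _ h
    rw [key] at h3
    have h4 : (1 / 4 : K) ^ i * (1 / 2) * 4 ^ (i + k + 1) = 2 * 4 ^ k := by
      have : (1 / 4 : K) ^ i * 4 ^ i = 1 := by
        rw [← mul_pow]
        norm_num
      calc (1 / 4 : K) ^ i * (1 / 2) * 4 ^ (i + k + 1)
          = ((1 / 4 : K) ^ i * 4 ^ i) * ((1 / 2) * 4 ^ k * 4) := by ring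
        _ = 2 * 4 ^ k := by rw [this]; ring
    rw [h4] at h3
    have h5 : (1 : K) ≤ 4 ^ k := one_le_pow₀ (by norm_num)
    linarith
  · intro h
    obtain ⟨k, rfl⟩ := Nat.exists_eq_add_of_le h
    apply h1
    rw [key]
    have h4 : (1 / 4 : K) ^ (j + k) * (1 / 2) * 4 ^ j = (1 / 4) ^ k * (1 / 2) := by
      have : (1 / 4 : K) ^ j * 4 ^ j = 1 := by
        rw [← mul_pow]
        norm_num
      calc (1 / 4 : K) ^ (j + k) * (1 / 2) * 4 ^ j
          = ((1 / 4 : K) ^ j * 4 ^ j) * ((1 / 4) ^ k * (1 / 2)) := by ring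
        _ = (1 / 4) ^ k * (1 / 2) := by rw [this]; ring
    rw [h4]
    have h5 : (1 / 4 : K) ^ k ≤ 1 := pow_le_one₀ (by norm_num) (by norm_num)
    linarith

end Pool.Agent.N616.NV
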