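import Pool.Agent.N616.NV.Stm
import Pool.Agent.R492.DV.G
import Pool.Agent.R492.DV.J
import Pool.Agent.R492.DV.K2

set_option autoImplicit false

/-!
# Project NV, part TK (helper344): a variant of Kueker's theorem for a symmetric relation
-/

namespace Pool.Agent.N616.NV.TK_

open FirstOrder FirstOrder.Language Pool.Agent.R492.DV Pool.Agent.R492.DV.K2

/-- the sentence saying that the predicate is separated by `ψ` from its image under `ρ` -/
noncomputable def ssent {L : FirstOrder.Language.{0, 0}} (ρ : L.Formula (Fin 2)) {p : ℕ}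
    (ψ : L.Formula (Fin 1 ⊕ Fin p)) : (L.sum (UL 1)).Sentence :=
  Formula.iExs (Fin p) (α := Empty) (Formula.iAlls (Fin 2) (α := Empty ⊕ Fin p)
    (((Relations.formula (L := L.sum (UL 1)) (n := 1)
      (Sum.inr (URel.P 0) : (L.sum (UL 1)).Relations 1)
      (fun _ => Term.var (Sum.inr 0 : (Empty ⊕ Fin p) ⊕ Fin 2))).imp
      (((LHom.sumInl : L →ᴸ L.sum (UL 1)).onFormula ψ).relabel
        (Sum.elim (fun _ => Sum.inr 0) (fun j => Sum.inl (Sum.inr j))))) ⊓
     ((Relations.formula (L := L.sum (UL 1)) (n := 1)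
      (Sum.inr (URel.P 0) : (L.sum (UL 1)).Relations 1)
      (fun _ => Term.var (Sum.inr 1 : (Empty ⊕ Fin p) ⊕ Fin 2))).imp
      ((((LHom.sumInl : L →ᴸ L.sum (UL 1)).onFormula ρ).relabel
        (fun j => (Sum.inr j : (Empty ⊕ Fin p) ⊕ Fin 2))).imp
      (((LHom.sumInl : L →ᴸ L.sum (UL 1)).onFormula ψ).relabel
        (Sum.elim (fun _ => Sum.inr 0) (fun j => Sum.inl (Sum.inr j)))).not))))

theorem realize_ssent {L : FirstOrder.Language.{0, 0}} (ρ : L.Formula (Fin 2)) {p : ℕ}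
    (ψ : L.Formula (Fin 1 ⊕ Fin p)) {M : Type} [L.Structure M] (P : Set M) :
    (letI := ul (fun _ : Fin 1 => P); M ⊨ ssent ρ ψ) ↔
      ∃ c : Fin p → M, ∀ x : Fin 2 → M, (x 0 ∈ P → ψ.Realize (Sum.elim (fun _ => x 0) c)) ∧
        (x 1 ∈ P → ρ.Realize x → ¬ ψ.Realize (Sum.elim (fun _ => x 0) c)) := by
  let _ := ul (fun _ : Fin 1 => P)
  show M ⊨ ssent ρ ψ ↔ _
  unfold ssent Sentence.Realize
  rw [Formula.realize_iExs]
  refine exists_congr fun c => ?_
  rw [Formula.realize_iAlls]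
  refine forall_congr' fun x => ?_
  have e1 : ((fun a => Sum.elim (Sum.elim (default : Empty → M) c) x a) ∘
        (Sum.elim (fun _ => Sum.inr 0) (fun j => Sum.inl (Sum.inr j)) :
          Fin 1 ⊕ Fin p → (Empty ⊕ Fin p) ⊕ Fin 2)) = Sum.elim (fun _ => x 0) c := by
      funext a
      rcases a with a | a <;> rfl
  have e2 : ((fun a => Sum.elim (Sum.elim (default : Empty → M) c) x a) ∘
        (fun j => (Sum.inr j : (Empty ⊕ Fin p) ⊕ Fin 2))) = x := by
      funext a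
      rfl
  rw [Formula.realize_inf, Formula.realize_imp, Formula.realize_imp, Formula.realize_imp,
    Formula.realize_not, Formula.realize_relabel, Formula.realize_relabel,
    LHom.realize_onFormula, LHom.realize_onFormula, e1, e2]
  rfl

theorem sep_transfer {L : FirstOrder.Language.{0, 0}} (ρ : L.Formula (Fin 2)) {M M' : Type}
    [L.Structure M] [L.Structure M'] {P : Set M} {Q : Set M'}
    (h : Same L (fun _ : Fin 1 => P) (fun _ : Fin 1 => Q))
    (hd : ∃ (p : ℕ) (ψ : L.Formula (Fin 1 ⊕ Fin p)) (c : Fin p → M'),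
      (∀ x ∈ Q, ψ.Realize (Sum.elim (fun _ => x) c)) ∧
      ∀ x, ∀ y ∈ Q, ρ.Realize ![x, y] → ¬ ψ.Realize (Sum.elim (fun _ => x) c)) :
    ∃ (p : ℕ) (ψ : L.Formula (Fin 1 ⊕ Fin p)) (c : Fin p → M),
      (∀ x ∈ P, ψ.Realize (Sum.elim (fun _ => x) c)) ∧
      ∀ x, ∀ y ∈ P, ρ.Realize ![x, y] → ¬ ψ.Realize (Sum.elim (fun _ => x) c) := by
  obtain ⟨p, ψ, c, hc1, hc2⟩ := hd
  have h1 := (realize_ssent ρ ψ Q).2 ⟨c, fun x => ⟨hc1 (x 0), fun hx hr => by
    refine hc2 (x 0) (x 1) hx ?_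
    have : x = ![x 0, x 1] := by
      funext k
      fin_cases k <;> rfl
    rwa [← this]⟩⟩
  have h2 : (letI := ul (fun _ : Fin 1 => P); M ⊨ ssent ρ ψ) := by
    let u1 := ul (fun _ : Fin 1 => P)
    let u2 := ul (fun _ : Fin 1 => Q)
    have h' : M ≅[L.sum (UL 1)] M' := h
    have h3 := (elementarilyEquivalent_iff.1 h') (ssent ρ ψ)
    exact h3.2 h1
  obtain ⟨c', hc'⟩ := (realize_ssent ρ ψ P).1 h2
  refine ⟨p, ψ, c', fun x hx => (hc' ![x, x]).1 hx, fun x y hy hr => (hc' ![x, y]).2 hy hr⟩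

/-- elementary maps preserve the formulas of `L` -/
theorem elemL {L R : FirstOrder.Language.{0, 0}} {M N : Type} [L.Structure M]
    [L.Structure N] {r : R.Structure M} {r' : R.Structure N} {f : M → N}
    (h : ElemMap2 L R r r' f) (ρ : L.Formula (Fin 2)) (x y : M) :
    ρ.Realize ![f x, f y] ↔ ρ.Realize ![x, y] := by
  have h1 := h 2 ((LHom.sumInl : L →ᴸ L.sum R).onFormula ρ) ![x, y]
  let _ := r
  let _ := r'
  have e : f ∘ ![x, y] = ![f x, f y] := by
    funext k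
    fin_cases k <;> rfl
  rw [e] at h1
  have h2 : ((LHom.sumInl : L →ᴸ L.sum R).onFormula ρ).Realize ![f x, f y] ↔
      ρ.Realize ![f x, f y] := LHom.realize_onFormula _ _
  have h3 : ((LHom.sumInl : L →ᴸ L.sum R).onFormula ρ).Realize ![x, y] ↔
      ρ.Realize ![x, y] := LHom.realize_onFormula _ _
  exact h2.symm.trans (h1.trans h3)

theorem step (hJ : JStm) (hT : S_TK1) {L : FirstOrder.Language.{0, 0}} (ρ : L.Formula (Fin 2))
    (hsym : ∀ (M : Type) [L.Structure M] (x y : M), ρ.Realize ![x, y] → ρ.Realize ![y, x])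
    {M : Type} [L.Structure M] [Nonempty M] {P : Set M}
    (hnd : ¬ ∃ (p : ℕ) (ψ : L.Formula (Fin 1 ⊕ Fin p)) (c : Fin p → M),
      (∀ x ∈ P, ψ.Realize (Sum.elim (fun _ => x) c)) ∧
      ∀ x, ∀ y ∈ P, ρ.Realize ![x, y] → ¬ ψ.Realize (Sum.elim (fun _ => x) c)) (n : ℕ) :
    ∃ (M' : Type) (_ : L.Structure M') (_ : Nonempty M') (Q : Fin (n + 1) → Set M'),
      (∀ i j, i ≠ j → ∃ x ∈ Q i, ∃ y ∈ Q j, ρ.Realize ![x, y]) ∧
      ∀ i, Same L (fun _ : Fin 1 => P) (fun _ : Fin 1 => Q i) := by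
  induction n with
  | zero =>
    refine ⟨M, inferInstance, inferInstance, fun _ => P, ?_, fun _ => same_refl _⟩
    intro i j hij
    exact absurd (Fin.ext (by omega)) hij
  | succ n ih =>
    obtain ⟨M1, _, _, Q, hQ, hS⟩ := ih
    have hnd1 : ¬ ∃ (p : ℕ) (ψ : L.Formula (Fin 1 ⊕ Fin p)) (c : Fin p → M1),
        (∀ x ∈ Q 0, ψ.Realize (Sum.elim (fun _ => x) c)) ∧
        ∀ x, ∀ y ∈ Q 0, ρ.Realize ![x, y] → ¬ ψ.Realize (Sum.elim (fun _ => x) c) :=
      fun hd => hnd (sep_transfer ρ (hS 0) hd)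
    have hsep : ∀ q : Fin (n + 1) × Fin (n + 1), ∃ a : Fin 2 → M1, q.1 ≠ q.2 →
        a 0 ∈ Q q.1 ∧ a 1 ∈ Q q.2 ∧ ρ.Realize ![a 0, a 1] := by
      intro q
      by_cases hq : q.1 = q.2
      · obtain ⟨a⟩ : Nonempty M1 := inferInstance
        exact ⟨fun _ => a, fun h => absurd hq h⟩
      · obtain ⟨x, hx, y, hy, hr⟩ := hQ q.1 q.2 hq
        exact ⟨![x, y], fun _ => ⟨hx, hy, hr⟩⟩
    choose a ha using hsep
    set u : (Fin (n + 1) × Fin (n + 1)) × Fin 2 → M1 := fun q => a q.1 q.2 with hu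
    set E := Fintype.equivFin ((Fin (n + 1) × Fin (n + 1)) × Fin 2) with hE
    obtain ⟨M2, _, Q2, e, b, c, c', he, hb, hc', hr, hbc⟩ := hT L ρ (n + 1) M1 Q 0 hnd1
      (Fintype.card ((Fin (n + 1) × Fin (n + 1)) × Fin 2)) (u ∘ E.symm)
    have : Nonempty M2 := ⟨b⟩
    obtain ⟨M3, _, r1, r2, f, g, hf, hg, hfg⟩ := hJ L (UL (n + 1)) M2 (ul Q2)
      (1 + Fintype.card ((Fin (n + 1) × Fin (n + 1)) × Fin 2))
      (Sum.elim (fun _ => b) (e ∘ (u ∘ E.symm)) ∘ finSumFinEquiv.symm)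
      (Sum.elim (fun _ => c) (e ∘ (u ∘ E.symm)) ∘ finSumFinEquiv.symm)
      (fun φ => by
        have := hbc (φ.relabel finSumFinEquiv.symm)
        rwa [Formula.realize_relabel, Formula.realize_relabel] at this)
    have hfg1 : f b = g c := by
      have := congrFun hfg (finSumFinEquiv (Sum.inl 0))
      simpa using this
    have hfg2 : ∀ q, f (e (u q)) = g (e (u q)) := by
      intro q
      have := congrFun hfg (finSumFinEquiv (Sum.inr (E q)))
      simpa using this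
    have : Nonempty M3 := ⟨f b⟩
    have hm1 : ∀ i x, f (e x) ∈ pset r1 i ↔ x ∈ Q i := fun i x =>
      (mem_pset hf i (e x)).trans (mem_pset he i x)
    have hm2 : ∀ i x, g (e x) ∈ pset r2 i ↔ x ∈ Q i := fun i x =>
      (mem_pset hg i (e x)).trans (mem_pset he i x)
    have hfe : ∀ x y, ρ.Realize ![f (e x), f (e y)] ↔ ρ.Realize ![x, y] := fun x y =>
      (elemL hf ρ (e x) (e y)).trans (elemL he ρ x y)
    have hlast : ∀ i : Fin (n + 1), ∃ x ∈ pset r1 i, ∃ y ∈ pset r2 0, ρ.Realize ![x, y] := by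
      intro i
      by_cases h0 : i = 0
      · subst h0
        refine ⟨f b, (mem_pset hf 0 b).2 hb, g c', (mem_pset hg 0 c').2 hc', ?_⟩
        rw [hfg1]
        exact (elemL hg ρ c c').2 hr
      · obtain ⟨h1, h2, h3⟩ := ha (i, 0) h0
        refine ⟨f (e (u ((i, 0), 0))), (hm1 i _).2 h1, g (e (u ((i, 0), 1))), (hm2 0 _).2 h2, ?_⟩
        rw [← hfg2]
        exact (hfe _ _).2 h3
    refine ⟨M3, inferInstance, inferInstance,
      Fin.snoc (α := fun _ => Set M3) (fun i => pset r1 i) (pset r2 0), ?_, ?_⟩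
    · intro i
      refine Fin.lastCases ?_ (fun i => ?_) i
      · intro j
        refine Fin.lastCases ?_ (fun j => ?_) j
        · intro h
          exact absurd rfl h
        · intro _
          rw [Fin.snoc_last, Fin.snoc_castSucc]
          obtain ⟨x, hx, y, hy, h⟩ := hlast j
          exact ⟨y, hy, x, hx, hsym M3 x y h⟩
      · intro j
        refine Fin.lastCases ?_ (fun j => ?_) j
        · intro _
          rw [Fin.snoc_last, Fin.snoc_castSucc]
          exact hlast i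
        · intro h
          rw [Fin.snoc_castSucc, Fin.snoc_castSucc]
          have hne' : i ≠ j := fun h' => h (by rw [h'])
          obtain ⟨h1, h2, h3⟩ := ha (i, j) hne'
          exact ⟨f (e (u ((i, j), 0))), (hm1 i _).2 h1, f (e (u ((i, j), 1))), (hm1 j _).2 h2,
            (hfe _ _).2 h3⟩
    · intro i
      refine Fin.lastCases ?_ (fun i => ?_) i
      · rw [Fin.snoc_last]
        exact same_trans (hS 0) (same_trans (same_of_elem he 0) (same_of_elem hg 0))
      · rw [Fin.snoc_castSucc]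
        exact same_trans (hS i) (same_trans (same_of_elem he i) (same_of_elem hf i))

end Pool.Agent.N616.NV.TK_

namespace Pool.Agent.N616.NV

open FirstOrder FirstOrder.Language Pool.Agent.R492.DV

theorem TK : S_TK1 → S_TK := by
  intro hT L ρ hsym M _ _ P N hN
  by_contra hnd
  rcases N with _ | n
  · obtain ⟨i, -⟩ := hN M (fun i => i.elim0) (fun i => i.elim0)
    exact i.elim0
  · obtain ⟨M', _, _, Q, hQ, hS⟩ := TK_.step (j g) hT ρ hsym hnd n
    obtain ⟨i, k, hik, h⟩ := hN M' Q hS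
    obtain ⟨x, hx, y, hy, hr⟩ := hQ i k hik
    exact h x hx y hy hr

end Pool.Agent.N616.NV
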