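import Pool.Agent.N616.NV.Stm
import Pool.Agent.R492.DV.K1

set_option autoImplicit false

/-!
# Project NV, part TK1 (helper457)

Separation variant of the compactness lemma `k1` of the starting library `R492/DV/K1.lean`.
-/

namespace Pool.Agent.N616.NV

open FirstOrder FirstOrder.Language Set Pool.Agent.R492.DV Pool.Agent.R492.DV.K1Pf

namespace TK1_

theorem fin_agree {L : FirstOrder.Language.{0, 0}} {M : Type} [L.Structure M] (X Y : Set M)
    (hX : ¬ ∃ (p : ℕ) (ψ : L.Formula (Fin 1 ⊕ Fin p)) (c : Fin p → M),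
      (∀ x ∈ X, ψ.Realize (Sum.elim (fun _ => x) c)) ∧
      ∀ x ∈ Y, ¬ ψ.Realize (Sum.elim (fun _ => x) c)) {k : ℕ} (a : Fin k → M)
    (Φ : Finset (L.Formula (Fin 1 ⊕ Fin k))) :
    ∃ x y, x ∈ X ∧ y ∈ Y ∧ ∀ φ ∈ Φ, φ.Realize (Sum.elim (fun _ => x) a) ↔
      φ.Realize (Sum.elim (fun _ => y) a) := by
  classical
  by_contra hno
  apply hX
  let S := {σ : Φ → Prop // ∃ x ∈ X, ∀ φ : Φ, σ φ ↔ φ.1.Realize (Sum.elim (fun _ => x) a)}
  let ψ : L.Formula (Fin 1 ⊕ Fin k) := Formula.iSup (fun σ : S =>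
    Formula.iInf (fun φ : Φ => if σ.1 φ then φ.1 else φ.1.not))
  have hψ : ∀ y, ψ.Realize (Sum.elim (fun _ => y) a) ↔
      ∃ σ : S, ∀ φ : Φ, σ.1 φ ↔ φ.1.Realize (Sum.elim (fun _ => y) a) := by
    intro y
    simp only [ψ]
    rw [Formula.realize_iSup]
    refine exists_congr fun σ => ?_
    rw [Formula.realize_iInf]
    refine forall_congr' fun φ => ?_
    by_cases h : σ.1 φ
    · rw [if_pos h]
      exact ⟨fun h1 => ⟨fun _ => h1, fun _ => h⟩, fun h1 => h1.1 h⟩
    · rw [if_neg h, Formula.realize_not]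
      exact ⟨fun h1 => ⟨fun h2 => absurd h2 h, fun h2 => absurd h2 h1⟩, fun h1 h2 => h (h1.2 h2)⟩
  refine ⟨k, ψ, a, fun y hy => ?_, fun y hy => ?_⟩
  · rw [hψ]
    exact ⟨⟨fun φ => φ.1.Realize (Sum.elim (fun _ => y) a), y, hy, fun φ => Iff.rfl⟩,
      fun φ => Iff.rfl⟩
  · rw [hψ]
    rintro ⟨⟨σ, x, hx, hσ⟩, hy'⟩
    apply hno
    refine ⟨x, y, hx, hy, fun φ hφ => ?_⟩
    rw [← hσ ⟨φ, hφ⟩]
    exact hy' ⟨φ, hφ⟩

end TK1_

theorem TK1 : S_TK1 := by
  intro L ρ m M _ _ Q i₀ hdef k a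
  classical
  letI := ul Q
  let β : Fin 3 → Fin 1 ⊕ Fin k → M ⊕ Fin 3 := fun b =>
    Sum.elim (fun _ => Sum.inr b) (fun i => Sum.inl (a i))
  let ef : L.Formula (Fin 1 ⊕ Fin k) → (L.sum (UL m)).Formula (M ⊕ Fin 3) := fun φ =>
    (((LHom.sumInl : L →ᴸ L.sum (UL m)).onFormula φ).relabel (β 0)).iff
      (((LHom.sumInl : L →ᴸ L.sum (UL m)).onFormula φ).relabel (β 1))
  let rf : (L.sum (UL m)).Formula (M ⊕ Fin 3) :=
    ((LHom.sumInl : L →ᴸ L.sum (UL m)).onFormula ρ).relabel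
      (![Sum.inr 1, Sum.inr 2] : Fin 2 → M ⊕ Fin 3)
  let Γ : Set ((L.sum (UL m)).Formula (M ⊕ Fin 3)) := {φ |
    (∃ χ : (L.sum (UL m)).Formula M, χ.Realize id ∧ φ = χ.relabel Sum.inl) ∨
    (φ = pf L i₀ (Sum.inr 0)) ∨ (φ = pf L i₀ (Sum.inr 2)) ∨ (φ = rf) ∨ ∃ φ₀, φ = ef φ₀}
  have hfin : ∀ Γ₀ : Finset ((L.sum (UL m)).Formula (M ⊕ Fin 3)), (Γ₀ : Set _) ⊆ Γ →
      ∃ Φ : Finset (L.Formula (Fin 1 ⊕ Fin k)), ∀ x z y, x ∈ Q i₀ → y ∈ Q i₀ →
        ρ.Realize ![z, y] → (∀ φ ∈ Φ, φ.Realize (Sum.elim (fun _ => x) a) ↔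
          φ.Realize (Sum.elim (fun _ => z) a)) →
        ∀ φ ∈ Γ₀, φ.Realize (Sum.elim id ![x, z, y]) := by
    intro Γ₀
    induction Γ₀ using Finset.induction_on with
    | empty =>
      intro _
      exact ⟨∅, by simp⟩
    | insert φ Γ₁ hφ ih =>
      intro hsub
      rw [Finset.coe_insert, insert_subset_iff] at hsub
      obtain ⟨Φ, hΦ⟩ := ih hsub.2
      rcases hsub.1 with ⟨χ, hχ, rfl⟩ | rfl | rfl | rfl | ⟨φ₀, rfl⟩
      · refine ⟨Φ, fun x z y hx hy hr hxy φ hφ => ?_⟩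
        rcases Finset.mem_insert.1 hφ with rfl | hφ
        · rw [Formula.realize_relabel, Sum.elim_comp_inl]
          exact hχ
        · exact hΦ x z y hx hy hr hxy φ hφ
      · refine ⟨Φ, fun x z y hx hy hr hxy φ hφ => ?_⟩
        rcases Finset.mem_insert.1 hφ with rfl | hφ
        · rw [realize_pf]
          exact hx
        · exact hΦ x z y hx hy hr hxy φ hφ
      · refine ⟨Φ, fun x z y hx hy hr hxy φ hφ => ?_⟩
        rcases Finset.mem_insert.1 hφ with rfl | hφ
        · rw [realize_pf]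
          exact hy
        · exact hΦ x z y hx hy hr hxy φ hφ
      · refine ⟨Φ, fun x z y hx hy hr hxy φ hφ => ?_⟩
        rcases Finset.mem_insert.1 hφ with rfl | hφ
        · simp only [rf]
          rw [Formula.realize_relabel, LHom.realize_onFormula]
          have e1 : (Sum.elim id ![x, z, y] : M ⊕ Fin 3 → M) ∘
              (![Sum.inr 1, Sum.inr 2] : Fin 2 → M ⊕ Fin 3) = ![z, y] := by
            funext j; fin_cases j <;> rfl
          rw [e1]
          exact hr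
        · exact hΦ x z y hx hy hr hxy φ hφ
      · refine ⟨insert φ₀ Φ, fun x z y hx hy hr hxy φ hφ => ?_⟩
        rcases Finset.mem_insert.1 hφ with rfl | hφ
        · simp only [ef]
          rw [Formula.realize_iff, Formula.realize_relabel, Formula.realize_relabel,
            LHom.realize_onFormula, LHom.realize_onFormula]
          have e1 : (Sum.elim id ![x, z, y] : M ⊕ Fin 3 → M) ∘ β 0 =
              Sum.elim (fun _ => x) a := by
            funext w; rcases w with w | w <;> rfl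
          have e2 : (Sum.elim id ![x, z, y] : M ⊕ Fin 3 → M) ∘ β 1 =
              Sum.elim (fun _ => z) a := by
            funext w; rcases w with w | w <;> rfl
          rw [e1, e2]
          exact hxy φ₀ (Finset.mem_insert_self _ _)
        · exact hΦ x z y hx hy hr (fun φ hφ => hxy φ (Finset.mem_insert_of_mem hφ)) φ hφ
  obtain ⟨M', S, hM', v, hv⟩ := Cpt.cpt (L.sum (UL m)) (M ⊕ Fin 3) Γ (by
    intro Γ₀ hΓ₀
    obtain ⟨Φ, hΦ⟩ := hfin Γ₀ hΓ₀
    obtain ⟨x, z, hx, ⟨y, hy, hr⟩, hxy⟩ := TK1_.fin_agree (Q i₀)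
      {x | ∃ y ∈ Q i₀, ρ.Realize ![x, y]} (by
        rintro ⟨p, ψ, c, h1, h2⟩
        exact hdef ⟨p, ψ, c, h1, fun x y hy hr => h2 x ⟨y, hy, hr⟩⟩) a Φ
    exact ⟨M, inferInstance, inferInstance, _, hΦ x z y hx hy hr hxy⟩)
  have hS := Cpt.sum_reduct L (UL m) M' S
  letI SL : L.Structure M' := (LHom.sumInl : L →ᴸ L.sum (UL m)).reduct M'
  let Q' : Fin m → Set M' := fun i =>
    {x | @Structure.RelMap (L.sum (UL m)) M' S 1 (ps L i) ![x]}
  have hR : ul Q' = (LHom.sumInr : UL m →ᴸ L.sum (UL m)).reduct M' := by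
    apply Structure.ext
    · funext n f x
      exact Empty.elim f
    · funext n f x
      cases f with
      | P i =>
        show (x 0 ∈ Q' i) = @Structure.RelMap (L.sum (UL m)) M' S 1 (ps L i) x
        have hx : x = ![x 0] := by
          funext z
          rw [Subsingleton.elim z 0]; rfl
        conv_rhs => rw [hx]
        rfl
  rw [← hR] at hS
  refine ⟨M', SL, Q', fun x => v (Sum.inl x), v (Sum.inr 0), v (Sum.inr 1), v (Sum.inr 2),
    ?_, ?_, ?_, ?_, ?_⟩
  · have h1 : ∀ (n : ℕ) (φ : (L.sum (UL m)).Formula (Fin n)) (x : Fin n → M), φ.Realize x →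
        @Formula.Realize _ _ S _ φ ((fun b => v (Sum.inl b)) ∘ x) := by
      intro n φ x hx
      have h2 := hv ((φ.relabel x).relabel Sum.inl) (Or.inl ⟨_, by
        rw [Formula.realize_relabel]; exact hx, rfl⟩)
      rw [Formula.realize_relabel, Formula.realize_relabel] at h2
      exact h2
    intro n φ x
    show @Formula.Realize _ _ (@Language.sumStructure L (UL m) M' SL (ul Q')) _ φ _ ↔ φ.Realize x
    rw [show @Language.sumStructure L (UL m) M' SL (ul Q') = S from hS]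
    constructor
    · intro h2
      by_contra h3
      exact h1 n φ.not x h3 h2
    · exact h1 n φ x
  · have h2 := hv _ (Or.inr (Or.inl rfl))
    rw [realize_pf] at h2
    exact h2
  · have h2 := hv _ (Or.inr (Or.inr (Or.inl rfl)))
    rw [realize_pf] at h2
    exact h2
  · have h2 := hv _ (Or.inr (Or.inr (Or.inr (Or.inl rfl))))
    haveI : (LHom.sumInl : L →ᴸ L.sum (UL m)).IsExpansionOn M' := LHom.isExpansionOn_reduct _ _
    simp only [rf] at h2
    rw [Formula.realize_relabel, LHom.realize_onFormula] at h2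
    have e1 : v ∘ (![Sum.inr 1, Sum.inr 2] : Fin 2 → M ⊕ Fin 3) =
        ![v (Sum.inr 1), v (Sum.inr 2)] := by
      funext j; fin_cases j <;> rfl
    rw [e1] at h2
    exact h2
  · intro φ
    have h2 := hv _ (Or.inr (Or.inr (Or.inr (Or.inr ⟨φ, rfl⟩))))
    haveI : (LHom.sumInl : L →ᴸ L.sum (UL m)).IsExpansionOn M' := LHom.isExpansionOn_reduct _ _
    simp only [ef] at h2
    rw [Formula.realize_iff, Formula.realize_relabel, Formula.realize_relabel,
      LHom.realize_onFormula, LHom.realize_onFormula] at h2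
    have e1 : v ∘ β 0 = Sum.elim (fun _ => v (Sum.inr 0)) ((fun x => v (Sum.inl x)) ∘ a) := by
      funext z; rcases z with z | z <;> rfl
    have e2 : v ∘ β 1 = Sum.elim (fun _ => v (Sum.inr 1))
        ((fun x => v (Sum.inl x)) ∘ a) := by
      funext z; rcases z with z | z <;> rfl
    rw [e1, e2] at h2
    exact h2

end Pool.Agent.N616.NV
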