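import Pool.Agent.N616.NV.Stm
import Pool.Agent.N616.NH.DEF1
import Pool.Agent.Results.MP_3554b5_lc.FewBadPlaces

set_option autoImplicit false

/-!
# Project NV: definable neighbourhoods (assembly)
-/

namespace Pool.Agent.N616.NV

open FirstOrder FirstOrder.Language FirstOrder.Ring Pool.Agent.W882.Nip3 Pool.Agent.R492.DV
  Pool.Agent.N616.NH Pool.Agent.Results.MP_3554b5_lc

namespace Top_

/-- The formula `x y = 1 ∧ y x = 1`. -/
def rho : FirstOrder.Language.ring.Formula (Fin 2) :=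
  (Term.equal (Term.var 0 * Term.var 1) 1) ⊓ (Term.equal (Term.var 1 * Term.var 0) 1)

theorem rho_symm (M : Type) [FirstOrder.Language.ring.Structure M] (x y : M)
    (h : rho.Realize ![x, y]) : rho.Realize ![y, x] := by
  unfold rho at h ⊢
  rw [Formula.realize_inf, Formula.realize_equal, Formula.realize_equal] at h ⊢
  refine ⟨?_, ?_⟩
  · have := h.2
    simpa [mul_def, one_def, Term.realize, Term.realize_functions_apply₂] using this
  · have := h.1
    simpa [mul_def, one_def, Term.realize, Term.realize_functions_apply₂] using this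

theorem realize_rho {K : Type} [Field K] [CompatibleRing K] (x y : K) :
    rho.Realize ![x, y] ↔ x * y = 1 := by
  unfold rho
  rw [Formula.realize_inf, Formula.realize_equal, Formula.realize_equal]
  simp only [realize_mul, realize_one, Term.realize_var]
  constructor
  · rintro ⟨h, -⟩
    exact h
  · intro h
    exact ⟨h, (mul_comm _ _).trans h⟩

/-- Kueker's theorem for the sets which contain small elements only. -/
theorem kueker_inv (hTK : S_TK) (K : Type) [Field K] [CompatibleRing K]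
    (hK : NIPField K ∨ (∃ n, NIPnField n K) ∨ NTP2Field K) (D : ℕ) (P : Set K)
    (hP : ∀ (K' : Type) [Field K'] [CompatibleRing K'] (Q : Set K'),
      Same FirstOrder.Language.ring (fun _ : Fin 1 => P) (fun _ : Fin 1 => Q) →
      ∃ R : Place K', (∀ x ∈ Q, R.Small x) ∧ ¬ DimLeOneUpTo R.F D) :
    ∃ U : Set K, DfS U ∧ P ⊆ U ∧ ∀ x ∈ U, ∀ y ∈ P, x * y ≠ 1 := by
  obtain ⟨N, hN⟩ := FewBadPlaces.result K hK D
  obtain ⟨p, ψ, c, h1, h2⟩ := hTK FirstOrder.Language.ring rho rho_symm K P N (by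
    intro M' _ _ Q hQ
    by_contra hcon
    push Not at hcon
    rcases Nat.eq_zero_or_pos N with rfl | hNpos
    · obtain ⟨i, -⟩ := hN K (by rw [elementarilyEquivalent_iff]; intro φ; rfl)
        (fun i => i.elim0) (fun i => i.elim0)
      exact i.elim0
    · have he := DEF1_.eqv_of_same' (hQ ⟨0, hNpos⟩)
      have : FirstOrder.Language.Theory.field.Model M' := by
        have h1 : FirstOrder.Language.Theory.field.Model K := inferInstance
        exact he.theory_model_iff.1 h1
      let _ := FirstOrder.Field.fieldOfModelField M'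
      let _ := FirstOrder.Field.compatibleRingOfModelField M'
      choose R hR1 hR2 using fun i => hP M' (Q i) (hQ i)
      obtain ⟨i, hi⟩ := hN M' he R (by
        intro i j hij
        obtain ⟨x, hx, y, hy, hxy⟩ := hcon i j hij
        have hxy' := (realize_rho x y).1 hxy
        refine ⟨x, left_ne_zero_of_mul_eq_one hxy', hR1 i x hx, ?_⟩
        have : y = x⁻¹ := eq_inv_of_mul_eq_one_right hxy'
        rw [← this]
        exact hR1 j y hy)
      exact hR2 i hi)
  refine ⟨{x | ψ.Realize (Sum.elim (fun _ => x) c)}, ⟨p, ψ, c, fun x => Iff.rfl⟩, fun x hx => h1 x hx,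
    fun x hx y hy hxy => h2 x y hy ((realize_rho x y).2 hxy) hx⟩

end Top_

open Top_

/-- Bad valuation rings have definable neighbourhoods. -/
theorem top_def (hTK : S_TK) (hFO : S_FO) (hBP : S_BP) (K : Type) [Field K] [CompatibleRing K]
    (hK : NIPField K ∨ (∃ n, NIPnField n K) ∨ NTP2Field K) (O : ValuationSubring K) (δ : K)
    (e d : ℕ) (hd : 0 < d) (hO : BadAt O δ e d) :
    ∃ U : Set K, DfS U ∧ (∀ x, O.valuation x ≤ O.valuation δ → x ∈ U) ∧
      ∀ x ∈ U, O.valuation x * O.valuation δ < 1 := by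
  obtain ⟨U, hU, h1, h2⟩ := kueker_inv hTK K hK (max (e + 1) d)
    {x : K | O.valuation x ≤ O.valuation δ} (by
      intro K' _ _ Q hQ
      obtain ⟨O', δ', hO', hQ'⟩ := hFO K O δ e d hO K' Q hQ
      obtain ⟨R, hR1, hR2⟩ := hBP K' O' δ' e d hd hO'
      exact ⟨R, fun x hx => hR1 x ((hQ' x).1 hx), hR2 _ (le_max_left _ _) (le_max_right _ _)⟩)
  refine ⟨U, hU, fun x hx => h1 hx, fun x hx => ?_⟩
  by_cases hx0 : x = 0
  · rw [hx0, map_zero, zero_mul]
    exact zero_lt_one
  · by_contra hcon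
    have hv : O.valuation x ≠ 0 := (Valuation.ne_zero_iff _).2 hx0
    refine h2 x hx x⁻¹ ?_ (mul_inv_cancel₀ hx0)
    show O.valuation x⁻¹ ≤ O.valuation δ
    rw [map_inv₀]
    rw [not_lt] at hcon
    rw [inv_le_iff_one_le_mul₀ (zero_lt_iff.2 hv), mul_comm]
    exact hcon

/-- Orderings have definable neighbourhoods. -/
theorem ord_def (hTK : S_TK) (hOP : S_OP) (hOF : S_OF) (K : Type) [Field K] [LinearOrder K]
    [IsStrictOrderedRing K] [CompatibleRing K]
    (hK : NIPField K ∨ (∃ n, NIPnField n K) ∨ NTP2Field K) :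
    ∃ U : Set K, DfS U ∧ (∀ x, |x| ≤ 1 / 2 → x ∈ U) ∧ ∀ x ∈ U, |x| < 2 := by
  obtain ⟨U, hU, h1, h2⟩ := kueker_inv hTK K hK 2 {x : K | |x| ≤ 1 / 2} (by
      intro K' _ _ Q hQ
      obtain ⟨_, _, hQ'⟩ := hOF K K' Q hQ
      obtain ⟨R, hR1, hR2⟩ := hOP K'
      exact ⟨R, fun x hx => hR1 x ((hQ' x).1 hx), hR2 _ le_rfl⟩)
  refine ⟨U, hU, fun x hx => h1 hx, fun x hx => ?_⟩
  by_contra hcon
  rw [not_lt] at hcon
  have hx0 : x ≠ 0 := by
    rintro rfl
    rw [abs_zero] at hcon
    linarith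
  refine h2 x hx x⁻¹ ?_ (mul_inv_cancel₀ hx0)
  show |x⁻¹| ≤ 1 / 2
  rw [abs_inv, one_div]
  exact inv_anti₀ two_pos hcon

end Pool.Agent.N616.NV
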