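import Mathlib
import Pool.Agent.N616.NV.Stm
import Pool.Agent.N616.NH.DFA
import Pool.Agent.N616.NH.DFB
import Pool.Agent.N616.NH.DJ

set_option autoImplicit false

/-!
# Project NV, part VD (helper701): definable approximation of the integral closure
-/

namespace Pool.Agent.N616.NV

open FirstOrder FirstOrder.Language Pool.Agent.N616.NH Pool.Agent.N616.NH.DFB_
  Pool.Agent.N616.NH.DJ_

namespace VD_

section sub_

variable {K : Type} [Field K] [FirstOrder.Ring.CompatibleRing K] {α : Type}

theorem dfk_substU {U : Set K} (hU : DfS U) {F : (α → K) → K} (hF : Tm F) :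
    DfK {u : α → K | F u ∈ U} := by
  obtain ⟨p, ψ, c, h⟩ := hU
  obtain ⟨q, σ, d, h'⟩ := hF
  refine ⟨p + q, BoundedFormula.subst ψ (Sum.elim
    (fun _ => σ.relabel (Sum.map id (Fin.natAdd p)))
    (fun i => Term.var (Sum.inr (Fin.castAdd q i)))), Fin.append c d, fun u => ?_⟩
  change F u ∈ U ↔ _
  rw [h (F u)]
  unfold Formula.Realize
  rw [BoundedFormula.realize_subst]
  have e : (Sum.elim (fun _ => F u) c : Fin 1 ⊕ Fin p → K) = fun a => Term.realize
      (Sum.elim u (Fin.append c d)) ((Sum.elim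
    (fun _ => σ.relabel (Sum.map id (Fin.natAdd p)))
    (fun i => Term.var (Sum.inr (Fin.castAdd q i))) :
      Fin 1 ⊕ Fin p → Language.ring.Term (α ⊕ Fin (p + q))) a) := by
    funext a
    rcases a with a | a
    · change F u = (σ.relabel (Sum.map id (Fin.natAdd p))).realize _
      rw [Term.realize_relabel, elim_right, h']
    · change c a = Fin.append c d (Fin.castAdd q a)
      rw [Fin.append_left]
  rw [← e]

variable {L : Type} [Field L] [Algebra K L] [FiniteDimensional K L]

open Module in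
theorem dfl_subU {U : Set K} (hU : DfS U) :
    DfL K L {v : Fin 1 → L | ∃ x ∈ U, algebraMap K L x = v 0} := by
  unfold DfL
  obtain ⟨j₀, hj₀⟩ : ∃ j₀, (finBasis K L).repr (1 : L) j₀ ≠ 0 := by
    by_contra hcon
    push Not at hcon
    have h1 : (finBasis K L).repr (1 : L) = 0 := Finsupp.ext hcon
    exact one_ne_zero ((finBasis K L).repr.map_eq_zero_iff.1 h1)
  have hco : ∀ (u : Fin (finrank K L) → K) (j), (finBasis K L).repr (co K L u) j = u j := by
    intro u j
    unfold co
    rw [map_sum, Finsupp.finsetSum_apply, Finset.sum_eq_single j]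
    · rw [map_smul, Finsupp.smul_apply, Basis.repr_self, Finsupp.single_eq_same, smul_eq_mul,
        mul_one]
    · intro i _ hij
      rw [map_smul, Finsupp.smul_apply, Basis.repr_self, Finsupp.single_eq_of_ne hij.symm, smul_zero]
    · intro h
      exact absurd (Finset.mem_univ j) h
  have h : {u : Fin 1 × Fin (finrank K L) → K | (fun i => co K L fun j => u (i, j)) ∈
      {v : Fin 1 → L | ∃ x ∈ U, algebraMap K L x = v 0}} =
      {u : Fin 1 × Fin (finrank K L) → K |
        u (0, j₀) * ((finBasis K L).repr (1 : L) j₀)⁻¹ ∈ U} ∩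
      {u : Fin 1 × Fin (finrank K L) → K |
      ∀ k ∈ (Finset.univ : Finset (Fin (finrank K L))), u ∈ {u : Fin 1 × Fin (finrank K L) → K |
        u (0, k) * (finBasis K L).repr (1 : L) j₀ = u (0, j₀) * (finBasis K L).repr (1 : L) k}} := by
    ext u
    simp only [Set.mem_ofPred_eq, Set.mem_inter_iff, Finset.mem_univ, forall_const]
    constructor
    · rintro ⟨x, hx, he⟩
      have h1 : ∀ k, u (0, k) = x * (finBasis K L).repr (1 : L) k := by
        intro k
        have h2 := hco (fun j => u (0, j)) k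
        rw [← he, Algebra.algebraMap_eq_smul_one, map_smul, Finsupp.smul_apply, smul_eq_mul] at h2
        exact h2.symm
      refine ⟨?_, fun k => ?_⟩
      · rw [h1, mul_inv_cancel_right₀ hj₀]
        exact hx
      · rw [h1 k, h1 j₀]
        ring
    · rintro ⟨h1, h2⟩
      refine ⟨_, h1, ?_⟩
      apply (finBasis K L).repr.injective
      refine Finsupp.ext fun k => ?_
      rw [hco (fun j => u (0, j)) k, Algebra.algebraMap_eq_smul_one, map_smul, Finsupp.smul_apply,
        smul_eq_mul]
      have h3 := h2 k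
      field_simp
      linear_combination -h3
  rw [h]
  exact dfk_inter (dfk_substU hU ((Tm.var (0, j₀)).mul (Tm.const _))) (dfk_all _ fun k =>
    dfk_eq ((Tm.var (0, k)).mul (Tm.const _)) ((Tm.var (0, j₀)).mul (Tm.const _)))

end sub_

end VD_

open VD_

/-- VD: definable approximations of the integral closure. -/
theorem VD : S_VD := by
  intro K _ _ O δ U hδ0 hδ1 hU hU1 hU2 L _ _ _
  have hA := Pool.Agent.N616.NH.DFA
  have hB := Pool.Agent.N616.NH.DFB
  set n := Module.finrank K L with hn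
  -- elements of `K` in the set `U`
  have h0 : D K (fun v : Fin 1 → L => ∃ x ∈ U, algebraMap K L x = v 0) := dfl_subU hU
  -- the set `U2`
  let A2 : L → Prop := fun x => ∃ y : K, δ * y ∈ U ∧ algebraMap K L y = x
  have h2 : D K (fun v : Fin 1 → L => A2 (v 0)) := by
    have h1 : D K (fun v : Fin 1 ⊕ Fin 1 → L => (∃ x ∈ U, algebraMap K L x = v (Sum.inr 0)) ∧
        MvPolynomial.eval v (MvPolynomial.C (algebraMap K L δ) * MvPolynomial.X (Sum.inl 0) -
          MvPolynomial.X (Sum.inr 0)) = 0) :=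
      D_and hA (D_mem hA (A := fun z => ∃ x ∈ U, algebraMap K L x = z) h0 _) (D_poly hB _)
    refine D_congr (fun v => ?_) (D_ex1 hA h1)
    simp only [map_sub, map_mul, MvPolynomial.eval_C, MvPolynomial.eval_X, Sum.elim_inl,
      Sum.elim_inr]
    constructor
    · rintro ⟨w, ⟨x, hx, hxw⟩, h⟩
      refine ⟨δ⁻¹ * x, by rwa [mul_inv_cancel_left₀ hδ0], ?_⟩
      rw [map_mul, hxw, ← sub_eq_zero.1 h, map_inv₀, inv_mul_cancel_left₀]
      exact (map_ne_zero _).2 hδ0
    · rintro ⟨y, hy, hyv⟩
      exact ⟨algebraMap K L (δ * y), ⟨_, hy, rfl⟩, by rw [map_mul, hyv, sub_self]⟩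
  refine ⟨{z | ∃ a : Fin n → L, (∀ i, A2 (a i)) ∧ z ^ n + ∑ i, a i * z ^ (i : ℕ) = 0}, ?_, ?_, ?_⟩
  · have h1 : D K (fun v : Fin 1 ⊕ Fin n → L => (∀ i, A2 (v (Sum.inr i))) ∧
        MvPolynomial.eval v (MvPolynomial.X (Sum.inl 0) ^ n +
          ∑ i : Fin n, MvPolynomial.X (Sum.inr i) * MvPolynomial.X (Sum.inl 0) ^ (i : ℕ)) = 0) :=
      D_and hA (D_forall hA hB fun i => D_mem hA h2 _) (D_poly hB _)
    refine D_congr (fun v => ?_) (D_ex hA h1)
    simp only [map_add, map_pow, MvPolynomial.eval_X, map_sum, map_mul, Sum.elim_inl, Sum.elim_inr]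
    rfl
  · intro z hz
    obtain ⟨a, ha, h⟩ := (mem_RI O z).1 hz
    refine ⟨a, fun i => ?_, h⟩
    obtain ⟨y, hy, hya⟩ := ha i
    refine ⟨y, hU1 _ ?_, hya⟩
    rw [map_mul]
    exact mul_le_of_le_one_right' ((O.valuation_le_one_iff y).2 hy)
  · rintro z ⟨a, ha, h⟩
    rw [mem_RI]
    choose y hy hya using ha
    refine ⟨fun i => algebraMap K L (y i * δ ^ (2 * (n - i))), fun i => ⟨_, ?_, rfl⟩, ?_⟩
    · have h3 : y i * δ ^ (2 * (n - i)) = (δ * y i * δ) * δ ^ (2 * (n - i - 1)) := by
        have h4 : 2 * (n - i) = 2 + 2 * (n - i - 1) := by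
          have := i.2
          omega
        rw [h4, pow_add]
        ring
      rw [h3]
      refine O.mul_mem _ _ ?_ (O.toSubring.pow_mem ((O.valuation_le_one_iff δ).1 hδ1.le) _)
      rw [← O.valuation_le_one_iff, map_mul]
      exact hU2 _ (hy i)
    · have h3 : (algebraMap K L (δ ^ 2) * z) ^ n + ∑ i : Fin n,
          algebraMap K L (y i * δ ^ (2 * (n - i))) * (algebraMap K L (δ ^ 2) * z) ^ (i : ℕ) =
          algebraMap K L (δ ^ 2) ^ n * (z ^ n + ∑ i, a i * z ^ (i : ℕ)) := by
        rw [mul_add, mul_pow, Finset.mul_sum]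
        congr 1
        refine Finset.sum_congr rfl fun i _ => ?_
        rw [← hya i, map_mul, mul_pow]
        have h5 : algebraMap K L (δ ^ 2) ^ n = algebraMap K L (δ ^ (2 * (n - i))) *
            algebraMap K L (δ ^ 2) ^ (i : ℕ) := by
          rw [← map_pow, ← map_pow, ← map_mul, ← pow_mul, ← pow_mul, ← pow_add]
          congr 2
          have := i.2
          omega
        rw [h5]
        ring
      exact h3.trans (by rw [h, mul_zero])

end Pool.Agent.N616.NV
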